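import Pool.Agent.Lib.MP_ff3ed7_lc.Prg3.Spec

/-! Agreement of the oracles (helper59). -/

set_option autoImplicit false

namespace Pool.Agent.Lib.MP_ff3ed7_lc.Prg3

open Finset
open Pool.Agent.Lib.MP_ff3ed7_lc.Prg (frac qf path gr cut)
open Pool.Agent.Lib.MP_ff3ed7_lc.Prg2

private theorem Agr_full (A : Orc) (M M' : ℕ) (ω : Smp) (z : Rep) (u : List Bool) :
    full A M M' ω z u = if M ≤ lev u ∧ lev u < M' then
      put (lev u) A (ω (lev u)) (fun s c y => decide (z (lev u) s c = y)) u else A u := rfl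

private theorem Agr_gen (hPut : Prg2.S_Put) (hRun : Prg2.S_Run) (X : Ctx)
    (P : ℕ → List Bool → Bool) (K : Exc) (ω : Smp) (z : Rep) (s B N : ℕ)
    (hN : X.M₀ ≤ N) (h : N < s ∨ N < B) (i : Fin (16 * N ^ 6)) :
    gen (full (X.con P K ω z s) s B ω z) N i = ω N i := by
  obtain ⟨hl, -, -, -, hp, -, -⟩ := hPut
  refine funext fun b => ?_
  change full (X.con P K ω z s) s B ω z (samp N i b) = ω N i b
  by_cases hs : N < s
  · have h1 := Agr_full (X.con P K ω z s) s B ω z (samp N i b)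
    rw [hl, if_neg (by omega)] at h1
    rw [h1]
    have h2 := (hRun X.Y P ω z K).2.2 X.M₀ (s - X.M₀) X.A₀ (samp N i b)
      (by rw [hl]; exact hN) (by rw [hl]; omega)
    rw [hl] at h2
    exact h2.trans (hp N _ _ _ i b)
  · have h1 := Agr_full (X.con P K ω z s) s B ω z (samp N i b)
    rw [hl, if_pos ⟨by omega, by omega⟩] at h1
    exact h1.trans (hp N _ _ _ i b)

theorem tAgr (hPut : Prg2.S_Put) (hRun : Prg2.S_Run) (_hFul : S_Ful) : S_Agr := by
  intro X P K ω z r hr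
  refine ⟨fun u hu => ?_, fun u hu => ?_, fun r' u hrr hu => ?_, fun N hN hm i => ?_⟩
  · have hu' : lev u < X.b (r + 1) := by
      rw [X.b_iff] at hu ⊢
      omega
    change full _ _ _ _ _ _ = full _ _ _ _ _ _
    rw [Agr_full, Agr_full]
    by_cases h1 : r + 1 ≤ lev u
    · rw [if_pos ⟨h1, hu⟩, if_pos ⟨h1, hu'⟩]
    · rw [if_neg fun h2 => h1 h2.1, if_neg fun h2 => h1 h2.1]
  · change full _ _ _ _ _ _ = _
    rw [Agr_full, if_neg fun h2 => by omega]
  · have h1 := (hRun X.Y P ω z K).2.1 X.M₀ (r - X.M₀) (r' - r) X.A₀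
    have h2 : r - X.M₀ + (r' - r) = r' - X.M₀ := by omega
    rw [h2] at h1
    change run X.Y P ω z K X.M₀ (r - X.M₀) X.A₀ u = run X.Y P ω z K X.M₀ (r' - X.M₀) X.A₀ u
    rw [h1]
    exact ((hRun X.Y P ω z K).1 _ _ _ u (Or.inl (by omega))).symm
  · have hb : N < X.b r := (X.b_iff r N).2 hm
    exact ⟨Agr_gen hPut hRun X P K ω z r (X.b r) N hN (Or.inr hb) i,
      Agr_gen hPut hRun X P K ω z (r + 1) (X.b r) N hN (Or.inr hb) i⟩

end Pool.Agent.Lib.MP_ff3ed7_lc.Prg3
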