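import Pool.Agent.Lib.MP_ff3ed7_lc.Prg3.Spec

/-! The canonical data depend only on the window (helper59). -/

set_option autoImplicit false

namespace Pool.Agent.Lib.MP_ff3ed7_lc.Prg3

open Finset
open Pool.Agent.Lib.MP_ff3ed7_lc.Prg (frac qf path gr cut)
open Pool.Agent.Lib.MP_ff3ed7_lc.Prg2

open Classical in
private theorem Cau_dite {α : Type} (p q : α → Prop) (h : p = q) (d : α) :
    (if h : ∃ a, p a then h.choose else d) = (if h : ∃ a, q a then h.choose else d) := by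
  subst h
  rfl

private theorem Cau_nxt (X : Ctx) (r : ℕ) (D : X.Dat) (ω ω' : Smp) (z z' : Rep)
    (h : ∀ D', X.Ok r D D' ω z ↔ X.Ok r D D' ω' z') : X.nxt r D ω z = X.nxt r D ω' z' :=
  Cau_dite _ _ (funext fun D' => propext (h D')) D

theorem tCau (hLcA : S_LcA) : S_Cau := by
  intro X ω ω' z z' N hag
  have hseq : ∀ j : ℕ, (∀ s, X.M₀ ≤ s → s < X.M₀ + j → X.b s ≤ N) →
      X.seq ω z j = X.seq ω' z' j := by
    intro j
    induction j with
    | zero => exact fun _ => rfl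
    | succ j ih =>
      intro hs
      have h1 := ih fun s hs1 hs2 => hs s hs1 (by omega)
      change X.nxt (X.M₀ + j) (X.seq ω z j) ω z = X.nxt (X.M₀ + j) (X.seq ω' z' j) ω' z'
      rw [← h1]
      refine Cau_nxt X _ _ ω ω' z z' fun D' => ?_
      have h2 := (hLcA X ω ω' z z' N hag (X.M₀ + j) (by omega)).2
        (hs (X.M₀ + j) (by omega) (by omega))
      exact h2.2.2 _ _
  have hD : ∀ r : ℕ, (∀ s, X.M₀ ≤ s → s < r → X.b s ≤ N) → X.D ω z r = X.D ω' z' r := by
    intro r hr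
    exact hseq (r - X.M₀) fun s hs1 hs2 => hr s hs1 (by omega)
  intro r
  refine ⟨hD r, fun hr hs => ?_⟩
  have h1 := hD r fun s hs1 hs2 => hs s hs1 hs2.le
  have h2 := (hLcA X ω ω' z z' N hag r hr).2 (hs r hr le_rfl)
  change X.J (X.D ω z r).P (X.D ω z r).K ω z r = X.J (X.D ω' z' r).P (X.D ω' z' r).K ω' z' r
  rw [← h1]
  exact h2.1 _ _

end Pool.Agent.Lib.MP_ff3ed7_lc.Prg3
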