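import Pool.Agent.Lib.MP_ff3ed7_lc.Prg3.Spec

/-!
The number of words on which a machine is right on the final oracle.
-/

set_option autoImplicit false

namespace Pool.Agent.Lib.MP_ff3ed7_lc.Prg3

open Finset
open Pool.Agent.Lib.MP_ff3ed7_lc.Prg (frac qf path gr cut)
open Pool.Agent.Lib.MP_ff3ed7_lc.Prg2

theorem tCnt (hFnT : S_FnT) (hFnM : S_FnM) (hInU : Prg2.S_InU) (hAdv : Prg.S_Adv) : S_Cnt := by
  intro X P τ K ω z A F hA i k n hν h hh
  have hM : X.M₀ ≤ n := (X.ν_M i k n hν).1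
  have hrk : n ≤ rk k n := by
    unfold rk
    omega
  have ha : h ∈ Prg.advs (n ^ k + k) := ((hAdv (n ^ k + k)).1 h).mpr hh
  refine le_trans ?_ (F.cnt i k n hν h ha)
  have key : ∀ x : Fin n → Bool, (∃ b, Inst A false k (List.ofFn x) b ∧
      ((X.W i).run h (List.ofFn x)).Decides A b) → P k (List.ofFn x) = (τ i k n h x).1 := by
    rintro x ⟨b, hb1, hb2⟩
    have hlen : (List.ofFn x).length = n := List.length_ofFn ..
    have h1 := (hFnT X P K ω z A F.card hA).2.2 k (List.ofFn x) (by rw [hlen]; omega)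
    have hb : b = P k (List.ofFn x) := hInU _ _ _ _ _ _ hb1 h1
    have hne : b ≠ !(τ i k n h x).1 := by
      intro hc
      exact hFnM X P τ K ω z A F hA i k n hν h ha x (hc ▸ hb2)
    rw [← hb]
    cases b <;> cases h3 : (τ i k n h x).1 <;> simp_all
  have hle : Nat.card {x : Fin n → Bool // ∃ b, Inst A false k (List.ofFn x) b ∧
      ((X.W i).run h (List.ofFn x)).Decides A b} ≤
      Nat.card {x : Fin n → Bool // P k (List.ofFn x) = (τ i k n h x).1} :=
    Nat.card_le_card_of_injective (fun x => ⟨x.1, key x.1 x.2⟩) (by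
      rintro ⟨x, hx⟩ ⟨y, hy⟩ hxy
      simpa using hxy)
  exact_mod_cast hle

end Pool.Agent.Lib.MP_ff3ed7_lc.Prg3
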