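import Pool.Agent.Lib.MP_ff3ed7_lc.Prg3.Spec

/-!
Compactness (theorem AE, MP_ff3ed7_lc).
-/

set_option autoImplicit false

namespace Pool.Agent.Lib.MP_ff3ed7_lc.Prg3

open Finset
open Pool.Agent.Lib.MP_ff3ed7_lc.Prg (frac qf path gr cut)
open Pool.Agent.Lib.MP_ff3ed7_lc.Prg2

theorem tCpt : S_Cpt := by
  intro T _ _ G hG hR
  let τ : ∀ j, TopologicalSpace (T j) := fun _ => ⊥
  have hd : ∀ j, DiscreteTopology (T j) := fun _ => ⟨rfl⟩
  have hc : ∀ j, CompactSpace (T j) := fun _ => Finite.compactSpace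
  have hcl : ∀ r, IsClosed {X : (j : ℕ) → T j | G r X} := by
    intro r
    obtain ⟨B, hB⟩ := hG r
    rw [← isOpen_compl_iff, isOpen_iff_forall_mem_open]
    intro X hX
    refine ⟨⋂ j ∈ Finset.range B, {X' : (j : ℕ) → T j | X' j = X j}, ?_, ?_, ?_⟩
    · intro X' hX' hG'
      refine hX (hB X' X (fun j hj => ?_) hG')
      exact Set.mem_iInter₂.mp hX' j (Finset.mem_range.mpr hj)
    · refine isOpen_biInter_finset fun j _ => ?_
      exact (isOpen_discrete {X j}).preimage (continuous_apply j)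
    · exact Set.mem_iInter₂.mpr fun j _ => rfl
  have hclR : ∀ R : ℕ, IsClosed {X : (j : ℕ) → T j | ∀ r < R, G r X} := by
    intro R
    have h1 : {X : (j : ℕ) → T j | ∀ r < R, G r X} = ⋂ r, ⋂ (_ : r < R), {X | G r X} := by
      ext X
      simp only [Set.mem_ofPred_eq, Set.mem_iInter]
    rw [h1]
    exact isClosed_iInter fun r => isClosed_iInter fun _ => hcl r
  obtain ⟨X, hX⟩ := IsCompact.nonempty_iInter_of_sequence_nonempty_isCompact_isClosed
    (fun R : ℕ => {X : (j : ℕ) → T j | ∀ r < R, G r X})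
    (fun R X hX r hr => hX r (hr.trans (Nat.lt_succ_self R)))
    (fun R => hR R) (hclR 0).isCompact hclR
  exact ⟨X, fun r => Set.mem_iInter.mp hX (r + 1) r (Nat.lt_succ_self r)⟩

end Pool.Agent.Lib.MP_ff3ed7_lc.Prg3
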