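import Pool.Agent.Lib.MP_ff3ed7_lc.Prg3.Spec

/-!
MP_ff3ed7_lc, Prg3, module Ct: the number of patterns and certificates
-/

set_option autoImplicit false

namespace Pool.Agent.Lib.MP_ff3ed7_lc.Prg3

open Finset
open Pool.Agent.Lib.MP_ff3ed7_lc.Prg (frac qf path gr cut)
open Pool.Agent.Lib.MP_ff3ed7_lc.Prg2

private theorem Ct.card_ct (b : ℕ) : Fintype.card (Ct b) = 2 ^ (1 + 1152 * (b + 1) * b) := by
  have h1 : Fintype.card (Ct b) = 2 * (2 ^ b) ^ (1152 * (b + 1)) := by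
    simp only [Fintype.card_prod, Fintype.card_fun, Fintype.card_bool, Fintype.card_fin]
  rw [h1, ← pow_mul, pow_add, pow_one, mul_comm b]

private theorem Ct.sum_two (r : ℕ) : ∑ n : Fin r, 2 ^ (n : ℕ) + 1 = 2 ^ r := by
  rw [Fin.sum_univ_eq_sum_range (fun n => 2 ^ n) r]
  induction r with
  | zero => rfl
  | succ r ih =>
    rw [Finset.sum_range_succ, pow_succ]
    omega

private theorem Ct.card_ip (r : ℕ) :
    Fintype.card (IP r) ≤ 2 ^ ((r + 1) * 2 ^ (r + 1)) := by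
  have h1 : Fintype.card (IP r) = (2 ^ ∑ n : Fin (r + 1), 2 ^ (n : ℕ)) ^ (r + 1) := by
    simp only [Fintype.card_pi, Fintype.card_bool, Fintype.card_fin, Finset.prod_const,
      Finset.card_univ, Finset.prod_pow_eq_pow_sum]
  rw [h1, ← pow_mul, mul_comm]
  refine Nat.pow_le_pow_right (by norm_num) (Nat.mul_le_mul_left _ ?_)
  have := Ct.sum_two (r + 1)
  omega

private theorem Ct.card_it (X : Ctx) (r : ℕ) :
    Fintype.card (X.IT r) = ∏ q : ↥(X.act r),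
      (Fintype.card (Ct ((X.W q.1.1).t q.1.2.2)) ^ (2 ^ q.1.2.2)) ^
        (Prg.advs (q.1.2.2 ^ q.1.2.1 + q.1.2.1)).card := by
  have h1 : Fintype.card (X.IT r) = ∏ q : ↥(X.act r),
      Fintype.card (↥(Prg.advs (q.1.2.2 ^ q.1.2.1 + q.1.2.1)) → (Fin q.1.2.2 → Bool) →
        Ct ((X.W q.1.1).t q.1.2.2)) := Fintype.card_pi
  rw [h1]
  refine Finset.prod_congr rfl fun q _ => ?_
  simp only [Fintype.card_fun, Fintype.card_coe, Fintype.card_bool, Fintype.card_fin]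

private theorem Ct.card_act (X : Ctx) (r : ℕ) : (X.act r).card ≤ (r + 1) ^ 3 := by
  refine (Finset.card_filter_le _ _).trans ?_
  rw [Finset.card_product, Finset.card_product, Finset.card_range]
  exact le_of_eq (by ring)

theorem tCt (hNm : S_Nm) (hAdv : Prg.S_Adv) : S_Ct := by
  intro X r hr
  have hr64 : 64 ≤ r := X.hM₀.trans hr
  have h0 := (hNm r 0 0 hr64 (Nat.zero_le _) (by norm_num)).2
  obtain ⟨T, hT⟩ : ∃ T, T + (r + 1) * 2 ^ (r + 1) = 4 ^ r :=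
    ⟨4 ^ r - (r + 1) * 2 ^ (r + 1), Nat.sub_add_cancel (le_trans (Nat.le_add_left _ _) h0)⟩
  -- one test
  have h1 : ∀ q : ↥(X.act r), (Fintype.card (Ct ((X.W q.1.1).t q.1.2.2)) ^ (2 ^ q.1.2.2)) ^
        (Prg.advs (q.1.2.2 ^ q.1.2.1 + q.1.2.1)).card ≤
      2 ^ (2 ^ (r + 1) * (1 + 1152 * ((X.W q.1.1).t q.1.2.2 + 1) * (X.W q.1.1).t q.1.2.2)) ∧
      (r + 1) ^ 3 * (2 ^ (r + 1) *
        (1 + 1152 * ((X.W q.1.1).t q.1.2.2 + 1) * (X.W q.1.1).t q.1.2.2)) ≤ T := by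
    rintro ⟨⟨i, k, n⟩, hq⟩
    obtain ⟨hq1, hq2, hq3⟩ := Finset.mem_filter.1 hq
    dsimp only at hq2 hq3 ⊢
    have hrk : n ^ k + k + n ≤ r := hq2
    have ht := (X.ν_t i k n hq3).1
    obtain ⟨t, htt⟩ : ∃ t, t = (X.W i).t n := ⟨_, rfl⟩
    rw [← htt] at ht ⊢
    have h2 := (hNm r n t hr64 (by omega) ht).2
    constructor
    · rw [Ct.card_ct, ← pow_mul, ← pow_mul]
      refine Nat.pow_le_pow_right (by norm_num) ?_
      have h3 := (hAdv (n ^ k + k)).2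
      calc (1 + 1152 * (t + 1) * t) * (2 ^ n * (Prg.advs (n ^ k + k)).card)
          ≤ (1 + 1152 * (t + 1) * t) * (2 ^ n * 2 ^ (n ^ k + k + 1)) :=
            Nat.mul_le_mul_left _ (Nat.mul_le_mul_left _ h3.le)
        _ = 2 ^ (n ^ k + k + n + 1) * (1 + 1152 * (t + 1) * t) := by ring
        _ ≤ 2 ^ (r + 1) * (1 + 1152 * (t + 1) * t) :=
            Nat.mul_le_mul_right _ (Nat.pow_le_pow_right (by norm_num) (by omega))
    · omega
  -- all tests
  have h2 : Fintype.card (X.IT r) ≤ 2 ^ T := by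
    rw [Ct.card_it]
    refine (Finset.prod_le_prod' fun q _ => (h1 q).1).trans ?_
    rw [Finset.prod_pow_eq_pow_sum]
    refine Nat.pow_le_pow_right (by norm_num) ?_
    have h3 : (r + 1) ^ 3 * ∑ q : ↥(X.act r), 2 ^ (r + 1) *
        (1 + 1152 * ((X.W q.1.1).t q.1.2.2 + 1) * (X.W q.1.1).t q.1.2.2) ≤ (r + 1) ^ 3 * T := by
      rw [Finset.mul_sum]
      refine (Finset.sum_le_sum fun q _ => (h1 q).2).trans ?_
      rw [Finset.sum_const, smul_eq_mul, Finset.card_univ, Fintype.card_coe]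
      exact Nat.mul_le_mul_right _ (Ct.card_act X r)
    exact Nat.le_of_mul_le_mul_left h3 (by positivity)
  have h3 : Fintype.card (IP r × X.IT r) = Fintype.card (IP r) * Fintype.card (X.IT r) :=
    Fintype.card_prod (IP r) (X.IT r)
  have h4 : Fintype.card (IP r × X.IT r) ≤ 2 ^ (4 ^ r) := by
    rw [h3, ← hT, pow_add, mul_comm]
    exact Nat.mul_le_mul h2 (Ct.card_ip r)
  exact_mod_cast h4

end Pool.Agent.Lib.MP_ff3ed7_lc.Prg3
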