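import Pool.Agent.Lib.MP_ff3ed7_lc.Prg3.Spec

/-!
The oracles `J r` and `Jp r` differ only at wrong cells of the level `r` outside of `K r`.
-/

set_option autoImplicit false

namespace Pool.Agent.Lib.MP_ff3ed7_lc.Prg3

open Finset
open Pool.Agent.Lib.MP_ff3ed7_lc.Prg (frac qf path gr cut)
open Pool.Agent.Lib.MP_ff3ed7_lc.Prg2

/-- The definition of `full` at one string. -/
private theorem Dif_full (A : Orc) (M M' : ℕ) (ω : Smp) (z : Rep) (u : List Bool) :
    full A M M' ω z u = if M ≤ lev u ∧ lev u < M' then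
      put (lev u) A (ω (lev u)) (fun s c y => decide (z (lev u) s c = y)) u else A u := rfl

/-- Filling the level `r` does not change the strings of another level. -/
private theorem Dif_con (hRun : Prg2.S_Run) (X : Ctx) (P : ℕ → List Bool → Bool) (K : Exc)
    (ω : Smp) (z : Rep) (r : ℕ) (u : List Bool) (hr : X.M₀ ≤ r) (h : lev u ≠ r) :
    X.con P K ω z (r + 1) u = X.con P K ω z r u := by
  obtain ⟨r1, r2, _⟩ := hRun X.Y P ω z K
  have h1 := r2 X.M₀ (r - X.M₀) 1 X.A₀
  have h2 : r - X.M₀ + 1 = r + 1 - X.M₀ := by omega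
  rw [h2] at h1
  change run X.Y P ω z K X.M₀ (r + 1 - X.M₀) X.A₀ u = run X.Y P ω z K X.M₀ (r - X.M₀) X.A₀ u
  rw [h1]
  refine r1 _ _ _ u ?_
  omega

theorem tDif (hPut : Prg2.S_Put) (hRun : Prg2.S_Run) (hFul : S_Ful) : S_Dif := by
  intro X P K ω z r u hr hne
  have hM := X.hM₀
  have hrb : r < X.b r := (X.b_iff r r).2 (X.m_le r hr)
  have hne' : full (X.con P K ω z r) r (X.b r) ω z u ≠
      full (X.con P K ω z (r + 1)) (r + 1) (X.b r) ω z u := hne
  rcases lt_trichotomy (lev u) r with h | h | h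
  · exfalso
    apply hne'
    rw [Dif_full, Dif_full, if_neg (by omega), if_neg (by omega)]
    exact (Dif_con hRun X P K ω z r u hr (by omega)).symm
  · have e1 := (hRun X.Y P ω z K).2.2 X.M₀ (r + 1 - X.M₀) X.A₀ u (by omega) (by omega)
    rw [h] at e1
    rw [Dif_full, Dif_full, h, if_pos ⟨le_refl _, hrb⟩, if_neg (by omega)] at hne'
    change _ ≠ run X.Y P ω z K X.M₀ (r + 1 - X.M₀) X.A₀ u at hne'
    rw [e1] at hne'
    unfold step at hne'
    obtain ⟨_, _, _, _, _, _, p7⟩ := hPut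
    obtain ⟨s, c, y, hu, hB⟩ := p7 r _ _ _ _ _ u (by omega) h hne'
    have h1 : z r s c = y := by
      by_contra h1
      apply hB
      simp [h1]
    have h2 : ¬ s = truth X.Y P (run X.Y P ω z K X.M₀ (r - X.M₀) X.A₀) c.1.1 := by
      intro h2
      apply hB
      simp [← h2]
    have h3 : c ∉ K r := by
      intro h3
      apply hB
      simp [h3]
    refine ⟨c, h3, ?_⟩
    have h4 : s = !truth X.Y P (run X.Y P ω z K X.M₀ (r - X.M₀) X.A₀) c.1.1 :=
      (Bool.eq_or_eq_not _ _).resolve_left h2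
    change u = wstr X.Y P (run X.Y P ω z K X.M₀ (r - X.M₀) X.A₀) (z r) c
    unfold wstr
    rw [← h4, h1]
    exact hu
  · exfalso
    apply hne'
    by_cases hb : lev u < X.b r
    · exact hFul _ _ _ _ _ _ ω ω z z u (by omega) (by omega) hb (by omega) hb rfl rfl
    · rw [Dif_full, Dif_full, if_neg (by omega), if_neg (by omega)]
      exact (Dif_con hRun X P K ω z r u hr (by omega)).symm

end Pool.Agent.Lib.MP_ff3ed7_lc.Prg3
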