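import Pool.Agent.Lib.MP_ff3ed7_lc.Prg3.Spec

set_option autoImplicit false

namespace Pool.Agent.Lib.MP_ff3ed7_lc.Prg3

open Finset
open Pool.Agent.Lib.MP_ff3ed7_lc.Prg (frac qf path gr cut)
open Pool.Agent.Lib.MP_ff3ed7_lc.Prg2

namespace DpP

theorem truth_eq (Y : World) {P P' : ℕ → List Bool → Bool} {r : ℕ} (A : Orc)
    (h : ∀ k x, rk k x.length = r → P k x = P' k x) (c : Row r) :
    truth Y P A c.1.1 = truth Y P' A c.1.1 := by
  unfold truth
  rw [h _ _ c.1.2]

theorem step_eq (Y : World) {P P' : ℕ → List Bool → Bool} {r : ℕ} (A : Orc)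
    (h : ∀ k x, rk k x.length = r → P k x = P' k x) (ωr : Fin (16 * r ^ 6) → Fin r → Bool)
    (zr : Bool → Row r → Val r) (Kr : Finset (Row r)) :
    step Y P r A ωr zr Kr = step Y P' r A ωr zr Kr := by
  have hB : (fun (s : Bool) (c : Row r) (y : Val r) =>
      decide (zr s c = y) && (decide (s = truth Y P A c.1.1) || decide (c ∈ Kr))) =
      fun (s : Bool) (c : Row r) (y : Val r) =>
      decide (zr s c = y) && (decide (s = truth Y P' A c.1.1) || decide (c ∈ Kr)) := by
    funext s c y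
    rw [truth_eq Y A h c]
  show put r A ωr _ = put r A ωr _
  exact congrArg (put r A ωr) hB

theorem run_eq (Y : World) (P P' : ℕ → List Bool → Bool) (ω : Smp) (z : Rep) (K : Exc) :
    ∀ (j r : ℕ) (A : Orc),
    (∀ k x, r ≤ rk k x.length → rk k x.length < r + j → P k x = P' k x) →
    run Y P ω z K r j A = run Y P' ω z K r j A
  | 0, _, _, _ => rfl
  | j + 1, r, A, h => by
    show run Y P ω z K (r + 1) j (step Y P r A (ω r) (z r) (K r)) =
      run Y P' ω z K (r + 1) j (step Y P' r A (ω r) (z r) (K r))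
    rw [step_eq Y A (fun k x hk => h k x (by omega) (by omega)) (ω r) (z r) (K r)]
    exact run_eq Y P P' ω z K j (r + 1) _ fun k x h1 h2 => h k x (by omega) (by omega)

end DpP

theorem tDpP : S_DpP := by
  intro Y P P' r
  refine ⟨fun ω z K j A h => DpP.run_eq Y P P' ω z K j r A h, fun A ωr zr h => ⟨fun Kr =>
    DpP.step_eq Y A h ωr zr Kr, fun c => ?_⟩⟩
  unfold wstr
  rw [DpP.truth_eq Y A h c]

end Pool.Agent.Lib.MP_ff3ed7_lc.Prg3
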