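import Pool.Agent.Lib.MP_ff3ed7_lc.Prg3.Spec

/-!
MP_ff3ed7_lc, theorem AE, module FCi (helper23): choice of the pattern.
-/

set_option autoImplicit false

namespace Pool.Agent.Lib.MP_ff3ed7_lc.Prg3

open Finset
open Pool.Agent.Lib.MP_ff3ed7_lc.Prg (frac qf path gr cut)
open Pool.Agent.Lib.MP_ff3ed7_lc.Prg2

namespace FCi

/-- a numbering of the words -/
noncomputable def e (n : ℕ) : Fin (2 ^ n) ≃ (Fin n → Bool) :=
  (Fintype.equivFinOfCardEq (by simp)).symm

/-- the pattern which agrees with `o` where `ω` is true -/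
noncomputable def phi (n : ℕ) (o : (Fin n → Bool) → Bool) :
    (Fin (2 ^ n) → Bool) ≃ ((Fin n → Bool) → Bool) where
  toFun ω := fun x => (ω ((e n).symm x) == o x)
  invFun f := fun i => (f (e n i) == o (e n i))
  left_inv ω := by
    funext i
    simp only [Equiv.symm_apply_apply]
    cases ω i <;> cases o (e n i) <;> rfl
  right_inv f := by
    funext x
    simp only [Equiv.apply_symm_apply]
    cases f x <;> cases o x <;> rfl

theorem card_phi (n : ℕ) (o : (Fin n → Bool) → Bool) (ω : Fin (2 ^ n) → Bool) :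
    Nat.card {x // phi n o ω x = o x} = Nat.card {i // ω i = true} := by
  refine Nat.card_congr ((Equiv.subtypeEquiv (e n) ?_).symm)
  intro i
  simp only [phi, Equiv.coe_fn_mk, Equiv.symm_apply_apply]
  cases ω i <;> cases o (e n i) <;> simp

theorem frac_bool : frac (fun b : Bool => b = true) = 1 / 2 := by
  rw [Prg.frac_eq_sum]
  simp

theorem frac_fin (n : ℕ) (ω : Fin (2 ^ n) → Bool) :
    frac (fun i : Fin (2 ^ n) => ω i = true) = (Nat.card {i // ω i = true} : ℝ) / 2 ^ n := by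
  unfold frac
  simp

/-- one competitor -/
theorem one (hHoe : Prg.S_Hoe) (n : ℕ) (o : (Fin n → Bool) → Bool) (l : ℝ) (h0 : 0 ≤ l)
    (h1 : l ≤ 1) :
    frac (fun f : (Fin n → Bool) → Bool => (1 / 2 + l) * 2 ^ n < (Nat.card {x // f x = o x} : ℝ)) ≤
      2 * Real.exp (-(l ^ 2 * 2 ^ n / 4)) := by
  have h2 := hHoe Bool (fun b => b = true) (2 ^ n) l (by positivity) h0 h1
  rw [← Prg.frac_equiv (phi n o)]
  have hp : (0 : ℝ) < 2 ^ n := by positivity
  refine le_trans (Prg.frac_mono ?_) (by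
    have : ((2 ^ n : ℕ) : ℝ) = 2 ^ n := by push_cast; rfl
    rw [this] at h2
    exact h2)
  intro ω hω
  rw [card_phi] at hω
  rw [frac_bool, frac_fin]
  refine lt_of_lt_of_le ?_ (le_abs_self _)
  rw [lt_sub_iff_add_lt, lt_div_iff₀ hp]
  calc (l + 1 / 2) * 2 ^ n = (1 / 2 + l) * 2 ^ n := by ring
    _ < _ := hω

/-- the number of agreements is at most `2 ^ n` -/
theorem card_le (n : ℕ) (f o : (Fin n → Bool) → Bool) :
    (Nat.card {x // f x = o x} : ℝ) ≤ 2 ^ n := by
  have h := Nat.card_le_card_of_injective (Subtype.val : {x // f x = o x} → (Fin n → Bool))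
    Subtype.val_injective
  rw [Nat.card_eq_fintype_card (α := Fin n → Bool), Fintype.card_fun, Fintype.card_bool,
    Fintype.card_fin] at h
  exact_mod_cast h

end FCi

theorem tFCi (hHoe : Prg.S_Hoe) : S_FCi := by
  intro n s ι _ o hs h
  have hp : (0 : ℝ) < 2 ^ n := by positivity
  obtain ⟨l, hl⟩ : ∃ l : ℝ, l = 2 * Real.sqrt (s / 2 ^ n) := ⟨_, rfl⟩
  have hl0 : 0 ≤ l := by rw [hl]; positivity
  have hsq : l ^ 2 * 2 ^ n / 4 = s := by
    rw [hl, mul_pow, Real.sq_sqrt (by positivity)]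
    field_simp
    norm_num
    ring
  have hl2 : l * 2 ^ n = 2 * Real.sqrt (s * 2 ^ n) := by
    have h1 : s * 2 ^ n = s / 2 ^ n * (2 ^ n) ^ 2 := by
      field_simp
    rw [h1, Real.sqrt_mul (by positivity), Real.sqrt_sq hp.le, hl]
    ring
  have hb : (2 : ℝ) ^ n / 2 + 2 * Real.sqrt (s * 2 ^ n) = (1 / 2 + l) * 2 ^ n := by
    rw [← hl2]
    ring
  rw [hb]
  by_cases hl1 : l ≤ 1
  · have h3 : frac (fun f : (Fin n → Bool) → Bool => ∃ i : ι,
        (1 / 2 + l) * 2 ^ n < (Nat.card {x // f x = o i x} : ℝ)) < 1 := by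
      refine lt_of_le_of_lt (Prg.frac_exists_le _) (lt_of_le_of_lt ?_ h)
      refine le_trans (sum_le_sum fun i _ => FCi.one hHoe n (o i) _ hl0 hl1) ?_
      rw [sum_const, nsmul_eq_mul, card_univ, hsq]
    obtain ⟨f, hf⟩ := Prg.exists_not_of_frac_lt_one h3
    refine ⟨f, fun i => ?_⟩
    by_contra hc
    exact hf ⟨i, not_le.mp hc⟩
  · refine ⟨fun _ => false, fun i => (FCi.card_le n _ _).trans ?_⟩
    have h1 : 1 ≤ 1 / 2 + l := by linarith [not_le.mp hl1]
    calc (2 : ℝ) ^ n = 1 * 2 ^ n := (one_mul _).symm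
      _ ≤ _ := mul_le_mul_of_nonneg_right h1 hp.le

end Pool.Agent.Lib.MP_ff3ed7_lc.Prg3
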