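import Pool.Agent.Lib.MP_ff3ed7_lc.Prg3.Spec

/-!
The generator on the final oracle (`S_FnF`).
-/

set_option autoImplicit false

namespace Pool.Agent.Lib.MP_ff3ed7_lc.Prg3

open Finset
open Pool.Agent.Lib.MP_ff3ed7_lc.Prg (frac qf path gr cut)
open Pool.Agent.Lib.MP_ff3ed7_lc.Prg2

namespace FnF

/-- The threshold for the size `N` at the level `N` is at most `1 / N`. -/
private theorem thr_le (X : Ctx) (N : ℕ) (hN : 1 ≤ N) : X.thr N N ≤ 1 / (N : ℝ) := by
  have h1 : (0 : ℝ) < N := by exact_mod_cast hN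
  have h2 : ((N : ℝ) - X.m N) / (2 * (N : ℝ) ^ 2) ≤ (N : ℝ) / (2 * (N : ℝ) ^ 2) := by
    refine div_le_div_of_nonneg_right ?_ (by positivity)
    have : (0 : ℝ) ≤ (X.m N : ℝ) := Nat.cast_nonneg _
    linarith
  have h3 : (N : ℝ) / (2 * (N : ℝ) ^ 2) = 1 / (2 * N) := by
    field_simp
  have h4 : 1 / (2 * (N : ℝ)) + 1 / (2 * N) = 1 / N := by
    field_simp
    norm_num
  unfold Ctx.thr
  linarith

end FnF

theorem tFnF (hInv : S_Inv) (hAgr : S_Agr) (hBdL : Prg2.S_BdL) (hBdF : Prg2.S_BdF)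
    (hLoP : Prg2.S_LoP) : S_FnF := by
  intro X P τ K ω z A hF hA N hN
  by_cases hM : N < X.M₀
  · have h1 := X.hV.1 N hN hM
    have h2 : X.con P K ω z X.M₀ = X.A₀ := by
      unfold Ctx.con
      rw [Nat.sub_self]
      rfl
    have h3 := hA X.M₀ le_rfl
    rw [h2] at h3
    exact (hLoP X.ct X.Y X.M₀ X.A₀ A (by have := X.hM₀; omega) h3).2.1 N (by omega) hM h1
  · rw [not_lt] at hM
    have hm := X.m_le N hM
    obtain ⟨-, a2, -, a4⟩ := hAgr X P K ω z N hM
    refine (hBdF X.Y.g A N (by omega)).1 fun hb => ?_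
    have h1 : Agr N A (X.J P K ω z N) := fun u hu => by
      rw [a2 u hu]
      exact (hA N hM u hu).symm
    have h2 : ∀ i : Fin (16 * N ^ 6), gen A N i = gen (X.J P K ω z N) N i := fun i => by
      funext b
      have hr : X.M₀ ≤ max N (lev (samp N i b) + 1) := hM.trans (le_max_left _ _)
      have hl : lev (samp N i b) < max N (lev (samp N i b) + 1) :=
        lt_of_lt_of_le (Nat.lt_succ_self _) (le_max_right _ _)
      obtain ⟨-, c2, -, c4⟩ := hAgr X P K ω z _ hr
      calc A (samp N i b) = X.con P K ω z (max N (lev (samp N i b) + 1)) (samp N i b) :=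
            (hA _ hr _ hl).symm
        _ = X.J P K ω z (max N (lev (samp N i b) + 1)) (samp N i b) := (c2 _ hl).symm
        _ = ω N i b := congrFun (c4 N hM (hm.trans (le_max_left _ _)) i).1 b
        _ = X.J P K ω z N (samp N i b) := (congrFun (a4 N hM hm i).1 b).symm
    obtain ⟨C, hC⟩ := hBdL X.ct X.Y.g A (X.J P K ω z N) N _ (by omega) h1 h2 hb
    exact (hInv X P τ K ω z hF N hM).1 N hM hm
      ⟨C, lt_of_le_of_lt (FnF.thr_le X N (by omega)) hC⟩

end Pool.Agent.Lib.MP_ff3ed7_lc.Prg3
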