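import Pool.Agent.Lib.MP_ff3ed7_lc.Prg3.Spec

/-!
The machines are wrong on the final oracle.
-/

set_option autoImplicit false

namespace Pool.Agent.Lib.MP_ff3ed7_lc.Prg3

open Finset
open Pool.Agent.Lib.MP_ff3ed7_lc.Prg (frac qf path gr cut)
open Pool.Agent.Lib.MP_ff3ed7_lc.Prg2

theorem tFnM (hInv : S_Inv) (hAgr : S_Agr) (hHL : S_HL) (hOut : S_Out) : S_FnM := by
  intro X P τ K ω z A F hA i k n hν a ha x
  have hM : X.M₀ ≤ n := (X.ν_M i k n hν).1
  have h64 := X.hM₀
  have hrk : n ≤ rk k n := by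
    unfold rk
    omega
  have hr : X.M₀ ≤ rk k n + (X.W i).t n := by omega
  have h1 := (hInv X P τ K ω z F (rk k n + (X.W i).t n) hr).2 i k n (by omega) hν a ha x
  have hB : ((X.W i).run a (List.ofFn x)).Bounded ((X.W i).t n) := by
    have h2 := (X.W i).bounded a (List.ofFn x)
    rw [List.length_ofFn] at h2
    exact h2
  have hJ : Agr (rk k n + (X.W i).t n) (X.J P K ω z (rk k n + (X.W i).t n)) A := by
    intro u hu
    rw [(hAgr X P K ω z _ hr).2.1 u hu]
    exact hA _ hr u hu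
  have h3 := hHL _ _ _ _ _ _ _ _ hB (by omega) (by omega) hJ h1
  refine hOut _ _ _ _ _ h3 ?_
  push_cast
  linarith

end Pool.Agent.Lib.MP_ff3ed7_lc.Prg3
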