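import Pool.Agent.Lib.MP_ff3ed7_lc.Prg3.Spec

/-!
The tables of the final oracle.
-/

set_option autoImplicit false

namespace Pool.Agent.Lib.MP_ff3ed7_lc.Prg3

open Finset
open Pool.Agent.Lib.MP_ff3ed7_lc.Prg (frac qf path gr cut)
open Pool.Agent.Lib.MP_ff3ed7_lc.Prg2

namespace FnT

theorem con_self (X : Ctx) (P : ℕ → List Bool → Bool) (K : Exc) (ω : Smp) (z : Rep) :
    X.con P K ω z X.M₀ = X.A₀ := by
  unfold Ctx.con
  rw [Nat.sub_self]
  rfl

/-- The tables of level less than `M₀`. -/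
theorem low (hLoP : Prg2.S_LoP) (X : Ctx) (P : ℕ → List Bool → Bool) (K : Exc) (ω : Smp) (z : Rep)
    (A : Orc) (hA : ∀ r, X.M₀ ≤ r → Agr r (X.con P K ω z r) A) : Valid X.Y A X.M₀ := by
  have h64 := X.hM₀
  have h1 := hA X.M₀ le_rfl
  rw [con_self] at h1
  exact (hLoP X.ct X.Y X.M₀ X.A₀ A (by omega) h1).2.2.2.2 X.hV

/-- The tables of level at least `M₀`. -/
theorem high (hVld : Prg2.S_Vld) (hLoP : Prg2.S_LoP) (X : Ctx) (P : ℕ → List Bool → Bool)
    (K : Exc) (ω : Smp) (z : Rep) (A : Orc) (hK : ∀ r, X.M₀ ≤ r → (K r).card ≤ 4 ^ r)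
    (hA : ∀ r, X.M₀ ≤ r → Agr r (X.con P K ω z r) A) (k : ℕ) (x : List Bool)
    (h : X.M₀ ≤ rk k x.length) :
    Inst A true k x (X.Y.F k x A) ∧ Inst A false k x (P k x) := by
  have h64 := X.hM₀
  have h1 : Agr (rk k x.length + 1)
      (run X.Y P ω z K X.M₀ (rk k x.length + 1 - X.M₀) X.A₀) A := hA _ (by omega)
  have h2 := (hVld X.ct X.Y P ω z K X.M₀ (rk k x.length + 1) X.A₀ (by omega) (by omega)
    (fun r hr _ => hK r hr)).2
  obtain ⟨-, -, l3, l4, -⟩ := hLoP X.ct X.Y (rk k x.length + 1) _ _ (by omega) h1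
  have h3 := l3 true k x _ (by omega) (h2 true k x h (by omega))
  have h4 := l3 false k x _ (by omega) (h2 false k x h (by omega))
  have h5 : X.Y.F k x (run X.Y P ω z K X.M₀ (rk k x.length + 1 - X.M₀) X.A₀) = X.Y.F k x A :=
    l4 k x (by omega)
  constructor
  · rw [← h5]
    exact h3
  · exact h4

end FnT

theorem tFnT (hVld : Prg2.S_Vld) (hLoP : Prg2.S_LoP) : S_FnT := by
  intro X P K ω z A hK hA
  have hl := FnT.low hLoP X P K ω z A hA
  refine ⟨fun k x => ?_, fun k x => ?_, fun k x h => ?_⟩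
  · rcases lt_or_ge (rk k x.length) X.M₀ with h | h
    · exact (hl.2 k x h).1
    · exact (FnT.high hVld hLoP X P K ω z A hK hA k x h).1
  · rcases lt_or_ge (rk k x.length) X.M₀ with h | h
    · exact (hl.2 k x h).2
    · exact ⟨_, (FnT.high hVld hLoP X P K ω z A hK hA k x h).2⟩
  · exact (FnT.high hVld hLoP X P K ω z A hK hA k x h).2

end Pool.Agent.Lib.MP_ff3ed7_lc.Prg3
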