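import Pool.Agent.Lib.MP_ff3ed7_lc.Prg3.Spec
import Pool.Agent.Lib.MP_ff3ed7_lc.Prg2.Vam

/-! The final theorem from `S_Lim`. -/

set_option autoImplicit false

namespace Pool.Agent.Lib.MP_ff3ed7_lc.Prg3

open Pool.Agent.Lib.MP_ff3ed7_lc.Prg2

/-- The main theorem. -/
theorem world (hLim : S_Lim) (g : ℕ → ℕ) (hg : ∀ N, g N ≤ N)
    (F : ℕ → List Bool → (List Bool → Bool) → Bool)
    (hF : ∀ i x A A', (∀ u : List Bool, u.length ≤ x.length ^ i + i → A u = A' u) →
      F i x A = F i x A')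
    (W : ℕ → Machine)
    (hW : ∀ i, ∃ n₀, ∀ n ≥ n₀, (W i).t n ^ 16 ≤ 2 ^ n ∧ ∀ N ≤ (W i).t n + n, 16 * g N ≤ n) :
    ∃ A : List Bool → Bool,
      (∀ N ≥ 6, FoolsAt g A N) ∧
      (∀ i, (∀ x, Inst A true i x (F i x A)) ∧
        (VAM true true i).AcceptsAM A {x | F i x A = true} ∧
        (VAM true false i).AcceptsAM A {x | F i x A = true}ᶜ) ∧
      ∀ k, ∃ L : Set (List Bool),
        (∀ x, (x ∈ L → Inst A false k x true) ∧ (x ∉ L → Inst A false k x false)) ∧
        (VAM false true k).AcceptsAM A L ∧ (VAM false false k).AcceptsAM A Lᶜ ∧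
        ∀ i, ∃ n₀, ∀ n ≥ n₀, ∀ h : List Bool, h.length ≤ n ^ k + k →
          (Nat.card {x : Fin n → Bool // (W i).Right h A L (List.ofFn x)} : ℝ) ≤
            2 ^ n / 2 + 2 * Real.sqrt (((n : ℝ) ^ k + k + n + 2) * 2 ^ n) := by
  obtain ⟨A, h1, h2, h3, h4⟩ := hLim ⟨g, hg, F, hF⟩ W hW
  refine ⟨A, h1, fun i => ⟨fun x => h2 i x, ?_⟩, fun k => ⟨{x | Inst A false k x true}, ?_, ?_⟩⟩
  · refine acceptsAM fun x => ⟨fun hx => ?_, fun hx => ?_⟩
    · have h5 : Inst A true i x (F i x A) := h2 i x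
      rwa [show F i x A = true from hx] at h5
    · have h5 : Inst A true i x (F i x A) := h2 i x
      rwa [show F i x A = false by simpa using hx] at h5
  · intro x
    refine ⟨fun h => h, fun h => ?_⟩
    obtain ⟨b, hb⟩ := h3 k x
    cases b
    · exact hb
    · exact absurd hb h
  · have hL : ∀ x, (x ∈ {x | Inst A false k x true} → Inst A false k x true) ∧
        (x ∉ {x | Inst A false k x true} → Inst A false k x false) := by
      intro x
      refine ⟨fun h => h, fun h => ?_⟩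
      obtain ⟨b, hb⟩ := h3 k x
      cases b
      · exact hb
      · exact absurd hb h
    refine ⟨(acceptsAM hL).1, (acceptsAM hL).2, fun i => ?_⟩
    obtain ⟨n₀, hn⟩ := h4 i k
    refine ⟨n₀, fun n hnn h hh => ?_⟩
    have h5 := hn n hnn h hh
    have h7 : avg k n = 2 ^ n / 2 + 2 * Real.sqrt (((n : ℝ) ^ k + k + n + 2) * 2 ^ n) := by
      unfold avg rk
      push_cast
      rfl
    rw [h7] at h5
    refine le_trans ?_ h5
    have hsub : ∀ x : Fin n → Bool, (W i).Right h A {x | Inst A false k x true} (List.ofFn x) →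
        ∃ b, Inst A false k (List.ofFn x) b ∧ ((W i).run h (List.ofFn x)).Decides A b := by
      intro x hx
      rcases hx with ⟨hx1, hx2⟩ | ⟨hx1, hx2⟩
      · exact ⟨true, hx1, hx2⟩
      · exact ⟨false, (hL _).2 hx1, hx2⟩
    have h6 : Nat.card {x : Fin n → Bool //
          (W i).Right h A {x | Inst A false k x true} (List.ofFn x)} ≤
        Nat.card {x : Fin n → Bool // ∃ b, Inst A false k (List.ofFn x) b ∧
          ((W i).run h (List.ofFn x)).Decides A b} :=
      Nat.card_le_card_of_injective (fun x => ⟨x.1, hsub x.1 x.2⟩)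
        fun x y hxy => Subtype.ext (congrArg (fun w => w.1) hxy)
    exact_mod_cast h6

end Pool.Agent.Lib.MP_ff3ed7_lc.Prg3
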