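import Pool.Agent.Lib.MP_ff3ed7_lc.Prg3.Spec

/-!
The oracle `full` at one string.
-/

set_option autoImplicit false

namespace Pool.Agent.Lib.MP_ff3ed7_lc.Prg3

open Finset
open Pool.Agent.Lib.MP_ff3ed7_lc.Prg (frac qf path gr cut)
open Pool.Agent.Lib.MP_ff3ed7_lc.Prg2

theorem tFul (hPut : Prg2.S_Put) : S_Ful := by
  intro A A' M M₁ M' M₁' ω ω' z z' u h1 hM hM₁ hM' hM₁' hω hz
  obtain ⟨_, _, _, _, _, _, p7⟩ := hPut
  have e1 : full A M M₁ ω z u =
      put (lev u) A (ω (lev u)) (fun s c y => decide (z (lev u) s c = y)) u := by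
    unfold full
    rw [if_pos ⟨hM, hM₁⟩]
  have e2 : full A' M' M₁' ω' z' u =
      put (lev u) A' (ω (lev u)) (fun s c y => decide (z (lev u) s c = y)) u := by
    unfold full
    rw [if_pos ⟨hM', hM₁'⟩, hω, hz]
  rw [e1, e2]
  by_contra hne
  obtain ⟨s, c, y, _, h⟩ := p7 (lev u) A A' (ω (lev u)) _ _ u h1 rfl hne
  exact h rfl

end Pool.Agent.Lib.MP_ff3ed7_lc.Prg3
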