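import Pool.Agent.Lib.MP_ff3ed7_lc.Prg3.Spec

/-!
MP_ff3ed7_lc, theorem AE, module GLc: the conditions on the samples and replies at one level
depend only on the levels below the end of its window.
-/

set_option autoImplicit false

namespace Pool.Agent.Lib.MP_ff3ed7_lc.Prg3

open Finset
open Pool.Agent.Lib.MP_ff3ed7_lc.Prg (frac qf path gr cut)
open Pool.Agent.Lib.MP_ff3ed7_lc.Prg2

/-- The ends of the windows increase with the level. -/
theorem GLc.b_mono (X : Ctx) {s r : ℕ} (h : s ≤ r) : X.b s ≤ X.b r := by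
  by_contra hc
  have h1 := (X.b_iff s (X.b r)).mp (not_le.mp hc)
  exact absurd ((X.b_iff r (X.b r)).mpr (h1.trans h)) (lt_irrefl _)

theorem tGLc (hLcA : S_LcA) (hCau : S_Cau) : S_GLc := by
  intro X r
  refine ⟨X.b r, fun ω ω' z z' hag hG hr => ?_⟩
  obtain ⟨h1, h2⟩ := hG hr
  refine ⟨fun hE => h1 (((hLcA X ω ω' z z' (X.b r) hag r hr).2 le_rfl).2.1.mpr hE),
    fun hB => h2 ?_⟩
  rw [(hCau X ω ω' z z' (X.b r) hag (X.m r)).2 (X.m_ge r)
    (fun s _ hs => GLc.b_mono X (hs.trans (X.m_le r hr)))]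
  exact hB

end Pool.Agent.Lib.MP_ff3ed7_lc.Prg3
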