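import Pool.Agent.Lib.MP_ff3ed7_lc.Prg3.Spec

/-!
Good samples and replies exist (`S_Gd`).
-/

set_option autoImplicit false

namespace Pool.Agent.Lib.MP_ff3ed7_lc.Prg3

open Finset
open Pool.Agent.Lib.MP_ff3ed7_lc.Prg (frac qf path gr cut)
open Pool.Agent.Lib.MP_ff3ed7_lc.Prg2

namespace Gd

/-- Samples and replies of one level. -/
abbrev T (j : ℕ) : Type := (Fin (16 * j ^ 6) → Fin j → Bool) × (Bool → Row j → Val j)

theorem fin (j : ℕ) : Finite (T j) := by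
  have h1 : Finite (Bool → Row j → Val j) := Finite.of_fintype _
  infer_instance

theorem ne (j : ℕ) : Nonempty (T j) := ⟨(fun _ _ => false, fun _ _ _ => false)⟩

end Gd

theorem tGd (hHor : S_Hor) (hCpt : S_Cpt) (hGLc : S_GLc) : S_Gd := by
  intro X
  have h1 : ∀ j, Finite (Gd.T j) := Gd.fin
  have h2 : ∀ j, Nonempty (Gd.T j) := Gd.ne
  obtain ⟨F, hF⟩ := hCpt Gd.T (fun r F => X.G (fun j => (F j).1) (fun j => (F j).2) r) (by
    intro r
    obtain ⟨N, hN⟩ := hGLc X r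
    refine ⟨N, fun F F' h hG => hN _ _ _ _ (fun j hj => ?_) hG⟩
    rw [h j hj]
    exact ⟨rfl, rfl⟩) (by
    intro R
    obtain ⟨ω, z, h⟩ := hHor X R
    exact ⟨fun j => (ω j, z j), h⟩)
  exact ⟨fun j => (F j).1, fun j => (F j).2, hF⟩

end Pool.Agent.Lib.MP_ff3ed7_lc.Prg3
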