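import Pool.Agent.Lib.MP_ff3ed7_lc.Prg3.Spec

/-!
`HoldsE` is local (`S_HL`).
-/

set_option autoImplicit false

namespace Pool.Agent.Lib.MP_ff3ed7_lc.Prg3

open Finset
open Pool.Agent.Lib.MP_ff3ed7_lc.Prg (frac qf path gr cut)
open Pool.Agent.Lib.MP_ff3ed7_lc.Prg2

theorem tHL (hStr : Prg2.S_Str) : S_HL := by
  intro V b t B O O' c e hV htB hB hA hH
  have hpr : ∀ y z, V.pr O y z = V.pr O' y z := by
    intro y z
    unfold S2.pr
    congr 1
    funext ρ
    rw [Prg.eval_congr O O' (V.T y z ρ) fun u hu => hA u (hStr.2.2.2.2 u B hB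
      ((Prg.path_allQ O (V.T y z ρ) (fun s => s.length ≤ t) (hV.2.2 y z ρ).2 u hu).trans htB))]
  refine ⟨fun h z => ?_, fun h y => ?_⟩
  · have h1 := hH.1 h z
    simp only [hpr] at h1
    exact h1
  · have h1 := hH.2 h y
    simp only [hpr] at h1
    exact h1

end Pool.Agent.Lib.MP_ff3ed7_lc.Prg3
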