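import Pool.Agent.Lib.MP_ff3ed7_lc.Prg3.Spec

/-!
MP_ff3ed7_lc, theorem AE: hybrid step for circuits (`S_Hc`).
-/

set_option autoImplicit false

namespace Pool.Agent.Lib.MP_ff3ed7_lc.Prg3

open Finset
open Pool.Agent.Lib.MP_ff3ed7_lc.Prg (frac qf path gr cut)
open Pool.Agent.Lib.MP_ff3ed7_lc.Prg2

namespace Hc

/-- The advantage of a circuit on two oracles which agree off `D`. -/
theorem adv_le (ct : CT) {A A' : List Bool → Bool} {D : Finset (List Bool)}
    (h : ∀ u, u ∉ D → A u = A' u) (N G : ℕ) (C : Circ N G × (Fin G → Bool))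
    (hg : ∀ i : Fin (16 * N ^ 6), gen A N i = gen A' N i) :
    |frac (fun ρ : Fin N → Bool => evalQ A C.1 C.2 ρ = true) -
        frac (fun i : Fin (16 * N ^ 6) => evalQ A C.1 C.2 (gen A N i) = true)| ≤
      |frac (fun ρ : Fin N → Bool => evalQ A' C.1 C.2 ρ = true) -
        frac (fun i : Fin (16 * N ^ 6) => evalQ A' C.1 C.2 (gen A' N i) = true)| +
      (∑ u ∈ D, qf A (fun i : Fin (16 * N ^ 6) => ct.T N G C.1 C.2 (gen A N i)) u +
        ∑ u ∈ D, qf A (fun ρ : Fin N → Bool => ct.T N G C.1 C.2 ρ) u) := by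
  have h1 := Prg.abs_frac_sub_le A A'
    (fun i : Fin (16 * N ^ 6) => ct.T N G C.1 C.2 (gen A N i)) D h
  have h2 := Prg.abs_frac_sub_le A A' (fun ρ : Fin N → Bool => ct.T N G C.1 C.2 ρ) D h
  simp only [ct.eval] at h1 h2
  have h0 : (fun i : Fin (16 * N ^ 6) => evalQ A' C.1 C.2 (gen A' N i) = true) =
      fun i : Fin (16 * N ^ 6) => evalQ A' C.1 C.2 (gen A N i) = true := by
    funext i
    rw [hg i]
  rw [h0]
  obtain ⟨h3, h4⟩ := abs_le.1 h1
  obtain ⟨h5, h6⟩ := abs_le.1 h2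
  refine abs_le.2 ⟨?_, ?_⟩
  · linarith [neg_abs_le (frac (fun ρ : Fin N → Bool => evalQ A' C.1 C.2 ρ = true) -
        frac (fun i : Fin (16 * N ^ 6) => evalQ A' C.1 C.2 (gen A N i) = true))]
  · linarith [le_abs_self (frac (fun ρ : Fin N → Bool => evalQ A' C.1 C.2 ρ = true) -
        frac (fun i : Fin (16 * N ^ 6) => evalQ A' C.1 C.2 (gen A N i) = true))]

end Hc

open Hc in
/-- Hybrid step for circuits. -/
theorem tHc : S_Hc := by
  intro ct N G C O O' D l hN1 hgen hOO hsum hadv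
  have hN : (0 : ℝ) < N := by exact_mod_cast hN1
  have h3 := adv_le ct hOO N G C fun i => (hgen i).symm
  simp only [wC, ← mul_sum, sum_add_distrib] at hsum
  have h4 : ∑ u ∈ D, qf O' (fun i : Fin (16 * N ^ 6) => ct.T N G C.1 C.2 (gen O' N i)) u +
      ∑ u ∈ D, qf O' (fun ρ : Fin N → Bool => ct.T N G C.1 C.2 ρ) u ≤ 1 / (2 * (N : ℝ) ^ 2) := by
    rw [le_div_iff₀ (by positivity)]
    linarith
  linarith

end Pool.Agent.Lib.MP_ff3ed7_lc.Prg3
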