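import Pool.Agent.Lib.MP_ff3ed7_lc.Prg3.Spec

/-!
Random samples are good for the reference oracles (`S_Hof`).
-/

set_option autoImplicit false

namespace Pool.Agent.Lib.MP_ff3ed7_lc.Prg3

open Finset
open Pool.Agent.Lib.MP_ff3ed7_lc.Prg (frac qf path gr cut)
open Pool.Agent.Lib.MP_ff3ed7_lc.Prg2

namespace Hof

/-- The output of a circuit of size `N` depends only on the strings of level less than `N`. -/
theorem eval_local (ct : CT) (hStr : Prg2.S_Str) {N G : ℕ} (A A' : Orc)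
    (h : ∀ u, lev u < N → A u = A' u) (C : Circ N G) (Q : Fin G → Bool) (ρ : Fin N → Bool) :
    evalQ A C Q ρ = evalQ A' C Q ρ := by
  rw [← ct.eval, ← ct.eval]
  refine (Prg.eval_congr A A' _ fun u hu => ?_).symm
  rcases Nat.eq_zero_or_pos N with h0 | h0
  · have h1 : (path A (ct.T N G C Q ρ)).length ≤ 0 := by
      refine (Prg.length_path_le A _ _ (ct.depth N G C Q ρ)).trans ?_
      simp [h0]
    have h2 := List.length_pos_of_mem hu
    omega
  · exact h u (hStr.2.2.2.2 u N h0 (Prg.path_allQ A _ _ (ct.allQ N G C Q ρ) u hu))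

/-- `run` uses only the samples of its levels. -/
theorem run_congr (Y : World) (P : ℕ → List Bool → Bool) (ω ω' : Smp) (z : Rep) (K : Exc)
    (r j : ℕ) (A : Orc) (h : ∀ i, r ≤ i → i < r + j → ω i = ω' i) :
    run Y P ω z K r j A = run Y P ω' z K r j A := by
  induction j generalizing r A with
  | zero => rfl
  | succ j ih =>
    have h1 := ih (r + 1) (step Y P r A (ω r) (z r) (K r))
      fun i hi hi' => h i (by omega) (by omega)
    show run Y P ω z K (r + 1) j (step Y P r A (ω r) (z r) (K r)) =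
      run Y P ω' z K (r + 1) j (step Y P r A (ω' r) (z r) (K r))
    rw [h1, h r le_rfl (by omega)]

/-- The reference oracle at the base level of `N` depends on the levels less than `N` only on the
samples of the levels less than `N`. -/
theorem JD_congr (X : Ctx) (hCau : S_Cau) (ω ω' : Smp) (z : Rep) (N : ℕ) (hN : X.M₀ ≤ N)
    (h : ∀ j < N, ω j = ω' j) (u : List Bool) (hu : lev u < N) :
    X.JD ω z (X.m N) u = X.JD ω' z (X.m N) u := by
  have hm : X.m N ≤ N := X.m_le N hN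
  have hM : X.M₀ ≤ X.m N := X.m_ge N
  have hD : X.D ω z (X.m N) = X.D ω' z (X.m N) := by
    refine (hCau X ω ω' z z N (fun j hj => ⟨h j hj, rfl⟩) (X.m N)).1 ?_
    intro s _ hs
    by_contra hc
    have h1 := (X.b_iff s N).mp (not_le.mp hc)
    omega
  unfold Ctx.JD Ctx.J
  rw [hD]
  have hcon : X.con (X.D ω' z (X.m N)).P (X.D ω' z (X.m N)).K ω z (X.m N) =
      X.con (X.D ω' z (X.m N)).P (X.D ω' z (X.m N)).K ω' z (X.m N) := by
    unfold Ctx.con
    refine run_congr _ _ _ _ _ _ _ _ _ fun i hi hi' => h i ?_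
    omega
  rw [hcon]
  unfold full
  split_ifs
  · rw [h (lev u) hu]
  · rfl

/-- The samples of size `N` of the reference oracle at the base level of `N`. -/
theorem gen_JD (X : Ctx) (hPut : Prg2.S_Put) (ω : Smp) (z : Rep) (N : ℕ) (hN : X.M₀ ≤ N)
    (i : Fin (16 * N ^ 6)) : gen (X.JD ω z (X.m N)) N i = ω N i := by
  obtain ⟨hl, -, -, -, hp, -, -⟩ := hPut
  have hm : X.m N ≤ N := X.m_le N hN
  have hb : N < X.b (X.m N) := (X.b_iff (X.m N) N).mpr le_rfl
  funext b
  obtain ⟨A, hA⟩ : ∃ A, A = X.con (X.D ω z (X.m N)).P (X.D ω z (X.m N)).K ω z (X.m N) := ⟨_, rfl⟩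
  have h3 : X.JD ω z (X.m N) (samp N i b) =
      if X.m N ≤ lev (samp N i b) ∧ lev (samp N i b) < X.b (X.m N) then
        put (lev (samp N i b)) A (ω (lev (samp N i b)))
          (fun s c y => decide (z (lev (samp N i b)) s c = y)) (samp N i b)
      else A (samp N i b) := by
    rw [hA]
    rfl
  rw [hl, if_pos ⟨hm, hb⟩] at h3
  exact h3.trans (hp N _ _ _ i b)

end Hof

theorem tHof (hTri : Prg.S_Tri) (hCirN : Prg2.S_CirN) (hStr : Prg2.S_Str) (hPut : Prg2.S_Put)
    (hCau : S_Cau) (_hFul : S_Ful) : S_Hof := by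
  intro X R z
  have hM6 : 6 ≤ X.M₀ := le_trans (by norm_num) X.hM₀
  have key := hTri R X.M₀ (fun N => Circ N (X.Y.g N) × (Fin (X.Y.g N) → Bool))
    (fun ω N C ρ => X.M₀ ≤ (N : ℕ) ∧ evalQ (X.JD (exS ω) z (X.m N)) C.1 C.2 ρ = true) hM6
    (fun N hN => hCirN N hN (X.Y.g N) (X.Y.hg N))
    (fun ω ω' N C ρ hω => by
      refine and_congr_right fun hN => ?_
      have h1 := Hof.eval_local X.ct hStr (X.JD (exS ω) z (X.m N)) (X.JD (exS ω') z (X.m N))
        (Hof.JD_congr X hCau (exS ω) (exS ω') z N hN fun j hj => by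
          unfold exS
          have hjR : j < R := hj.trans N.2
          rw [dif_pos hjR, dif_pos hjR]
          exact hω ⟨j, hjR⟩ hj) C.1 C.2 ρ
      rw [h1])
  have hle : (1 / 2 : ℝ) ^ (X.M₀ ^ 3) / 8 ≤ 1 / 8 := by
    have : (1 / 2 : ℝ) ^ (X.M₀ ^ 3) ≤ 1 := pow_le_one₀ (by norm_num) (by norm_num)
    linarith
  refine le_trans (Prg.frac_mono ?_) (le_trans key hle)
  rintro ω ⟨N, haN, hNM, C, hC⟩
  refine ⟨⟨N, hNM⟩, haN, C, ?_⟩
  rw [abs_sub_comm]
  have h2 : ∀ i : Fin (16 * N ^ 6), gen (X.JD (exS ω) z (X.m N)) N i = ω ⟨N, hNM⟩ i := fun i => by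
    rw [Hof.gen_JD X hPut (exS ω) z N haN i]
    unfold exS
    rw [dif_pos hNM]
  simp only [h2] at hC
  simp only [haN, true_and]
  exact hC

end Pool.Agent.Lib.MP_ff3ed7_lc.Prg3
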