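import Pool.Agent.Lib.MP_ff3ed7_lc.Prg3.Spec

/-! Finite horizon (helper59). -/

set_option autoImplicit false

namespace Pool.Agent.Lib.MP_ff3ed7_lc.Prg3

open Finset
open Pool.Agent.Lib.MP_ff3ed7_lc.Prg (frac qf path gr cut)
open Pool.Agent.Lib.MP_ff3ed7_lc.Prg2

private theorem Hor_pair {Ω Ω' : Type} [Fintype Ω] [Fintype Ω'] [Nonempty Ω] [Nonempty Ω']
    (E E' : Ω → Ω' → Prop) (h1 : ∀ z, frac (fun ω => E ω z) ≤ 1 / 8)
    (h2 : ∀ ω, frac (fun z => E' ω z) ≤ 1 / 4) : ∃ ω z, ¬ E ω z ∧ ¬ E' ω z := by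
  have h3 : frac (fun p : Ω × Ω' => E' p.1 p.2) ≤ 1 / 4 := Prg.frac_prod_le (by norm_num) h2
  have h4 : frac (fun p : Ω' × Ω => E p.2 p.1) ≤ 1 / 8 :=
    Prg.frac_prod_le (E := fun z ω => E ω z) (by norm_num) h1
  have h5 : frac (fun p : Ω × Ω' => E p.1 p.2) ≤ 1 / 8 := by
    have h6 := Prg.frac_equiv (Equiv.prodComm Ω Ω') (fun p : Ω' × Ω => E p.2 p.1)
    rw [← h6] at h4
    exact h4
  obtain ⟨⟨ω, z⟩, h⟩ := Prg.exists_not_of_frac_lt_one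
    (E := fun p : Ω × Ω' => E p.1 p.2 ∨ E' p.1 p.2)
    (lt_of_le_of_lt (Prg.frac_or_le _ _) (by linarith))
  rw [not_or] at h
  exact ⟨ω, z, h⟩

private theorem Hor_sum (R : ℕ) : ∑ r : Fin R, (1 / 2 : ℝ) ^ (2 * (r : ℕ) + 3) ≤ 1 / 4 := by
  rw [Fin.sum_univ_eq_sum_range (fun r => (1 / 2 : ℝ) ^ (2 * r + 3)) R]
  have h : ∑ r ∈ range R, (1 / 2 : ℝ) ^ (2 * r + 3) ≤ 1 / 4 - (1 / 4) * (1 / 4) ^ R := by
    induction R with
    | zero => simp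
    | succ R ih =>
      rw [sum_range_succ]
      have h1 : (1 / 2 : ℝ) ^ (2 * R + 3) = 1 / 8 * (1 / 4) ^ R := by
        rw [pow_add, pow_mul]
        norm_num
        ring
      have h2 : (0 : ℝ) < (1 / 4) ^ R := by positivity
      rw [h1, pow_succ]
      nlinarith
  have h3 : (0 : ℝ) < (1 / 4) ^ R := by positivity
  linarith

theorem tHor (hLvE : S_LvE) (hHof : S_Hof) : S_Hor := by
  intro X R
  classical
  have hB : ∀ ω : (N : Fin R) → Fin (16 * (N : ℕ) ^ 6) → Fin N → Bool,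
      frac (fun z : (j : Fin R) → Bool → Row j → Val j =>
        ∃ r : Fin R, X.M₀ ≤ r ∧ X.E (exS ω) (exR z) r) ≤ 1 / 4 := by
    intro ω
    refine (Prg.frac_exists_le (fun (r : Fin R) (z : (j : Fin R) → Bool → Row j → Val j) =>
      X.M₀ ≤ r ∧ X.E (exS ω) (exR z) r)).trans
      ((sum_le_sum fun r _ => ?_).trans (Hor_sum R))
    by_cases hr : X.M₀ ≤ r
    · exact (Prg.frac_mono fun z hz => hz.2).trans (hLvE X (exS ω) r R hr r.2)
    · have h1 : frac (fun z : (j : Fin R) → Bool → Row j → Val j =>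
          X.M₀ ≤ r ∧ X.E (exS ω) (exR z) r) = 0 := by
        rw [Prg.frac_eq_sum]
        rw [sum_eq_zero fun z _ => if_neg fun h => hr h.1, zero_div]
      rw [h1]
      positivity
  have hA : ∀ z : (j : Fin R) → Bool → Row j → Val j,
      frac (fun ω : (N : Fin R) → Fin (16 * (N : ℕ) ^ 6) → Fin N → Bool =>
        ∃ N, X.M₀ ≤ N ∧ N < R ∧
          Bad X.Y.g (X.JD (exS ω) (exR z) (X.m N)) N (1 / (2 * N))) ≤ 1 / 8 := fun z =>
    hHof X R (exR z)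
  obtain ⟨ω, z, h1, h2⟩ := Hor_pair _ _ hA hB
  refine ⟨exS ω, exR z, fun r hr hM => ⟨fun h3 => h2 ⟨⟨r, hr⟩, hM, h3⟩, fun h3 => ?_⟩⟩
  exact h1 ⟨r, hM, hr, h3⟩

end Pool.Agent.Lib.MP_ff3ed7_lc.Prg3
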