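import Pool.Agent.Lib.MP_ff3ed7_lc.Prg3.Spec

set_option autoImplicit false

namespace Pool.Agent.Lib.MP_ff3ed7_lc.Prg3

open Finset
open Pool.Agent.Lib.MP_ff3ed7_lc.Prg (frac qf path gr cut)
open Pool.Agent.Lib.MP_ff3ed7_lc.Prg2

namespace Inv

private theorem sum_image_le' {α β : Type} [DecidableEq β] (s : Finset α) (g : α → β) (f : β → ℝ)
    (hf : ∀ b, 0 ≤ f b) : ∑ b ∈ s.image g, f b ≤ ∑ a ∈ s, f (g a) := by
  classical
  induction s using Finset.induction_on with
  | empty => simp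
  | insert a s ha ih =>
    rw [image_insert, sum_insert ha]
    by_cases h : g a ∈ s.image g
    · rw [insert_eq_of_mem h]
      have := hf (g a)
      linarith
    · rw [sum_insert h]
      linarith

private theorem wV_nonneg {b : ℕ} (V : S2) (A : Orc) (c : Ct b) (u : List Bool) :
    0 ≤ wV V A c u := by
  unfold wV
  apply mul_nonneg (by norm_num)
  apply sum_nonneg
  intro i _
  split_ifs <;> exact Prg.qf_nonneg _ _ _

private theorem holdsE_zero {b : ℕ} {V : S2} {A : Orc} {c : Ct b} (h : Holds V A c) {e : ℝ}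
    (he : e = 0) : HoldsE V A c e := by
  subst he
  refine ⟨fun h1 z => ?_, fun h1 y => ?_⟩
  · have := h.1 h1 z
    linarith
  · have := h.2 h1 y
    linarith

private theorem b_mono (X : Ctx) {r r' : ℕ} (h : r ≤ r') : X.b r ≤ X.b r' := by
  by_contra hc
  rw [not_le] at hc
  have h1 := (X.b_iff r (X.b r')).1 hc
  have h2 := (X.b_iff r' (X.b r')).2 (h1.trans h)
  exact lt_irrefl _ h2

private theorem thr_succ (X : Ctx) (r N : ℕ) :
    X.thr (r + 1) N = X.thr r N + 1 / (2 * (N : ℝ) ^ 2) := by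
  unfold Ctx.thr
  push_cast
  ring

private theorem thr_self (X : Ctx) {r N : ℕ} (h : X.m N = r) : X.thr r N = 1 / (2 * N) := by
  unfold Ctx.thr
  rw [h, sub_self, zero_div, add_zero]

/-- The weight of one test is at most the total weight. -/
private theorem wV_le (X : Ctx) (τ : X.Crt) (r : ℕ) (A : Orc)
    (h : ¬ ∃ N, X.M₀ ≤ N ∧ X.m N ≤ r ∧ Bad X.Y.g A N (X.thr (r + 1) N))
    {i k n : ℕ} (hrk : rk k n ≤ r) (hν : X.ν i k ≤ n) {a : List Bool}
    (ha : a ∈ Prg.advs (n ^ k + k)) (x : Fin n → Bool) (u : List Bool) :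
    wV ((X.W i).run a (List.ofFn x)) A (τ i k n a x) u ≤ X.w τ r A u := by
  classical
  have e : X.w τ r A u = ∑ q ∈ X.act r, ∑ a ∈ Prg.advs (q.2.2 ^ q.2.1 + q.2.1),
      ∑ x : Fin q.2.2 → Bool,
        wV ((X.W q.1).run a (List.ofFn x)) A (τ q.1 q.2.1 q.2.2 a x) u := by
    unfold Ctx.w
    rw [dif_neg h]
  have hmem : (i, k, n) ∈ X.act r := by
    have h1 := (X.ν_M i k n hν).2
    unfold rk at hrk
    unfold Ctx.act
    simp only [mem_filter, mem_product, mem_range]
    unfold rk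
    refine ⟨⟨by omega, by omega, by omega⟩, hrk, hν⟩
  have s1 : wV ((X.W i).run a (List.ofFn x)) A (τ i k n a x) u ≤
      ∑ x : Fin n → Bool, wV ((X.W i).run a (List.ofFn x)) A (τ i k n a x) u :=
    single_le_sum (f := fun x : Fin n → Bool =>
      wV ((X.W i).run a (List.ofFn x)) A (τ i k n a x) u)
      (fun x _ => wV_nonneg _ _ _ _) (mem_univ x)
  have s2 : ∑ x : Fin n → Bool, wV ((X.W i).run a (List.ofFn x)) A (τ i k n a x) u ≤
      ∑ a ∈ Prg.advs (n ^ k + k), ∑ x : Fin n → Bool,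
        wV ((X.W i).run a (List.ofFn x)) A (τ i k n a x) u :=
    single_le_sum (f := fun a : List Bool => ∑ x : Fin n → Bool,
      wV ((X.W i).run a (List.ofFn x)) A (τ i k n a x) u)
      (fun a _ => sum_nonneg fun x _ => wV_nonneg _ _ _ _) ha
  have s3 : ∀ (f : ℕ → ℕ → ℕ → ℝ), (∀ i k n, 0 ≤ f i k n) →
      f i k n ≤ ∑ q ∈ X.act r, f q.1 q.2.1 q.2.2 := fun f hf =>
    single_le_sum (f := fun q : ℕ × ℕ × ℕ => f q.1 q.2.1 q.2.2)
      (fun q _ => hf _ _ _) hmem
  have s4 := s3 (fun i k n => ∑ a ∈ Prg.advs (n ^ k + k), ∑ x : Fin n → Bool,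
    wV ((X.W i).run a (List.ofFn x)) A (τ i k n a x) u)
    (fun i k n => sum_nonneg fun a _ => sum_nonneg fun x _ => wV_nonneg _ _ _ _)
  rw [e]
  exact s1.trans (s2.trans s4)

end Inv

open Pool.Agent.Lib.MP_ff3ed7_lc.Prg3.Inv in
theorem tInv (hWb : S_Wb) (hDif : S_Dif) (hAgr : S_Agr) (hHc : S_Hc) (hHm : S_Hm) (hHL : S_HL)
    (hBdL : Prg2.S_BdL) : S_Inv := by
  intro X P τ K ω z F r hr
  classical
  have h64 := X.hM₀
  induction r, hr using Nat.le_induction with
  | base =>
    refine ⟨fun N hN hm => ?_, fun i k n hrk hν a _ x => ?_⟩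
    · have e : X.m N = X.M₀ := le_antisymm hm (X.m_ge N)
      have h1 := F.bad N hN
      rw [e] at h1
      rwa [thr_self X e]
    · have h1 := (X.ν_M i k n hν).1
      have h2 : n ≤ rk k n := by unfold rk; omega
      have e : rk k n = X.M₀ := by omega
      have h3 := F.cer i k n (by omega) a x
      rw [e] at h3
      refine holdsE_zero h3 ?_
      rw [e, sub_self, mul_zero]
  | succ r hr ih =>
    obtain ⟨ihA, ihB⟩ := ih
    obtain ⟨ag1, _, _, ag4⟩ := hAgr X P K ω z r hr
    obtain ⟨_, _, _, ag4'⟩ := hAgr X P K ω z (r + 1) (by omega)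
    have hrb : r < X.b r := (X.b_iff r r).2 (X.m_le r hr)
    let D : Finset (List Bool) :=
      (univ \ K r).image fun c => wstr X.Y P (X.con P K ω z r) (z r) c
    have hD : ∀ u, u ∉ D → X.Jp P K ω z r u = X.J P K ω z r u := by
      intro u hu
      by_contra hne
      obtain ⟨c, hc, e⟩ := hDif X P K ω z r u hr (fun h => hne h.symm)
      exact hu (mem_image.2 ⟨c, mem_sdiff.2 ⟨mem_univ _, hc⟩, e.symm⟩)
    have hw0 : ∀ u, 0 ≤ X.w τ r (X.Jp P K ω z r) u := fun u => (hWb X τ r hr).1 _ u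
    have hsum : ∑ u ∈ D, X.w τ r (X.Jp P K ω z r) u ≤ 1 :=
      le_trans (sum_image_le' _ _ _ hw0) (F.cls r hr)
    by_cases h : ∃ N, X.M₀ ≤ N ∧ X.m N ≤ r ∧ Bad X.Y.g (X.Jp P K ω z r) N (X.thr (r + 1) N)
    · exfalso
      obtain ⟨N, C, h1, h2, hadv, e⟩ : ∃ (N : ℕ) (C : Circ N (X.Y.g N) × (Fin (X.Y.g N) → Bool)),
          X.M₀ ≤ N ∧ X.m N ≤ r ∧
          X.thr (r + 1) N < |frac (fun ρ : Fin N → Bool =>
              evalQ (X.Jp P K ω z r) C.1 C.2 ρ = true) -
            frac (fun i : Fin (16 * N ^ 6) =>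
              evalQ (X.Jp P K ω z r) C.1 C.2 (gen (X.Jp P K ω z r) N i) = true)| ∧
          ∀ u, X.w τ r (X.Jp P K ω z r) u = (N : ℝ) * wC X.ct (X.Jp P K ω z r) N (X.Y.g N) C u := by
        refine ⟨h.choose, h.choose_spec.2.2.choose, h.choose_spec.1, h.choose_spec.2.1,
          h.choose_spec.2.2.choose_spec, fun u => ?_⟩
        unfold Ctx.w
        rw [dif_pos h]
      rw [thr_succ] at hadv
      simp only [e] at hsum
      refine ihA N h1 h2 ⟨C, ?_⟩
      exact hHc X.ct N (X.Y.g N) C (X.J P K ω z r) (X.Jp P K ω z r) D (X.thr r N) (by omega)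
        (fun i => by rw [(ag4 N h1 h2 i).1, (ag4 N h1 h2 i).2]) hD hsum hadv
    · refine ⟨fun N hN hm hbad => ?_, fun i k n hrk hν a ha x => ?_⟩
      · rcases Nat.lt_or_ge r (X.m N) with hlt | hle
        · have e : X.m N = r + 1 := by omega
          have h1 := F.bad N hN
          rw [e] at h1
          rw [thr_self X e] at hbad
          exact h1 hbad
        · refine h ⟨N, hN, hle, ?_⟩
          have hNb : N < X.b r := (X.b_iff r N).2 hle
          refine hBdL X.ct X.Y.g (X.J P K ω z (r + 1)) (X.Jp P K ω z r) N _ (by omega)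
            (fun u hu => (ag1 u (by omega)).symm) (fun i => ?_) hbad
          rw [(ag4' N hN hm i).1, (ag4 N hN hle i).2]
      · rcases Nat.lt_or_ge r (rk k n) with hlt | hle
        · have e : rk k n = r + 1 := by omega
          have h3 := F.cer i k n (by omega) a x
          rw [e] at h3
          refine holdsE_zero h3 ?_
          rw [e, sub_self, mul_zero]
        · have h1 := ihB i k n hle hν a ha x
          have h2 := hHm _ _ (X.J P K ω z r) (X.Jp P K ω z r) _ D _ hD
            (le_trans (sum_le_sum fun u _ => wV_le X τ r _ h hle hν ha x u) hsum) h1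
          have hb : ((X.W i).run a (List.ofFn x)).Bounded ((X.W i).t n) := by
            have h3 := (X.W i).bounded a (List.ofFn x)
            rwa [List.length_ofFn] at h3
          have ht : (X.W i).t n ≤ X.b r := ((X.ν_t i k n hν).2).trans (b_mono X hle)
          have h4 := hHL _ _ _ (X.b r) (X.Jp P K ω z r) (X.J P K ω z (r + 1)) _ _ hb ht
            (by omega) (fun u hu => ag1 u hu) h2
          have e : 48 * (((r + 1 : ℕ) : ℝ) - rk k n) = 48 * ((r : ℝ) - rk k n) + 48 := by
            push_cast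
            ring
          rw [e]
          exact h4

end Pool.Agent.Lib.MP_ff3ed7_lc.Prg3
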