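import Pool.Agent.Lib.MP_ff3ed7_lc.Prg3.Spec

/-!
Module LcA: the oracles and the events of one level depend only on the window.
-/

set_option autoImplicit false

namespace Pool.Agent.Lib.MP_ff3ed7_lc.Prg3

open Finset
open Pool.Agent.Lib.MP_ff3ed7_lc.Prg (frac qf path gr cut)
open Pool.Agent.Lib.MP_ff3ed7_lc.Prg2

namespace LcA

theorem full_eq (hFul : S_Ful) {ω ω' : Smp} {z z' : Rep} {N : ℕ}
    (h : ∀ j < N, ω j = ω' j ∧ z j = z' j) (A : Orc) (M M₁ : ℕ) (hM : 1 ≤ M) (hM₁ : M₁ ≤ N) :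
    full A M M₁ ω z = full A M M₁ ω' z' := by
  funext u
  by_cases h1 : M ≤ lev u ∧ lev u < M₁
  · obtain ⟨h2, h3⟩ := h _ (lt_of_lt_of_le h1.2 hM₁)
    exact hFul A A M M₁ M M₁ ω ω' z z' u (hM.trans h1.1) h1.1 h1.2 h1.1 h1.2 h2 h3
  · unfold full
    rw [if_neg h1, if_neg h1]

theorem con_eq (hDep : Prg2.S_Dep) (X : Ctx) {ω ω' : Smp} {z z' : Rep} {N : ℕ}
    (h : ∀ j < N, ω j = ω' j ∧ z j = z' j) {r : ℕ} (hr : X.M₀ ≤ r) (hrN : r ≤ N)
    (P : ℕ → List Bool → Bool) (K : Exc) : X.con P K ω z r = X.con P K ω' z' r := by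
  unfold Ctx.con
  refine (hDep X.Y P ω ω' z z' K K (fun _ _ => 0) 0 X.M₀ (r - X.M₀) X.A₀ fun i _ hi => ?_).1
  obtain ⟨h1, h2⟩ := h i (by omega)
  exact ⟨h1, h2, rfl⟩

theorem lv_imp {Y : World} {P : ℕ → List Bool → Bool} {ω ω' : Smp} {z z' : Rep}
    {w : Orc → List Bool → ℝ} {r B : ℕ} {A : Orc} {zr : Bool → Row r → Val r}
    (hω : ω r = ω' r) (hf : ∀ A, full A (r + 1) B ω z = full A (r + 1) B ω' z')
    (h : Lv Y P ω z w r B A zr) : Lv Y P ω' z' w r B A zr := by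
  obtain ⟨K, h1, h2⟩ := h
  refine ⟨K, h1, ?_⟩
  rw [← hf, ← hω]
  exact h2

theorem e_imp (X : Ctx) {ω ω' : Smp} {z z' : Rep} {r : ℕ} (hω : ω r = ω' r) (hz : z r = z' r)
    (hf : ∀ A, full A (r + 1) (X.b r) ω z = full A (r + 1) (X.b r) ω' z')
    (hc : ∀ P K, X.con P K ω z r = X.con P K ω' z' r) (h : X.E ω z r) : X.E ω' z' r := by
  obtain ⟨P, τ, K, h1, h2⟩ := h
  refine ⟨P, τ, K, h1, fun h3 => h2 ?_⟩
  rw [hc, hz]
  exact lv_imp hω.symm (fun A => (hf A).symm) h3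

theorem ok_imp (X : Ctx) {ω ω' : Smp} {z z' : Rep} {r : ℕ} (hω : ω r = ω' r) (hz : z r = z' r)
    (hf : ∀ A, full A (r + 1) (X.b r) ω z = full A (r + 1) (X.b r) ω' z')
    (hc : ∀ P K, X.con P K ω z r = X.con P K ω' z' r)
    (hJ : ∀ P K, X.J P K ω z r = X.J P K ω' z' r) (D D' : X.Dat) (h : X.Ok r D D' ω z) :
    X.Ok r D D' ω' z' where
  hP := h.hP
  hτ := h.hτ
  hK := h.hK
  cer i k n hk a x := by
    rw [← hJ]
    exact h.cer i k n hk a x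
  cnt := h.cnt
  card := h.card
  cls h1 := by
    rw [← hc, ← hz] at h1
    have h2 := h.cls (lv_imp hω.symm (fun A => (hf A).symm) h1)
    rw [← hc, ← hz, ← hω]
    simp only [← hf]
    exact h2

end LcA

open LcA

theorem tLcA (hDep : Prg2.S_Dep) (hFul : S_Ful) : S_LcA := by
  intro X ω ω' z z' N h r hr
  refine ⟨fun hrN P K => con_eq hDep X h hr hrN P K, fun hb => ?_⟩
  have hrb : r < X.b r := (X.b_iff r r).2 (X.m_le r hr)
  have hrN : r ≤ N := (hrb.le).trans hb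
  have hr1 : 1 ≤ r := by
    have := X.hM₀
    omega
  obtain ⟨hω, hz⟩ := h r (lt_of_lt_of_le hrb hb)
  have hc : ∀ P K, X.con P K ω z r = X.con P K ω' z' r := con_eq hDep X h hr hrN
  have hf : ∀ A, full A (r + 1) (X.b r) ω z = full A (r + 1) (X.b r) ω' z' :=
    fun A => full_eq hFul h A (r + 1) (X.b r) (by omega) hb
  have hJ : ∀ P K, X.J P K ω z r = X.J P K ω' z' r := by
    intro P K
    unfold Ctx.J
    rw [hc]
    exact full_eq hFul h _ r (X.b r) hr1 hb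
  refine ⟨hJ, ⟨e_imp X hω hz hf hc, e_imp X hω.symm hz.symm (fun A => (hf A).symm)
    fun P K => (hc P K).symm⟩, fun D D' => ⟨ok_imp X hω hz hf hc hJ D D', ok_imp X hω.symm hz.symm
    (fun A => (hf A).symm) (fun P K => (hc P K).symm) (fun P K => (hJ P K).symm) D D'⟩⟩

end Pool.Agent.Lib.MP_ff3ed7_lc.Prg3
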