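import Pool.Agent.Lib.MP_ff3ed7_lc.Prg3.Spec

/-!
The world (`S_Lim`).
-/

set_option autoImplicit false

namespace Pool.Agent.Lib.MP_ff3ed7_lc.Prg3

open Finset
open Pool.Agent.Lib.MP_ff3ed7_lc.Prg (frac qf path gr cut)
open Pool.Agent.Lib.MP_ff3ed7_lc.Prg2

namespace Lim

theorem rk_pos (k n : ℕ) : 1 ≤ rk k n := by
  unfold rk
  rcases Nat.eq_zero_or_pos k with h | h
  · subst h
    simp
  · omega

theorem valid_one (Y : World) (A : Orc) : Valid Y A 1 :=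
  ⟨fun _ h6 h => absurd h (by omega), fun k x h => absurd h (by have := rk_pos k x.length; omega)⟩

end Lim

theorem tLim (hPrM : S_PrM) (hFil : Prg2.S_Fil) (hGd : S_Gd) (hFix : S_Fix) (hLmt : S_Lmt)
    (hFnF : S_FnF) (hFnT : S_FnT) (hCnt : S_Cnt) (ct : CT) : S_Lim := by
  intro Y W hW
  choose n₀ hn₀ using hW
  obtain ⟨M₀, m, b, h64, m_ge, m_mono, m_le, m_g, b_iff, hb⟩ := hPrM Y.g (n₀ 0)
    (fun N hN N' hN' => (hn₀ 0 N hN).2 N' (hN'.trans (Nat.le_add_left _ _)))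
  obtain ⟨A₀, -, hV⟩ := hFil ct Y (fun _ => false) 1 M₀ le_rfl (by omega) (Lim.valid_one Y _)
  have hrk : ∀ k n, n ≤ rk k n := fun k n => by unfold rk; omega
  let X : Ctx :=
    { Y := Y, ct := ct, W := W, A₀ := A₀, M₀ := M₀, m := m, b := b
      ν := fun i _ => max (max i M₀) (n₀ i)
      hM₀ := h64, hV := hV, m_ge := m_ge, m_mono := m_mono, m_le := m_le, m_g := m_g
      b_iff := b_iff
      ν_M := fun i k n h => by
        have h1 : max (max i M₀) (n₀ i) ≤ n := h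
        omega
      ν_t := fun i k n h => by
        have h1 : max (max i M₀) (n₀ i) ≤ n := h
        obtain ⟨h2, h3⟩ := hn₀ i n (by omega)
        exact ⟨h2, hb n _ _ (by omega) (hrk k n) h2
          fun N hN => h3 N (hN.trans (Nat.le_add_right _ _))⟩ }
  obtain ⟨ω, z, hG⟩ := hGd X
  have hF := hFix X ω z hG
  obtain ⟨A, hA⟩ := hLmt X (X.DI ω z).P (X.DI ω z).K ω z
  obtain ⟨t1, t2, -⟩ := hFnT X (X.DI ω z).P (X.DI ω z).K ω z A hF.card hA
  refine ⟨A, hFnF X _ _ _ ω z A hF hA, t1, t2, fun i k => ⟨max (max i M₀) (n₀ i), fun n hn h hh => ?_⟩⟩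
  exact hCnt X _ _ _ ω z A hF hA i k n hn h hh

end Pool.Agent.Lib.MP_ff3ed7_lc.Prg3
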