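import Pool.Agent.Lib.MP_ff3ed7_lc.Prg3.Spec

/-!
The limit oracle (`S_Lmt`).
-/

set_option autoImplicit false

namespace Pool.Agent.Lib.MP_ff3ed7_lc.Prg3

open Finset
open Pool.Agent.Lib.MP_ff3ed7_lc.Prg (frac qf path gr cut)
open Pool.Agent.Lib.MP_ff3ed7_lc.Prg2

theorem tLmt (hAgr : S_Agr) : S_Lmt := by
  intro X P K ω z
  refine ⟨fun u => X.con P K ω z (lev u + 1) u, fun r hr u hu => ?_⟩
  show X.con P K ω z r u = X.con P K ω z (lev u + 1) u
  rcases le_or_gt X.M₀ (lev u + 1) with h | h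
  · exact ((hAgr X P K ω z (lev u + 1) h).2.2.1 r u (by omega) (by omega)).symm
  · have h1 := (hAgr X P K ω z X.M₀ le_rfl).2.2.1 r u hr (by omega)
    rw [← h1]
    unfold Ctx.con
    rw [Nat.sub_self, Nat.sub_eq_zero_of_le h.le]

end Pool.Agent.Lib.MP_ff3ed7_lc.Prg3
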