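import Pool.Agent.Lib.MP_ff3ed7_lc.Prg3.Spec

/-!
One level of the nested closure for theorem AE, everything else fixed (`S_LvA`).
-/

set_option autoImplicit false

namespace Pool.Agent.Lib.MP_ff3ed7_lc.Prg3

open Finset
open Pool.Agent.Lib.MP_ff3ed7_lc.Prg (frac qf path gr cut)
open Pool.Agent.Lib.MP_ff3ed7_lc.Prg2

namespace LvA

instance (r : ℕ) : DecidableEq (Row r × Val r) := fun a b => instDecidableEqProd a b

/-- Splitting into the replies on the right sides and on the wrong sides. -/
def spl {r : ℕ} (tr : Row r → Bool) :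
    ((Row r → Val r) × (Row r → Val r)) ≃ (Bool → Row r → Val r) where
  toFun p := fun s c => if s = tr c then p.1 c else p.2 c
  invFun F := (fun c => F (tr c) c, fun c => F (!tr c) c)
  left_inv p := by
    obtain ⟨p1, p2⟩ := p
    refine Prod.ext ?_ ?_
    · funext c
      simp
    · funext c
      simp
  right_inv F := by
    funext s c
    by_cases h : s = tr c
    · simp [h]
    · have h' : (!tr c) = s := by
        cases s <;> cases hf : tr c <;> simp_all
      simp only [if_neg h, h']

/-- The content of the level. -/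
def con {r : ℕ} (tr : Row r → Bool) (fix : Row r → Val r) (S : Finset (Row r × Val r)) :
    Bool → Row r → Val r → Bool := fun s c y =>
  if s = tr c then decide (fix c = y) else decide ((c, y) ∈ S)

theorem step_eq (Y : World) (P : ℕ → List Bool → Bool) (r : ℕ) (A : Orc)
    (ω : Fin (16 * r ^ 6) → Fin r → Bool) (fix var : Row r → Val r) (S : Finset (Row r × Val r))
    (hS : S ⊆ gr var) :
    step Y P r A ω (spl (fun c => truth Y P A c.1.1) (fix, var)) (S.image Prod.fst) =
      put r A ω (con (fun c => truth Y P A c.1.1) fix S) := by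
  unfold step
  congr 1
  funext s c y
  unfold con spl
  simp only [Equiv.coe_fn_mk]
  by_cases h : s = truth Y P A c.1.1
  · simp [h]
  · simp only [h, if_false, decide_false, Bool.false_or]
    rw [Bool.eq_iff_iff]
    simp only [Bool.and_eq_true, decide_eq_true_eq, Finset.mem_image, Prod.exists,
      exists_and_right, exists_eq_right]
    constructor
    · rintro ⟨h1, y', hy'⟩
      have h2 := hS hy'
      simp only [gr, Finset.mem_filter, Finset.mem_univ, true_and] at h2
      rw [← h1, h2]
      exact hy'
    · intro hy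
      have h2 := hS hy
      simp only [gr, Finset.mem_filter, Finset.mem_univ, true_and] at h2
      exact ⟨h2, y, hy⟩

end LvA

theorem tLvA (hClo : Prg.S_Clo) (hPut : Prg2.S_Put) : S_LvA := by
  intro Y P ω z w t r B A hw0 hw
  have ht : 0 ≤ t := by simpa using hw A ∅
  let tr : Row r → Bool := fun c => truth Y P A c.1.1
  rw [← Prg.frac_equiv (LvA.spl tr)]
  apply Prg.frac_prod_le (E := fun fix var => ¬ Lv Y P ω z w r B A (LvA.spl tr (fix, var)))
    (by positivity)
  intro fix
  let O : Finset (Row r × Val r) → Orc := fun S =>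
    full (put r A (ω r) (LvA.con tr fix S)) (r + 1) B ω z
  let str : Row r × Val r → List Bool := fun c => cstr (!tr c.1) c.1 c.2
  have hinj : Function.Injective str := by
    intro c c' h
    obtain ⟨_, h1, h2⟩ := hPut.2.2.1 r _ _ _ _ _ _ h
    exact Prod.ext h1 h2
  have h1 : ∀ S : Finset (Row r × Val r), ∑ c, w (O S) (str c) ≤ t := by
    intro S
    have h2 : ∑ c, w (O S) (str c) = ∑ u ∈ univ.image str, w (O S) u :=
      (Finset.sum_image fun c _ c' _ h => hinj h).symm
    rw [h2]
    exact hw _ _
  have hc := hClo (Row r) (Val r) (fun S c => w (O S) (str c)) t (4 ^ r)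
    (fun S c => hw0 _ _) h1
  have hcard : (Fintype.card (Val r) : ℝ) = 2 ^ (4 * r) := by simp
  rw [hcard] at hc
  refine le_trans (Prg.frac_mono fun var hvar hS => ?_) hc
  apply hvar
  obtain ⟨S, hS1, hS2, hS3⟩ := hS
  refine ⟨S.image Prod.fst, Finset.card_image_le.trans hS2, ?_⟩
  have h3 := LvA.step_eq Y P r A (ω r) fix var S hS1
  rw [h3]
  have h4 : ∑ c ∈ univ \ S.image Prod.fst, w (O S) (wstr Y P A (LvA.spl tr (fix, var)) c) ≤
      ∑ c ∈ gr var \ S, w (O S) (str c) := by
    have h5 : ∀ c, wstr Y P A (LvA.spl tr (fix, var)) c = str (c, var c) := by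
      intro c
      have : LvA.spl tr (fix, var) (!tr c) c = var c := by
        simp [LvA.spl]
      simp only [wstr, str]
      rw [show truth Y P A c.1.1 = tr c from rfl, this]
    simp only [h5]
    rw [← Finset.sum_image (f := fun d : Row r × Val r => w (O S) (str d))
      (s := univ \ S.image Prod.fst) (g := fun c => (c, var c))
      (fun c _ c' _ h => congrArg Prod.fst h)]
    apply Finset.sum_le_sum_of_subset_of_nonneg
    · intro d hd
      obtain ⟨c, hc1, rfl⟩ := Finset.mem_image.1 hd
      rw [Finset.mem_sdiff] at hc1 ⊢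
      refine ⟨by simp [gr], fun hc2 => hc1.2 (Finset.mem_image.2 ⟨_, hc2, rfl⟩)⟩
    · intro d _ _
      exact hw0 _ _
  exact h4.trans hS3

end Pool.Agent.Lib.MP_ff3ed7_lc.Prg3
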