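import Pool.Agent.Lib.MP_ff3ed7_lc.Prg3.Spec

/-!
One level of the construction, union bound (`S_LvB`).
-/

set_option autoImplicit false

namespace Pool.Agent.Lib.MP_ff3ed7_lc.Prg3

open Finset
open Pool.Agent.Lib.MP_ff3ed7_lc.Prg (frac qf path gr cut)
open Pool.Agent.Lib.MP_ff3ed7_lc.Prg2

namespace LvB

/-- The full oracle depends only on the replies of the full levels. -/
theorem full_congr (ω : Smp) (z z' : Rep) (M B : ℕ) (A : Orc) (h : ∀ i, M ≤ i → z i = z' i) :
    full A M B ω z = full A M B ω z' := by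
  funext u
  unfold full
  by_cases h1 : M ≤ lev u ∧ lev u < B
  · rw [if_pos h1, if_pos h1, h (lev u) h1.1]
  · rw [if_neg h1, if_neg h1]

/-- `Lv` depends only on the replies above the level. -/
theorem Lv_congr (Y : World) (P : ℕ → List Bool → Bool) (ω : Smp) (z z' : Rep)
    (w : Orc → List Bool → ℝ) (r B : ℕ) (A : Orc) (zr : Bool → Row r → Val r)
    (h : ∀ i, r < i → z i = z' i) (hL : Lv Y P ω z w r B A zr) :
    Lv Y P ω z' w r B A zr := by
  obtain ⟨K, h1, h2⟩ := hL
  refine ⟨K, h1, ?_⟩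
  rw [← full_congr ω z z' (r + 1) B _ fun i hi => h i (by omega)]
  exact h2

/-- One index and one family of exceptional rows. -/
theorem one (hLvA : S_LvA) (hDep : Prg2.S_Dep) (Y : World) (P : ℕ → List Bool → Bool) (ω : Smp)
    (w : Orc → List Bool → ℝ) (t : ℝ) (M R r B : ℕ) (A : Orc)
    (hw0 : ∀ O u, 0 ≤ w O u) (hw : ∀ O (D : Finset (List Bool)), ∑ u ∈ D, w O u ≤ t)
    (hM : M ≤ r) (hr : r < R) (K : Exc) :
    frac (fun z : (j : Fin R) → Bool → Row j → Val j =>
      ¬ Lv Y P ω (exR z) w r B (run Y P ω (exR z) K M (r - M) A) (exR z r)) ≤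
      (t / 2 ^ (4 * r)) ^ (4 ^ r + 1) := by
  classical
  have ht : 0 ≤ t := by simpa using hw A ∅
  let β : Fin R → Type := fun r => Bool → Row r → Val r
  let S : Fin R := ⟨r, hr⟩
  let e : (((j : {j : Fin R // j ≠ S}) → β j.1) × β S) ≃ ((j : Fin R) → β j) :=
    (Equiv.prodComm _ _).trans (Equiv.piSplitAt S β).symm
  have e1 : ∀ a b, (e (a, b)) S = b := by
    intro a b
    simp [e, Equiv.piSplitAt]
  have e2 : ∀ a b b' (j : Fin R), j ≠ S → (e (a, b)) j = (e (a, b')) j := by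
    intro a b b' j hj
    simp [e, Equiv.piSplitAt, hj]
  rw [← Prg.frac_equiv (Ω := (j : Fin R) → β j) e]
  apply Prg.frac_prod_le (E := fun a b =>
    ¬ Lv Y P ω (exR (e (a, b))) w r B
      (run Y P ω (exR (e (a, b))) K M (r - M) A) (exR (e (a, b)) r)) (by positivity)
  intro a
  let b0 : β S := fun _ _ _ => false
  have h1 : ∀ b, exR (e (a, b)) r = b := by
    intro b
    have h2 := e1 a b
    unfold exR
    rw [dif_pos hr]
    exact h2
  have h2 : ∀ b i, i ≠ r → exR (e (a, b)) i = exR (e (a, b0)) i := by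
    intro b i hi
    unfold exR
    by_cases h : i < R
    · rw [dif_pos h, dif_pos h]
      exact e2 a b b0 ⟨i, h⟩ fun hc => hi (congrArg Fin.val hc)
    · rw [dif_neg h, dif_neg h]
  have h3 : ∀ b, run Y P ω (exR (e (a, b))) K M (r - M) A =
      run Y P ω (exR (e (a, b0))) K M (r - M) A := fun b =>
    (hDep Y P ω ω _ _ K K w 0 M (r - M) A fun i _ hi' =>
      ⟨rfl, h2 b i (by omega), rfl⟩).1
  refine le_trans (Prg.frac_mono fun b hb hc => ?_)
    (hLvA Y P ω (exR (e (a, b0))) w t r B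
      (run Y P ω (exR (e (a, b0))) K M (r - M) A) hw0 hw)
  apply hb
  rw [h3 b, h1 b]
  exact Lv_congr Y P ω _ _ w r _ _ b (fun i hi => (h2 b i (by omega)).symm) hc

/-- The family of exceptional rows given by a finite family. -/
def exK {M r : ℕ}
    (κ : (j : Fin r) → {K : Finset (Row j) // K.card ≤ if (j : ℕ) < M then 0 else 4 ^ (j : ℕ)}) :
    Exc := fun j => if h : j < r then (κ ⟨j, h⟩).1 else ∅

end LvB

theorem tLvB (hLvA : S_LvA) (hDep : Prg2.S_Dep) (hCtK : Prg2.S_CtK) : S_LvB := by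
  classical
  intro ι _ Y P ω w t M R r B A hw0 hw hM6 hM hr
  rcases isEmpty_or_nonempty ι with hι | ⟨⟨i₀⟩⟩
  · rw [Prg.frac_eq_sum]
    simp
  have ht : 0 ≤ t := by simpa using hw i₀ A ∅
  let KT : Type := (j : Fin r) →
    {K : Finset (Row j) // K.card ≤ if (j : ℕ) < M then 0 else 4 ^ (j : ℕ)}
  have hfin : Fintype KT := inferInstance
  have hle : frac (fun z : (j : Fin R) → Bool → Row j → Val j => ∃ (i : ι) (K : Exc),
      (∀ j, M ≤ j → j < r → (K j).card ≤ 4 ^ j) ∧
      ¬ Lv Y (P i) ω (exR z) (w i) r B (run Y (P i) ω (exR z) K M (r - M) A) (exR z r)) ≤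
      frac (fun z : (j : Fin R) → Bool → Row j → Val j => ∃ p : ι × KT,
        ¬ Lv Y (P p.1) ω (exR z) (w p.1) r B
        (run Y (P p.1) ω (exR z) (LvB.exK p.2) M (r - M) A) (exR z r)) := by
    refine Prg.frac_mono fun z hz => ?_
    obtain ⟨i, K, hK, hL⟩ := hz
    refine ⟨(i, fun j => if h : (j : ℕ) < M then ⟨∅, by simp [h]⟩
      else ⟨K j, by simpa [h] using hK j (by omega) j.2⟩), ?_⟩
    have h1 : run Y (P i) ω (exR z) (LvB.exK (M := M) (r := r)
        fun j => if h : (j : ℕ) < M then ⟨∅, by simp [h]⟩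
          else ⟨K j, by simpa [h] using hK j (by omega) j.2⟩) M (r - M) A =
        run Y (P i) ω (exR z) K M (r - M) A := by
      refine (hDep Y (P i) ω ω _ _ _ K (w i) 0 M (r - M) A fun j hj hj' => ⟨rfl, rfl, ?_⟩).1
      have h2 : j < r := by omega
      have h3 : ¬ j < M := by omega
      simp [LvB.exK, h2, h3]
    simp only
    rw [h1]
    exact hL
  refine hle.trans ((Prg.frac_exists_le _).trans ?_)
  refine (Finset.sum_le_card_nsmul _ _ ((t / 2 ^ (4 * r)) ^ (4 ^ r + 1)) fun p _ =>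
    LvB.one hLvA hDep Y (P p.1) ω (w p.1) t M R r B A (hw0 p.1) (hw p.1) hM hr _).trans ?_
  rw [nsmul_eq_mul, Finset.card_univ, Fintype.card_prod]
  have hc : (Fintype.card KT : ℝ) ≤ 2 ^ (2 * r * (4 ^ r - 4 ^ M)) := by
    have h1 := hCtK M r hM6 hM
    rw [show Nat.card ((j : Fin r) →
      {K : Finset (Row j) // K.card ≤ if (j : ℕ) < M then 0 else 4 ^ (j : ℕ)}) =
      Fintype.card KT from Nat.card_eq_fintype_card] at h1
    exact_mod_cast h1
  push_cast
  refine mul_le_mul_of_nonneg_right ?_ (by positivity)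
  exact mul_le_mul_of_nonneg_left hc (by positivity)

end Pool.Agent.Lib.MP_ff3ed7_lc.Prg3
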