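import Pool.Agent.Lib.MP_ff3ed7_lc.Prg3.Spec

/-!
The bad event of one level is rare (`S_LvE`).
-/

set_option autoImplicit false

namespace Pool.Agent.Lib.MP_ff3ed7_lc.Prg3

open Finset
open Pool.Agent.Lib.MP_ff3ed7_lc.Prg (frac qf path gr cut)
open Pool.Agent.Lib.MP_ff3ed7_lc.Prg2

namespace LvE

theorem ofFn_getD (l : List Bool) :
    List.ofFn (fun i : Fin l.length => l.getD (i : ℕ) false) = l := by
  apply List.ext_getElem
  · simp
  · intro i h1 h2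
    simp [List.getD_eq_getElem?_getD]

/-- The restriction of a pattern. -/
def reP (r : ℕ) (P : ℕ → List Bool → Bool) : IP r := fun k _ x => P k (List.ofFn x)

/-- The restriction of the certificates. -/
def reT (X : Ctx) (r : ℕ) (τ : X.Crt) : X.IT r := fun q a x => τ q.1.1 q.1.2.1 q.1.2.2 a.1 x

theorem exP_reP (r : ℕ) (P : ℕ → List Bool → Bool) (k : ℕ) (x : List Bool)
    (h : rk k x.length ≤ r) : exP (reP r P) k x = P k x := by
  have h1 : k < r + 1 ∧ x.length < r + 1 := by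
    unfold rk at h
    omega
  unfold exP
  rw [dif_pos h1]
  unfold reP
  rw [ofFn_getD]

theorem exT_reT (X : Ctx) (r : ℕ) (τ : X.Crt) (q : ℕ × ℕ × ℕ) (hq : q ∈ X.act r)
    (a : List Bool) (ha : a ∈ Prg.advs (q.2.2 ^ q.2.1 + q.2.1)) (x : Fin q.2.2 → Bool) :
    exT X (reT X r τ) q.1 q.2.1 q.2.2 a x = τ q.1 q.2.1 q.2.2 a x := by
  unfold exT
  rw [dif_pos ⟨hq, ha⟩]
  rfl

theorem w_reT (X : Ctx) (r : ℕ) (τ : X.Crt) : X.w (exT X (reT X r τ)) r = X.w τ r := by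
  classical
  funext A u
  unfold Ctx.w
  split_ifs with h
  · rfl
  · refine sum_congr rfl fun q hq => sum_congr rfl fun a ha => sum_congr rfl fun x _ => ?_
    rw [exT_reT X r τ q hq a ha x]

theorem Lv_congr (hDpP : S_DpP) (Y : World) (P P' : ℕ → List Bool → Bool) (ω : Smp) (z : Rep)
    (w : Orc → List Bool → ℝ) (r B : ℕ) (A : Orc) (zr : Bool → Row r → Val r)
    (h : ∀ k x, rk k x.length = r → P k x = P' k x) :
    Lv Y P ω z w r B A zr ↔ Lv Y P' ω z w r B A zr := by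
  obtain ⟨h1, h2⟩ := (hDpP Y P P' r).2 A (ω r) zr h
  unfold Lv
  simp only [h1, h2]

theorem num (r M : ℕ) (hr : 3 ≤ 2 * r) (c : ℝ) (hc : c ≤ 2 ^ (4 ^ r)) :
    c * 2 ^ (2 * r * (4 ^ r - 4 ^ M)) * ((2 : ℝ) ^ (2 * r - 3) / 2 ^ (4 * r)) ^ (4 ^ r + 1) ≤
      (1 / 2) ^ (2 * r + 3) := by
  have h1 : (2 : ℝ) ^ (2 * r - 3) / 2 ^ (4 * r) = (1 / 2) ^ (2 * r + 3) := by
    have h2 : (4 * r) = (2 * r - 3) + (2 * r + 3) := by omega
    rw [h2, pow_add, one_div, inv_pow, ← div_div, div_self (by positivity), one_div]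
  rw [h1, ← pow_mul]
  obtain ⟨T, hT⟩ : ∃ T : ℕ, T = 4 ^ r := ⟨_, rfl⟩
  rw [← hT] at hc ⊢
  have h3 : (2 : ℝ) ^ (2 * r * (T - 4 ^ M)) ≤ 2 ^ (2 * r * T) :=
    pow_le_pow_right₀ (by norm_num) (Nat.mul_le_mul_left _ (Nat.sub_le _ _))
  have h4 : c * 2 ^ (2 * r * (T - 4 ^ M)) ≤ 2 ^ (T + 2 * r * T) := by
    rw [pow_add]
    exact mul_le_mul hc h3 (by positivity) (by positivity)
  have h5 : (2 * r + 3) * (T + 1) = (T + 2 * r * T) + (2 * T + (2 * r + 3)) := by ring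
  calc c * 2 ^ (2 * r * (T - 4 ^ M)) * (1 / 2 : ℝ) ^ ((2 * r + 3) * (T + 1))
      ≤ 2 ^ (T + 2 * r * T) * (1 / 2 : ℝ) ^ ((2 * r + 3) * (T + 1)) :=
        mul_le_mul_of_nonneg_right h4 (by positivity)
    _ = (2 * (1 / 2) : ℝ) ^ (T + 2 * r * T) * (1 / 2 : ℝ) ^ (2 * T + (2 * r + 3)) := by
        rw [h5, pow_add (1 / 2 : ℝ), mul_pow, ← mul_assoc]
    _ = (1 / 2 : ℝ) ^ (2 * T + (2 * r + 3)) := by norm_num
    _ ≤ (1 / 2) ^ (2 * r + 3) :=
        pow_le_pow_of_le_one (by norm_num) (by norm_num) (by omega)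

end LvE

theorem tLvE (hLvB : S_LvB) (hWb : S_Wb) (hCt : S_Ct) (hDpP : S_DpP) : S_LvE := by
  intro X ω r R hM hR
  have hM64 := X.hM₀
  have key := hLvB (IP r × X.IT r) X.Y (fun i => exP i.1) ω (fun i => X.w (exT X i.2) r)
    (2 ^ (2 * r - 3)) X.M₀ R r (X.b r) X.A₀ (fun i O u => (hWb X (exT X i.2) r hM).1 O u)
    (fun i O D => (hWb X (exT X i.2) r hM).2 O D) (by omega) hM hR
  refine le_trans (Prg.frac_mono ?_) (le_trans key (LvE.num r X.M₀ (by omega) _ (hCt X r hM)))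
  rintro z ⟨P, τ, K, hK, hL⟩
  refine ⟨(LvE.reP r P, LvE.reT X r τ), K, hK, ?_⟩
  intro hL'
  apply hL
  have hrun : run X.Y (exP (LvE.reP r P)) ω (exR z) K X.M₀ (r - X.M₀) X.A₀ =
      X.con P K ω (exR z) r := by
    unfold Ctx.con
    refine (hDpP X.Y (exP (LvE.reP r P)) P X.M₀).1 ω (exR z) K (r - X.M₀) X.A₀ ?_
    intro k x _ h2
    exact LvE.exP_reP r P k x (by omega)
  simp only [LvE.w_reT, hrun] at hL'
  exact (LvE.Lv_congr hDpP X.Y (exP (LvE.reP r P)) P ω (exR z) (X.w τ r) r (X.b r) _ _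
    (fun k x hk => LvE.exP_reP r P k x hk.le)).mp hL'

end Pool.Agent.Lib.MP_ff3ed7_lc.Prg3
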