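import Pool.Agent.Lib.MP_ff3ed7_lc.Prg3.Spec

/-!
MP_ff3ed7_lc, theorem AE, module NmB: a numerical estimate.
-/

set_option autoImplicit false

namespace Pool.Agent.Lib.MP_ff3ed7_lc.Prg3

open Finset
open Pool.Agent.Lib.MP_ff3ed7_lc.Prg (frac qf path gr cut)
open Pool.Agent.Lib.MP_ff3ed7_lc.Prg2

theorem tNmB : S_NmB := by
  intro n a
  have h1 : (2 : ℝ) ^ (a + 2) < Real.exp ((a : ℝ) + 2) := by
    have h2 : (2 : ℝ) < Real.exp 1 := by
      have := Real.exp_one_gt_d9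
      linarith
    have h3 : Real.exp ((a : ℝ) + 2) = Real.exp 1 ^ (a + 2) := by
      rw [← Real.exp_nat_mul]
      push_cast
      ring_nf
    rw [h3]
    exact pow_lt_pow_left₀ h2 (by norm_num) (by omega)
  have h2 : (n : ℝ) + 1 ≤ Real.exp n := Real.add_one_le_exp _
  have h3 : Real.exp (n : ℝ) * Real.exp ((a : ℝ) + 2) * Real.exp (-((a : ℝ) + n + 2)) = 1 := by
    rw [← Real.exp_add, ← Real.exp_add, ← Real.exp_zero]
    congr 1
    ring
  have h4 : (0 : ℝ) < Real.exp (-((a : ℝ) + n + 2)) := Real.exp_pos _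
  have h5 : ((n : ℝ) + 1) * 2 ^ (a + 2) < Real.exp (n : ℝ) * Real.exp ((a : ℝ) + 2) := by
    have h6 : (0 : ℝ) < (n : ℝ) + 1 := by positivity
    have h7 : (0 : ℝ) < Real.exp ((a : ℝ) + 2) := Real.exp_pos _
    calc ((n : ℝ) + 1) * 2 ^ (a + 2) < ((n : ℝ) + 1) * Real.exp ((a : ℝ) + 2) :=
          mul_lt_mul_of_pos_left h1 h6
      _ ≤ Real.exp (n : ℝ) * Real.exp ((a : ℝ) + 2) := mul_le_mul_of_nonneg_right h2 h7.le
  calc ((n : ℝ) + 1) * 2 ^ (a + 1) * (2 * Real.exp (-((a : ℝ) + n + 2)))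
      = ((n : ℝ) + 1) * 2 ^ (a + 2) * Real.exp (-((a : ℝ) + n + 2)) := by ring
    _ < Real.exp (n : ℝ) * Real.exp ((a : ℝ) + 2) * Real.exp (-((a : ℝ) + n + 2)) :=
        mul_lt_mul_of_pos_right h5 h4
    _ = 1 := h3

end Pool.Agent.Lib.MP_ff3ed7_lc.Prg3
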