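import Pool.Agent.Lib.MP_ff3ed7_lc.Prg3.Spec

/-!
The machine is wrong (`S_Out`).
-/

set_option autoImplicit false

namespace Pool.Agent.Lib.MP_ff3ed7_lc.Prg3

open Finset
open Pool.Agent.Lib.MP_ff3ed7_lc.Prg (frac qf path gr cut)
open Pool.Agent.Lib.MP_ff3ed7_lc.Prg2

theorem tOut : S_Out := by
  intro V b A c e hH he hdec
  have hb : (0 : ℝ) < (b : ℝ) + 1 := by positivity
  have hcard : ∀ r : ℝ, ∑ _i : Fin (1152 * (b + 1)), r = 1152 * ((b : ℝ) + 1) * r := by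
    intro r
    rw [Finset.sum_const, Finset.card_univ, Fintype.card_fin, nsmul_eq_mul]
    push_cast
    ring
  cases hc : c.1 with
  | true =>
    rw [hc] at hdec
    have h1 : ∃ z, ∀ y, V.pr A y z ≤ 1 / 3 := hdec
    obtain ⟨z, hz⟩ := h1
    have h3 := hH.1 hc z
    have h5 : ∑ i, V.pr A (cut (c.2 i) V.p) z ≤ ∑ _i : Fin (1152 * (b + 1)), (1 : ℝ) / 3 :=
      Finset.sum_le_sum fun i _ => hz _
    rw [hcard] at h5
    linarith
  | false =>
    rw [hc] at hdec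
    have h1 : ∃ y, ∀ z, 2 / 3 ≤ V.pr A y z := hdec
    obtain ⟨y, hy⟩ := h1
    have h3 := hH.2 hc y
    have h5 : ∑ _i : Fin (1152 * (b + 1)), (2 : ℝ) / 3 ≤ ∑ i, V.pr A y (cut (c.2 i) V.q) :=
      Finset.sum_le_sum fun i _ => hy _
    rw [hcard] at h5
    linarith

end Pool.Agent.Lib.MP_ff3ed7_lc.Prg3
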