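import Pool.Agent.Lib.MP_ff3ed7_lc.Prg3.Spec

/-!
MP_ff3ed7_lc, theorem AE: base levels and windows (`S_PrM`).
-/

set_option autoImplicit false

namespace Pool.Agent.Lib.MP_ff3ed7_lc.Prg3

open Finset
open Pool.Agent.Lib.MP_ff3ed7_lc.Prg (frac qf path gr cut)
open Pool.Agent.Lib.MP_ff3ed7_lc.Prg2

namespace PrM

/-- `2 ^ (size n - 1) ≤ n` for `n ≠ 0`. -/
theorem pow_size_le {n : ℕ} (hn : n ≠ 0) : 2 ^ (n.size - 1) ≤ n := by
  have h1 : n.size - 1 < n.size := by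
    have : 0 < n.size := Nat.size_pos.2 (Nat.pos_of_ne_zero hn)
    omega
  exact Nat.lt_size.1 h1

theorem size_num (s : ℕ) : 2 * (s + 7) + 3 ≤ 2 ^ (s + 5) := by
  induction s with
  | zero => norm_num
  | succ s ih =>
    have : 2 ^ (s + 1 + 5) = 2 ^ (s + 5) + 2 ^ (s + 5) := by ring
    omega

theorem size_le {n : ℕ} (hn : 64 ≤ n) : 2 * (2 * n.size + 3) ≤ n := by
  have h1 : 2 ^ (n.size - 1) ≤ n := pow_size_le (by omega)
  have h2 : 6 < n.size := by
    rw [Nat.lt_size]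
    omega
  obtain ⟨s, hs⟩ : ∃ s, n.size = s + 7 := ⟨n.size - 7, by omega⟩
  have h3 := size_num s
  rw [hs] at h1 ⊢
  have h4 : 2 ^ (s + 7 - 1) = 2 ^ (s + 5) + 2 ^ (s + 5) := by
    rw [show s + 7 - 1 = s + 5 + 1 from by omega]
    ring
  omega

theorem size_pow_le {N t n : ℕ} (hN : N < t) (ht : t ^ 16 ≤ 2 ^ n) : N.size ≤ n / 16 + 1 := by
  by_cases h0 : N = 0
  · rw [h0, Nat.size_zero]
    omega
  have h1 : 2 ^ (N.size - 1) ≤ N := pow_size_le h0
  have h2 : 2 ^ (16 * (N.size - 1)) < 2 ^ n := by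
    calc 2 ^ (16 * (N.size - 1)) = (2 ^ (N.size - 1)) ^ 16 := by rw [← pow_mul, mul_comm]
      _ ≤ N ^ 16 := Nat.pow_le_pow_left h1 16
      _ < t ^ 16 := Nat.pow_lt_pow_left hN (by norm_num)
      _ ≤ 2 ^ n := ht
  have h3 : 16 * (N.size - 1) < n := (Nat.pow_lt_pow_iff_right (by norm_num)).1 h2
  omega

/-- The base level. -/
def m (g : ℕ → ℕ) (M₀ N : ℕ) : ℕ :=
  max M₀ ((range (N + 1)).sup fun N' => g N' + 2 * N'.size + 3)

theorem le_m (g : ℕ → ℕ) (M₀ : ℕ) {N N' : ℕ} (h : N' ≤ N) :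
    g N' + 2 * N'.size + 3 ≤ m g M₀ N :=
  le_max_of_le_right
    (Finset.le_sup (f := fun N' => g N' + 2 * N'.size + 3) (mem_range.2 (by omega)))

theorem m_le {g : ℕ → ℕ} {M₀ N r : ℕ} (h : M₀ ≤ r)
    (h' : ∀ N' ≤ N, g N' + 2 * N'.size + 3 ≤ r) : m g M₀ N ≤ r :=
  max_le h (Finset.sup_le fun N' hN' => h' N' (by
    have := mem_range.1 hN'
    omega))

theorem ex_lt (g : ℕ → ℕ) (M₀ r : ℕ) : ∃ N, r < m g M₀ N := by
  refine ⟨2 ^ r, ?_⟩
  have h1 := le_m g M₀ (le_refl (2 ^ r))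
  rw [Nat.size_pow] at h1
  omega

end PrM

open PrM in
/-- Base levels and windows. -/
theorem tPrM : S_PrM := by
  intro g N₀ hg
  have hmono : ∀ N N', N ≤ N' → m g (max 64 N₀) N ≤ m g (max 64 N₀) N' := fun N N' h =>
    PrM.m_le (le_max_left _ _) fun K hK => le_m _ _ (hK.trans h)
  refine ⟨max 64 N₀, m g (max 64 N₀), fun r => Nat.find (ex_lt g (max 64 N₀) r), le_max_left _ _,
    fun N => le_max_left _ _, hmono, ?_, ?_, ?_, ?_⟩
  · intro N hN
    refine PrM.m_le hN fun K hK => ?_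
    have h1 := hg N ((le_max_right _ _).trans hN) K hK
    have h2 := size_le ((le_max_left _ _).trans hN)
    have h3 : K.size ≤ N.size := Nat.size_le_size hK
    omega
  · intro N
    have h1 := le_m g (max 64 N₀) (le_refl N)
    have h2 : N ≤ 2 ^ N.size := (Nat.lt_size_self N).le
    calc 4 * N ^ 3 * 2 ^ g N ≤ 4 * (2 ^ N.size) ^ 3 * 2 ^ g N := by gcongr
      _ = 2 ^ (2 + 3 * N.size + g N) := by ring
      _ ≤ 2 ^ (2 * m g (max 64 N₀) N - 3) := Nat.pow_le_pow_right (by norm_num) (by omega)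
  · intro r N
    show N < Nat.find (ex_lt g (max 64 N₀) r) ↔ m g (max 64 N₀) N ≤ r
    constructor
    · intro h
      exact not_lt.1 (Nat.find_min (ex_lt g (max 64 N₀) r) h)
    · intro h
      by_contra hc
      have h1 := Nat.find_spec (ex_lt g (max 64 N₀) r)
      have h2 := hmono _ _ (not_lt.1 hc)
      omega
  · intro n t r hn hr ht hgt
    show t ≤ Nat.find (ex_lt g (max 64 N₀) r)
    by_contra hc
    have h1 := Nat.find_spec (ex_lt g (max 64 N₀) r)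
    generalize Nat.find (ex_lt g (max 64 N₀) r) = f at h1 hc
    have h2 : m g (max 64 N₀) f ≤ r := by
      refine PrM.m_le (hn.trans hr) fun K hK => ?_
      have h3 := hgt K (by omega)
      have h4 : K.size ≤ n / 16 + 1 := size_pow_le (by omega) ht
      have h5 : 64 ≤ n := (le_max_left _ _).trans hn
      omega
    omega

end Pool.Agent.Lib.MP_ff3ed7_lc.Prg3
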