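import Pool.Agent.Lib.MP_ff3ed7_lc.Prg3.Spec

/-!
The canonical data (`S_Seq`).
-/

set_option autoImplicit false

namespace Pool.Agent.Lib.MP_ff3ed7_lc.Prg3

open Finset
open Pool.Agent.Lib.MP_ff3ed7_lc.Prg (frac qf path gr cut)
open Pool.Agent.Lib.MP_ff3ed7_lc.Prg2

theorem tSeq (hUpd : S_Upd) : S_Seq := by
  intro X ω z r hr
  have h1 : X.D ω z (r + 1) = X.nxt r (X.D ω z r) ω z := by
    unfold Ctx.D
    have h2 : r + 1 - X.M₀ = (r - X.M₀) + 1 := by omega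
    have h3 : X.M₀ + (r - X.M₀) = r := by omega
    rw [h2]
    show X.nxt (X.M₀ + (r - X.M₀)) (X.seq ω z (r - X.M₀)) ω z = _
    rw [h3]
  have h4 := hUpd X r (X.D ω z r) ω z
  rw [h1]
  unfold Ctx.nxt
  rw [dif_pos h4]
  exact h4.choose_spec

end Pool.Agent.Lib.MP_ff3ed7_lc.Prg3
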