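import Pool.Agent.Lib.MP_ff3ed7_lc.Prg3.Spec

/-! Theorem AE (note 4001): the canonical data are stable. -/

set_option autoImplicit false

namespace Pool.Agent.Lib.MP_ff3ed7_lc.Prg3

open Finset
open Pool.Agent.Lib.MP_ff3ed7_lc.Prg (frac qf path gr cut)
open Pool.Agent.Lib.MP_ff3ed7_lc.Prg2

/-- One step of the canonical data does not change the values at the other levels. -/
private theorem Stb_step (hSeq : S_Seq) (X : Ctx) (ω : Smp) (z : Rep) (s : ℕ) :
    (∀ k x, rk k x.length ≠ s → (X.D ω z (s + 1)).P k x = (X.D ω z s).P k x) ∧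
    (∀ i k n, rk k n ≠ s → (X.D ω z (s + 1)).τ i k n = (X.D ω z s).τ i k n) ∧
    ∀ r, r ≠ s → (X.D ω z (s + 1)).K r = (X.D ω z s).K r := by
  by_cases h : X.M₀ ≤ s
  · have h1 := hSeq X ω z s h
    exact ⟨h1.hP, h1.hτ, h1.hK⟩
  · have h2 : X.D ω z (s + 1) = X.D ω z s := by
      unfold Ctx.D
      have e1 : s + 1 - X.M₀ = 0 := by omega
      have e2 : s - X.M₀ = 0 := by omega
      rw [e1, e2]
    rw [h2]
    exact ⟨fun _ _ _ => rfl, fun _ _ _ _ => rfl, fun _ _ => rfl⟩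

theorem tStb (hSeq : S_Seq) : S_Stb := by
  intro X ω z s
  induction s with
  | zero =>
    exact ⟨fun k x h => absurd h (Nat.not_lt_zero _), fun i k n h => absurd h (Nat.not_lt_zero _),
      fun r h => absurd h (Nat.not_lt_zero _)⟩
  | succ s ih =>
    obtain ⟨i1, i2, i3⟩ := ih
    obtain ⟨s1, s2, s3⟩ := Stb_step hSeq X ω z s
    refine ⟨fun k x h => ?_, fun i k n h => ?_, fun r h => ?_⟩
    · rcases Nat.lt_succ_iff_lt_or_eq.1 h with h1 | h1
      · rw [s1 k x h1.ne, i1 k x h1]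
      · rw [← h1]
        rfl
    · rcases Nat.lt_succ_iff_lt_or_eq.1 h with h1 | h1
      · rw [s2 i k n h1.ne, i2 i k n h1]
      · rw [← h1]
        rfl
    · rcases Nat.lt_succ_iff_lt_or_eq.1 h with h1 | h1
      · rw [s3 r h1.ne, i3 r h1]
      · rw [← h1]
        rfl

end Pool.Agent.Lib.MP_ff3ed7_lc.Prg3
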