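import Pool.Agent.Lib.MP_ff3ed7_lc.Prg3.Spec

/-!
MP_ff3ed7_lc, theorem AE, module `Upd`: the data can be extended by one level.
-/

set_option autoImplicit false

namespace Pool.Agent.Lib.MP_ff3ed7_lc.Prg3

open Finset
open Pool.Agent.Lib.MP_ff3ed7_lc.Prg (frac qf path gr cut)
open Pool.Agent.Lib.MP_ff3ed7_lc.Prg2

namespace Upd

theorem getD_ofFn_eq (F : (m : ℕ) → (Fin m → Bool) → Bool) {n : ℕ} (y : Fin n → Bool) :
    F (List.ofFn y).length (fun i => (List.ofFn y).getD i false) = F n y := by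
  have key : ∀ (m : ℕ), m = n → F m (fun i => (List.ofFn y).getD i false) = F n y := by
    intro m h
    subst h
    congr 1
    funext i
    simp
  exact key _ (by simp)

theorem pat_exists (hFCi : S_FCi) (hNmB : S_NmB) (hAdv : Prg.S_Adv) (k n : ℕ)
    (o : ℕ → List Bool → (Fin n → Bool) → Bool) :
    ∃ f : (Fin n → Bool) → Bool, ∀ i ≤ n, ∀ a ∈ Prg.advs (n ^ k + k),
      (Nat.card {x // f x = o i a x} : ℝ) ≤ avg k n := by
  obtain ⟨f, hf⟩ := hFCi n ((rk k n : ℝ) + 2) (Fin (n + 1) × ↥(Prg.advs (n ^ k + k)))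
    (fun p x => o p.1 p.2 x) (by positivity) (by
      have h1 := hNmB n (n ^ k + k)
      have h2 : (Fintype.card (Fin (n + 1) × ↥(Prg.advs (n ^ k + k))) : ℝ) ≤
          ((n : ℝ) + 1) * 2 ^ (n ^ k + k + 1) := by
        rw [Fintype.card_prod, Fintype.card_fin, Fintype.card_coe]
        push_cast
        apply mul_le_mul_of_nonneg_left _ (by positivity)
        exact_mod_cast (hAdv (n ^ k + k)).2.le
      refine lt_of_le_of_lt ?_ h1
      have h3 : -((rk k n : ℝ) + 2) = -(((n ^ k + k : ℕ) : ℝ) + n + 2) := by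
        unfold rk; push_cast; ring
      rw [h3]
      exact mul_le_mul_of_nonneg_right h2 (by positivity))
  exact ⟨f, fun i hi a ha => hf (⟨i, by omega⟩, ⟨a, ha⟩)⟩

theorem cer_exists (hCer : Prg2.S_Cer) (X : Ctx) (J : Orc) (i n : ℕ) (a : List Bool)
    (x : Fin n → Bool) : ∃ c : Ct ((X.W i).t n), Holds ((X.W i).run a (List.ofFn x)) J c := by
  have h := (X.W i).bounded a (List.ofFn x)
  rw [List.length_ofFn] at h
  exact hCer _ J _ h

end Upd

open Classical in
theorem tUpd (hCer : Prg2.S_Cer) (hFCi : S_FCi) (hNmB : S_NmB) (hAdv : Prg.S_Adv) : S_Upd := by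
  intro X r D ω z
  -- certificates
  let τ' : X.Crt := fun i k n a x =>
    if rk k n = r then (Upd.cer_exists hCer X (X.J D.P D.K ω z r) i n a x).choose
    else D.τ i k n a x
  have hτ1 : ∀ i k n, rk k n = r → ∀ a x,
      Holds ((X.W i).run a (List.ofFn x)) (X.J D.P D.K ω z r) (τ' i k n a x) := by
    intro i k n hr a x
    have h1 : τ' i k n a x = (Upd.cer_exists hCer X (X.J D.P D.K ω z r) i n a x).choose :=
      if_pos hr
    rw [h1]
    exact (Upd.cer_exists hCer X (X.J D.P D.K ω z r) i n a x).choose_spec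
  have hτ2 : ∀ i k n, rk k n ≠ r → τ' i k n = D.τ i k n := by
    intro i k n hr
    funext a x
    exact if_neg hr
  -- patterns
  have hf : ∀ k n, ∃ f : (Fin n → Bool) → Bool, ∀ i ≤ n, ∀ a ∈ Prg.advs (n ^ k + k),
      (Nat.card {x // f x = (τ' i k n a x).1} : ℝ) ≤ avg k n := fun k n =>
    Upd.pat_exists hFCi hNmB hAdv k n fun i a x => (τ' i k n a x).1
  choose f hf using hf
  let P' : ℕ → List Bool → Bool := fun k x =>
    if rk k x.length = r then f k x.length (fun i => x.getD i false) else D.P k x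
  have hP1 : ∀ k x, rk k x.length ≠ r → P' k x = D.P k x := fun k x h => if_neg h
  have hP2 : ∀ k n, rk k n = r → ∀ x : Fin n → Bool, P' k (List.ofFn x) = f k n x := by
    intro k n hr x
    have h1 : P' k (List.ofFn x) = f k (List.ofFn x).length
        (fun i => (List.ofFn x).getD i false) := if_pos (by rw [List.length_ofFn]; exact hr)
    rw [h1]
    exact Upd.getD_ofFn_eq (f k) x
  -- exceptional rows
  have hK : ∃ K₀ : Finset (Row r), K₀.card ≤ 4 ^ r ∧
      (Lv X.Y P' ω z (X.w τ' r) r (X.b r) (X.con D.P D.K ω z r) (z r) →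
        ∑ c ∈ univ \ K₀, X.w τ' r
          (full (step X.Y P' r (X.con D.P D.K ω z r) (ω r) (z r) K₀) (r + 1) (X.b r) ω z)
          (wstr X.Y P' (X.con D.P D.K ω z r) (z r) c) ≤ 1) := by
    by_cases h : Lv X.Y P' ω z (X.w τ' r) r (X.b r) (X.con D.P D.K ω z r) (z r)
    · obtain ⟨K, hK1, hK2⟩ := h
      exact ⟨K, hK1, fun _ => hK2⟩
    · exact ⟨∅, by simp, fun h' => absurd h' h⟩
  obtain ⟨K₀, hK1, hK2⟩ := hK
  have hKr : Function.update D.K r K₀ r = K₀ := Function.update_self _ _ _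
  refine ⟨⟨P', τ', Function.update D.K r K₀⟩, ?_⟩
  refine ⟨hP1, hτ2, fun j hj => Function.update_of_ne hj _ _, hτ1, ?_, ?_, ?_⟩
  · intro i k n hr hν a ha
    have h1 := hf k n i (X.ν_M i k n hν).2 a ha
    change (Nat.card {x : Fin n → Bool // P' k (List.ofFn x) = (τ' i k n a x).1} : ℝ) ≤ avg k n
    simp only [hP2 k n hr]
    exact h1
  · change (Function.update D.K r K₀ r).card ≤ 4 ^ r
    rw [hKr]
    exact hK1
  · intro h
    change ∑ c ∈ univ \ Function.update D.K r K₀ r, X.w τ' r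
      (full (step X.Y P' r (X.con D.P D.K ω z r) (ω r) (z r) (Function.update D.K r K₀ r))
        (r + 1) (X.b r) ω z)
      (wstr X.Y P' (X.con D.P D.K ω z r) (z r) c) ≤ 1
    rw [hKr]
    exact hK2 h

end Pool.Agent.Lib.MP_ff3ed7_lc.Prg3
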