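import Pool.Agent.Lib.MP_ff3ed7_lc.Prg3.Spec

/-!
The weights of the tests are bounded (theorem AE, MP_ff3ed7_lc).
-/

set_option autoImplicit false

namespace Pool.Agent.Lib.MP_ff3ed7_lc.Prg3

open Finset
open Pool.Agent.Lib.MP_ff3ed7_lc.Prg (frac qf path gr cut)
open Pool.Agent.Lib.MP_ff3ed7_lc.Prg2

namespace Wb

theorem wC_nonneg (ct : CT) (A : Orc) (N G : ℕ) (C : Circ N G × (Fin G → Bool))
    (u : List Bool) : 0 ≤ wC ct A N G C u := by
  unfold wC
  have h1 := Prg.qf_nonneg A (fun i : Fin (16 * N ^ 6) => ct.T N G C.1 C.2 (gen A N i)) u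
  have h2 := Prg.qf_nonneg A (fun ρ : Fin N → Bool => ct.T N G C.1 C.2 ρ) u
  positivity

theorem sum_wC_le (ct : CT) (A : Orc) (N G : ℕ) (C : Circ N G × (Fin G → Bool))
    (D : Finset (List Bool)) : ∑ u ∈ D, wC ct A N G C u ≤ 4 * (N : ℝ) ^ 2 * 2 ^ G := by
  unfold wC
  rw [← mul_sum, sum_add_distrib]
  have h1 := Prg.sum_qf_le A (fun i : Fin (16 * N ^ 6) => ct.T N G C.1 C.2 (gen A N i))
    (N * 2 ^ G) (fun i => ct.depth N G C.1 C.2 (gen A N i)) D
  have h2 := Prg.sum_qf_le A (fun ρ : Fin N → Bool => ct.T N G C.1 C.2 ρ)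
    (N * 2 ^ G) (fun ρ => ct.depth N G C.1 C.2 ρ) D
  push_cast at h1 h2
  have hN : (0 : ℝ) ≤ 2 * (N : ℝ) := by positivity
  calc 2 * (N : ℝ) *
        (∑ u ∈ D, qf A (fun i : Fin (16 * N ^ 6) => ct.T N G C.1 C.2 (gen A N i)) u +
          ∑ u ∈ D, qf A (fun ρ : Fin N → Bool => ct.T N G C.1 C.2 ρ) u)
      ≤ 2 * (N : ℝ) * ((N : ℝ) * 2 ^ G + (N : ℝ) * 2 ^ G) :=
        mul_le_mul_of_nonneg_left (add_le_add h1 h2) hN
    _ = 4 * (N : ℝ) ^ 2 * 2 ^ G := by ring

theorem wV_nonneg {b : ℕ} (V : S2) (A : Orc) (c : Ct b) (u : List Bool) : 0 ≤ wV V A c u := by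
  unfold wV
  apply mul_nonneg (by norm_num)
  apply sum_nonneg
  intro i _
  split_ifs
  · exact Prg.qf_nonneg _ _ _
  · exact Prg.qf_nonneg _ _ _

theorem sum_wV_le {b : ℕ} (V : S2) (hV : V.Bounded b) (A : Orc) (c : Ct b)
    (D : Finset (List Bool)) : ∑ u ∈ D, wV V A c u ≤ 24 * ((b : ℝ) + 1) * b := by
  unfold wV
  rw [← mul_sum, sum_comm]
  have h1 : ∀ i : Fin (1152 * (b + 1)), ∑ u ∈ D,
      (if c.1 = true then qf A (V.T (cut (c.2 i) V.p) (mz V A c)) u
        else qf A (V.T (my V A c) (cut (c.2 i) V.q)) u) ≤ (b : ℝ) := by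
    intro i
    split_ifs
    · exact Prg.sum_qf_le A _ b (fun ρ => (hV.2.2 _ _ ρ).1) D
    · exact Prg.sum_qf_le A _ b (fun ρ => (hV.2.2 _ _ ρ).1) D
  have h2 : ∑ i : Fin (1152 * (b + 1)), ∑ u ∈ D,
      (if c.1 = true then qf A (V.T (cut (c.2 i) V.p) (mz V A c)) u
        else qf A (V.T (my V A c) (cut (c.2 i) V.q)) u) ≤ (1152 * ((b : ℝ) + 1)) * b := by
    calc _ ≤ ∑ _i : Fin (1152 * (b + 1)), (b : ℝ) := sum_le_sum fun i _ => h1 i
      _ = (1152 * ((b : ℝ) + 1)) * b := by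
        rw [sum_const, card_univ, Fintype.card_fin, nsmul_eq_mul]
        push_cast
        ring
  calc 1 / 48 * ∑ i : Fin (1152 * (b + 1)), ∑ u ∈ D,
        (if c.1 = true then qf A (V.T (cut (c.2 i) V.p) (mz V A c)) u
          else qf A (V.T (my V A c) (cut (c.2 i) V.q)) u)
      ≤ 1 / 48 * ((1152 * ((b : ℝ) + 1)) * b) :=
        mul_le_mul_of_nonneg_left h2 (by norm_num)
    _ = 24 * ((b : ℝ) + 1) * b := by ring

theorem bounded' (W : Machine) {n : ℕ} (a : List Bool) (x : Fin n → Bool) :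
    (W.run a (List.ofFn x)).Bounded (W.t n) := by
  have h := W.bounded a (List.ofFn x)
  rwa [List.length_ofFn] at h

/-- The number of pairs of an advice string and an input. -/
theorem card_le (hAdv : Prg.S_Adv) (k n r : ℕ) (h : rk k n ≤ r) :
    (Prg.advs (n ^ k + k)).card * 2 ^ n ≤ 2 ^ (r + 1) := by
  have h1 := (hAdv (n ^ k + k)).2
  calc (Prg.advs (n ^ k + k)).card * 2 ^ n ≤ 2 ^ (n ^ k + k + 1) * 2 ^ n :=
        Nat.mul_le_mul_right _ h1.le
    _ = 2 ^ (rk k n + 1) := by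
        rw [← pow_add]
        congr 1
        unfold rk
        omega
    _ ≤ 2 ^ (r + 1) := Nat.pow_le_pow_right (by norm_num) (by omega)

/-- The weight of one test. -/
theorem test_le (X : Ctx) (τ : X.Crt) (A : Orc) (D : Finset (List Bool)) (i k n : ℕ) :
    ∑ u ∈ D, ∑ a ∈ Prg.advs (n ^ k + k), ∑ x : Fin n → Bool,
      wV ((X.W i).run a (List.ofFn x)) A (τ i k n a x) u ≤
      ((Prg.advs (n ^ k + k)).card * 2 ^ n : ℝ) *
        (24 * (((X.W i).t n : ℝ) + 1) * ((X.W i).t n : ℝ)) := by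
  rw [sum_comm]
  calc ∑ a ∈ Prg.advs (n ^ k + k), ∑ u ∈ D, ∑ x : Fin n → Bool,
        wV ((X.W i).run a (List.ofFn x)) A (τ i k n a x) u
      ≤ ∑ _a ∈ Prg.advs (n ^ k + k),
          (2 ^ n * (24 * (((X.W i).t n : ℝ) + 1) * ((X.W i).t n : ℝ))) := by
        apply sum_le_sum
        intro a _
        rw [sum_comm]
        calc ∑ x : Fin n → Bool, ∑ u ∈ D, wV ((X.W i).run a (List.ofFn x)) A (τ i k n a x) u
            ≤ ∑ _x : Fin n → Bool, 24 * (((X.W i).t n : ℝ) + 1) * ((X.W i).t n : ℝ) :=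
              sum_le_sum fun x _ => sum_wV_le _ (bounded' (X.W i) a x) A (τ i k n a x) D
          _ = 2 ^ n * (24 * (((X.W i).t n : ℝ) + 1) * ((X.W i).t n : ℝ)) := by
              rw [sum_const, card_univ, nsmul_eq_mul]
              simp
    _ = _ := by
        rw [sum_const, nsmul_eq_mul]
        ring

theorem card_act_le (X : Ctx) (r : ℕ) : (X.act r).card ≤ (r + 1) ^ 3 := by
  unfold Ctx.act
  refine (card_filter_le _ _).trans ?_
  rw [card_product, card_product, card_range]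
  exact le_of_eq (by ring)

end Wb

open Wb

theorem tWb (hNm : S_Nm) (hAdv : Prg.S_Adv) : S_Wb := by
  intro X τ r hr
  have hM := X.hM₀
  constructor
  · intro A u
    unfold Ctx.w
    split_ifs with h
    · exact mul_nonneg (Nat.cast_nonneg _) (wC_nonneg _ _ _ _ _ _)
    · exact sum_nonneg fun q _ => sum_nonneg fun a _ => sum_nonneg fun x _ => wV_nonneg _ _ _ _
  · intro A D
    unfold Ctx.w
    split_ifs with h
    · rw [← mul_sum]
      have h1 := sum_wC_le X.ct A h.choose (X.Y.g h.choose) h.choose_spec.2.2.choose D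
      have h2 : (4 * (h.choose : ℝ) ^ 3 * 2 ^ X.Y.g h.choose) ≤ 2 ^ (2 * X.m h.choose - 3) := by
        exact_mod_cast X.m_g h.choose
      have h3 : (2 : ℝ) ^ (2 * X.m h.choose - 3) ≤ 2 ^ (2 * r - 3) := by
        apply pow_le_pow_right₀ (by norm_num)
        have := h.choose_spec.2.1
        omega
      calc (h.choose : ℝ) * ∑ u ∈ D, wC X.ct A h.choose (X.Y.g h.choose)
            h.choose_spec.2.2.choose u
          ≤ (h.choose : ℝ) * (4 * (h.choose : ℝ) ^ 2 * 2 ^ X.Y.g h.choose) :=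
            mul_le_mul_of_nonneg_left h1 (Nat.cast_nonneg _)
        _ = 4 * (h.choose : ℝ) ^ 3 * 2 ^ X.Y.g h.choose := by ring
        _ ≤ 2 ^ (2 * r - 3) := h2.trans h3
    · rw [sum_comm]
      have hq : ∀ q ∈ X.act r, ((r : ℝ) + 1) ^ 3 * ∑ u ∈ D,
          ∑ a ∈ Prg.advs (q.2.2 ^ q.2.1 + q.2.1), ∑ x : Fin q.2.2 → Bool,
            wV ((X.W q.1).run a (List.ofFn x)) A (τ q.1 q.2.1 q.2.2 a x) u ≤
          2 ^ (2 * r - 3) := by
        rintro ⟨i, k, n⟩ hq
        have hq' := (mem_filter.1 hq).2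
        simp only at hq' ⊢
        have hν := X.ν_t i k n hq'.2
        have hn : n ≤ r := by
          have := hq'.1
          unfold rk at this
          omega
        have h1 := test_le X τ A D i k n
        have h2 : ((Prg.advs (n ^ k + k)).card * 2 ^ n : ℝ) ≤ 2 ^ (r + 1) := by
          exact_mod_cast card_le hAdv k n r hq'.1
        have h3 : ((r : ℝ) + 1) ^ 3 * (2 ^ (r + 1) *
            (24 * (((X.W i).t n : ℝ) + 1) * ((X.W i).t n : ℝ))) ≤ 2 ^ (2 * r - 3) := by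
          exact_mod_cast (hNm r n ((X.W i).t n) (by omega) hn hν.1).1
        refine le_trans ?_ h3
        apply mul_le_mul_of_nonneg_left _ (by positivity)
        refine h1.trans ?_
        exact mul_le_mul_of_nonneg_right h2 (by positivity)
      have hr3 : (0 : ℝ) < ((r : ℝ) + 1) ^ 3 := by positivity
      have h4 : ((r : ℝ) + 1) ^ 3 * ∑ q ∈ X.act r, ∑ u ∈ D,
          ∑ a ∈ Prg.advs (q.2.2 ^ q.2.1 + q.2.1), ∑ x : Fin q.2.2 → Bool,
            wV ((X.W q.1).run a (List.ofFn x)) A (τ q.1 q.2.1 q.2.2 a x) u ≤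
          ((r : ℝ) + 1) ^ 3 * 2 ^ (2 * r - 3) := by
        rw [mul_sum]
        calc _ ≤ ∑ _q ∈ X.act r, (2 : ℝ) ^ (2 * r - 3) := sum_le_sum hq
          _ = ((X.act r).card : ℝ) * 2 ^ (2 * r - 3) := by rw [sum_const, nsmul_eq_mul]
          _ ≤ ((r : ℝ) + 1) ^ 3 * 2 ^ (2 * r - 3) := by
            apply mul_le_mul_of_nonneg_right _ (by positivity)
            exact_mod_cast card_act_le X r
      exact le_of_mul_le_mul_left h4 hr3

end Pool.Agent.Lib.MP_ff3ed7_lc.Prg3
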