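import Pool.Agent.Lib.MP_ff3ed7_lc.Prg2.All
import Pool.Agent.Lib.MP_ff3ed7_lc.Prg3.Agr
import Pool.Agent.Lib.MP_ff3ed7_lc.Prg3.Cau
import Pool.Agent.Lib.MP_ff3ed7_lc.Prg3.Cnt
import Pool.Agent.Lib.MP_ff3ed7_lc.Prg3.Cpt
import Pool.Agent.Lib.MP_ff3ed7_lc.Prg3.Ct
import Pool.Agent.Lib.MP_ff3ed7_lc.Prg3.Dif
import Pool.Agent.Lib.MP_ff3ed7_lc.Prg3.DpP
import Pool.Agent.Lib.MP_ff3ed7_lc.Prg3.FCi
import Pool.Agent.Lib.MP_ff3ed7_lc.Prg3.Fix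
import Pool.Agent.Lib.MP_ff3ed7_lc.Prg3.FnF
import Pool.Agent.Lib.MP_ff3ed7_lc.Prg3.FnM
import Pool.Agent.Lib.MP_ff3ed7_lc.Prg3.FnT
import Pool.Agent.Lib.MP_ff3ed7_lc.Prg3.Fnl
import Pool.Agent.Lib.MP_ff3ed7_lc.Prg3.Ful
import Pool.Agent.Lib.MP_ff3ed7_lc.Prg3.GLc
import Pool.Agent.Lib.MP_ff3ed7_lc.Prg3.Gd
import Pool.Agent.Lib.MP_ff3ed7_lc.Prg3.HL
import Pool.Agent.Lib.MP_ff3ed7_lc.Prg3.Hc
import Pool.Agent.Lib.MP_ff3ed7_lc.Prg3.Hm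
import Pool.Agent.Lib.MP_ff3ed7_lc.Prg3.Hof
import Pool.Agent.Lib.MP_ff3ed7_lc.Prg3.Hor
import Pool.Agent.Lib.MP_ff3ed7_lc.Prg3.Inv
import Pool.Agent.Lib.MP_ff3ed7_lc.Prg3.LcA
import Pool.Agent.Lib.MP_ff3ed7_lc.Prg3.Lim
import Pool.Agent.Lib.MP_ff3ed7_lc.Prg3.Lmt
import Pool.Agent.Lib.MP_ff3ed7_lc.Prg3.LvA
import Pool.Agent.Lib.MP_ff3ed7_lc.Prg3.LvB
import Pool.Agent.Lib.MP_ff3ed7_lc.Prg3.LvE
import Pool.Agent.Lib.MP_ff3ed7_lc.Prg3.Nm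
import Pool.Agent.Lib.MP_ff3ed7_lc.Prg3.NmB
import Pool.Agent.Lib.MP_ff3ed7_lc.Prg3.Out
import Pool.Agent.Lib.MP_ff3ed7_lc.Prg3.PrM
import Pool.Agent.Lib.MP_ff3ed7_lc.Prg3.Seq
import Pool.Agent.Lib.MP_ff3ed7_lc.Prg3.Stb
import Pool.Agent.Lib.MP_ff3ed7_lc.Prg3.Upd
import Pool.Agent.Lib.MP_ff3ed7_lc.Prg3.Wb

/-! Assembly of theorem AE. -/

set_option autoImplicit false

namespace Pool.Agent.Lib.MP_ff3ed7_lc.Prg3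

open Pool.Agent.Lib.MP_ff3ed7_lc.Prg2

theorem lim : S_Lim := by
  obtain ⟨ct⟩ := Prg2.tCirT
  have pStr : Prg2.S_Str := Prg2.tStr
  have pPut : Prg2.S_Put := Prg2.tPut pStr
  have pRun : Prg2.S_Run := Prg2.tRun pPut
  have pGen : Prg2.S_Gen := Prg2.tGen pPut pRun
  have pLoP : Prg2.S_LoP := Prg2.tLoP pStr
  have pBdL : Prg2.S_BdL := Prg2.tBdL pStr
  have pVld : Prg2.S_Vld := Prg2.tVld pPut pRun pLoP pStr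
  have pTri : Prg.S_Tri := Prg.tTri Prg.tHoe Prg.tNum
  have pLoc : Prg2.S_Loc := Prg2.tLoc pTri Prg2.tCirN pStr pPut pGen
  have pFil : Prg2.S_Fil := Prg2.tFil (Prg2.tFlA pLoc pVld pBdL Prg2.tBdF pGen pLoP pRun)
  have pCtK : Prg2.S_CtK := Prg2.tCtK Prg2.tRow Prg.tSma
  have hFul : S_Ful := tFul pPut
  have hLcA : S_LcA := tLcA Prg2.tDep hFul
  have hCau : S_Cau := tCau hLcA
  have hGLc : S_GLc := tGLc hLcA hCau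
  have hLvB : S_LvB := tLvB (tLvA Prg.tClo pPut) Prg2.tDep pCtK
  have hWb : S_Wb := tWb tNm Prg.tAdv
  have hLvE : S_LvE := tLvE hLvB hWb (tCt tNm Prg.tAdv) tDpP
  have hHof : S_Hof := tHof pTri Prg2.tCirN pStr pPut hCau hFul
  have hGd : S_Gd := tGd (tHor hLvE hHof) tCpt hGLc
  have hSeq : S_Seq := tSeq (tUpd (Prg2.tCer Prg2.tMmx) (tFCi Prg.tHoe) tNmB Prg.tAdv)
  have hFix : S_Fix := tFix hSeq (tStb hSeq) tDpP Prg2.tDep pRun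
  have hAgr : S_Agr := tAgr pPut pRun hFul
  have hHL : S_HL := tHL pStr
  have hInv : S_Inv := tInv hWb (tDif pPut pRun hFul) hAgr tHc tHm hHL pBdL
  have hFnF : S_FnF := tFnF hInv hAgr pBdL Prg2.tBdF pLoP
  have hFnT : S_FnT := tFnT pVld pLoP
  have hFnM : S_FnM := tFnM hInv hAgr hHL tOut
  have hCnt : S_Cnt := tCnt hFnT hFnM Prg2.tInU Prg.tAdv
  exact tLim tPrM pFil hGd hFix (tLmt hAgr) hFnF hFnT hCnt ct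

end Pool.Agent.Lib.MP_ff3ed7_lc.Prg3
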