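import Pool.Agent.Lib.MP_ff3ed7_lc.Prg.Spec
import Pool.Agent.Lib.MP_ff3ed7_lc.Prg2.Base

/-!
Working definitions for theorem AE (MP_ff3ed7_lc, note 4001): the world of `Prg2` for all large
lengths.  No statement of the final theorem uses the definitions of this file.
-/

set_option autoImplicit false

namespace Pool.Agent.Lib.MP_ff3ed7_lc.Prg3

open Finset
open Pool.Agent.Lib.MP_ff3ed7_lc.Prg (frac qf path gr cut)
open Pool.Agent.Lib.MP_ff3ed7_lc.Prg2

/-! ### The data -/

/-- The data of the construction: the world, trees of circuits, the machines, an oracle which is in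
order on the levels less than `M₀`, the base levels `m N` of the sizes, the windows `b r`, and the
lengths `ν i k` from which on the machine `W i` is tested for the language `k`. -/
structure Ctx where
  /-- the world -/
  Y : World
  /-- decision trees of circuits -/
  ct : CT
  /-- the machines -/
  W : ℕ → Machine
  /-- the oracle of the levels less than `M₀` -/
  A₀ : Orc
  /-- the first open level -/
  M₀ : ℕ
  /-- the base level of the size `N` -/
  m : ℕ → ℕ
  /-- the tests with base level at most `r` see only levels less than `b r` -/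
  b : ℕ → ℕ
  /-- the test of the machine `W i` for the language `k` is active for the lengths `n ≥ ν i k` -/
  ν : ℕ → ℕ → ℕ
  hM₀ : 64 ≤ M₀
  hV : Valid Y A₀ M₀
  m_ge : ∀ N, M₀ ≤ m N
  m_mono : ∀ N N', N ≤ N' → m N ≤ m N'
  m_le : ∀ N, M₀ ≤ N → m N ≤ N
  m_g : ∀ N, 4 * N ^ 3 * 2 ^ Y.g N ≤ 2 ^ (2 * m N - 3)
  b_iff : ∀ r N, N < b r ↔ m N ≤ r
  ν_M : ∀ i k n, ν i k ≤ n → M₀ ≤ n ∧ i ≤ n
  ν_t : ∀ i k n, ν i k ≤ n → (W i).t n ^ 16 ≤ 2 ^ n ∧ (W i).t n ≤ b (rk k n)

/-- The bound for the number of words of length `n` on which a machine is right. -/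
noncomputable def avg (k n : ℕ) : ℝ := 2 ^ n / 2 + 2 * Real.sqrt (((rk k n : ℝ) + 2) * 2 ^ n)

/-- Certificates for all machines, exponents, lengths, advice strings and inputs. -/
abbrev Ctx.Crt (X : Ctx) : Type :=
  (i k n : ℕ) → List Bool → (Fin n → Bool) → Ct ((X.W i).t n)

/-- Patterns, certificates and exceptional rows. -/
structure Ctx.Dat (X : Ctx) where
  /-- patterns -/
  P : ℕ → List Bool → Bool
  /-- certificates -/
  τ : X.Crt
  /-- exceptional rows -/
  K : Exc

/-- The oracle in which the levels less than `r` are filled. -/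
noncomputable def Ctx.con (X : Ctx) (P : ℕ → List Bool → Bool) (K : Exc) (ω : Smp) (z : Rep)
    (r : ℕ) : Orc := run X.Y P ω z K X.M₀ (r - X.M₀) X.A₀

/-- The reference oracle for the level `r`: on the levels in `[r, b r)` all rows have their replies on
both sides. -/
noncomputable def Ctx.J (X : Ctx) (P : ℕ → List Bool → Bool) (K : Exc) (ω : Smp) (z : Rep)
    (r : ℕ) : Orc := full (X.con P K ω z r) r (X.b r) ω z

/-- The oracle in which the levels less than `r + 1` are filled and on the levels in `[r + 1, b r)` all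
rows have their replies on both sides. -/
noncomputable def Ctx.Jp (X : Ctx) (P : ℕ → List Bool → Bool) (K : Exc) (ω : Smp) (z : Rep)
    (r : ℕ) : Orc := full (X.con P K ω z (r + 1)) (r + 1) (X.b r) ω z

/-! ### The weights -/

theorem exists_mz {b : ℕ} (V : S2) (A : Orc) (c : Ct b) : ∃ z₀ : Fin V.q → Bool, ∀ z,
    ∑ i, V.pr A (cut (c.2 i) V.p) z₀ ≤ ∑ i, V.pr A (cut (c.2 i) V.p) z :=
  Finite.exists_min _

/-- The best message `z` against the certificate. -/
noncomputable def mz {b : ℕ} (V : S2) (A : Orc) (c : Ct b) : Fin V.q → Bool :=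
  (exists_mz V A c).choose

theorem exists_my {b : ℕ} (V : S2) (A : Orc) (c : Ct b) : ∃ y₀ : Fin V.p → Bool, ∀ y,
    ∑ i, V.pr A y (cut (c.2 i) V.q) ≤ ∑ i, V.pr A y₀ (cut (c.2 i) V.q) :=
  Finite.exists_max _

/-- The best message `y` against the certificate. -/
noncomputable def my {b : ℕ} (V : S2) (A : Orc) (c : Ct b) : Fin V.p → Bool :=
  (exists_my V A c).choose

/-- The weight for the test of the `S₂` computation with the certificate `c`. -/
noncomputable def wV {b : ℕ} (V : S2) (A : Orc) (c : Ct b) (u : List Bool) : ℝ :=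
  1 / 48 * ∑ i, if c.1 = true then qf A (V.T (cut (c.2 i) V.p) (mz V A c)) u
    else qf A (V.T (my V A c) (cut (c.2 i) V.q)) u

/-- The messages of the certificate have on the average acceptance probability at least `11 / 24`
against all `z` (side `true`), or at most `13 / 24` against all `y` (side `false`), up to the total
error `e`. -/
def HoldsE {b : ℕ} (V : S2) (A : Orc) (c : Ct b) (e : ℝ) : Prop :=
  (c.1 = true → ∀ z, 11 / 24 * (1152 * (b + 1) : ℝ) - e ≤ ∑ i, V.pr A (cut (c.2 i) V.p) z) ∧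
  (c.1 = false → ∀ y, ∑ i, V.pr A y (cut (c.2 i) V.q) ≤ 13 / 24 * (1152 * (b + 1) : ℝ) + e)

/-- The allowed advantage of the circuits of size `N` on the oracle `J r`. -/
noncomputable def Ctx.thr (X : Ctx) (r N : ℕ) : ℝ :=
  1 / (2 * N) + ((r : ℝ) - X.m N) / (2 * N ^ 2)

/-- The active tests `(i, k, n)` with base level at most `r`. -/
def Ctx.act (X : Ctx) (r : ℕ) : Finset (ℕ × ℕ × ℕ) :=
  (range (r + 1) ×ˢ (range (r + 1) ×ˢ range (r + 1))).filter fun q =>
    rk q.2.1 q.2.2 ≤ r ∧ X.ν q.1 q.2.1 ≤ q.2.2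

open Classical in
/-- The weight of the string `u` at the level `r` for the oracle `A`: if the advantage of some circuit
of a size `N` with `m N ≤ r` is larger than allowed, the weight for such a circuit, otherwise the
weight for all `S₂` computations of the active tests. -/
noncomputable def Ctx.w (X : Ctx) (τ : X.Crt) (r : ℕ) (A : Orc) (u : List Bool) : ℝ :=
  if h : ∃ N, X.M₀ ≤ N ∧ X.m N ≤ r ∧ Bad X.Y.g A N (X.thr (r + 1) N) then
    (h.choose : ℝ) * wC X.ct A h.choose (X.Y.g h.choose) h.choose_spec.2.2.choose u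
  else ∑ q ∈ X.act r, ∑ a ∈ Prg.advs (q.2.2 ^ q.2.1 + q.2.1), ∑ x : Fin q.2.2 → Bool,
    wV ((X.W q.1).run a (List.ofFn x)) A (τ q.1 q.2.1 q.2.2 a x) u

/-- There are at most `4 ^ r` rows of level `r` such that the potential cells on the wrong side of the
other rows have weight at most `1`; the levels in `(r, B)` are full. -/
def Lv (Y : World) (P : ℕ → List Bool → Bool) (ω : Smp) (z : Rep) (w : Orc → List Bool → ℝ)
    (r B : ℕ) (A : Orc) (zr : Bool → Row r → Val r) : Prop :=
  ∃ K : Finset (Row r), K.card ≤ 4 ^ r ∧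
    ∑ c ∈ univ \ K, w (full (step Y P r A (ω r) zr K) (r + 1) B ω z) (wstr Y P A zr c) ≤ 1

/-- The bad event of the level `r`. -/
def Ctx.E (X : Ctx) (ω : Smp) (z : Rep) (r : ℕ) : Prop :=
  ∃ (P : ℕ → List Bool → Bool) (τ : X.Crt) (K : Exc),
    (∀ j, X.M₀ ≤ j → j < r → (K j).card ≤ 4 ^ j) ∧
    ¬ Lv X.Y P ω z (X.w τ r) r (X.b r) (X.con P K ω z r) (z r)

/-! ### Finite families of patterns and certificates -/

/-- Patterns for the levels at most `r`. -/
abbrev IP (r : ℕ) : Type := (k n : Fin (r + 1)) → (Fin (n : ℕ) → Bool) → Bool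

/-- Certificates for the active tests with base level at most `r`. -/
abbrev Ctx.IT (X : Ctx) (r : ℕ) : Type :=
  (q : ↥(X.act r)) → ↥(Prg.advs (q.1.2.2 ^ q.1.2.1 + q.1.2.1)) → (Fin q.1.2.2 → Bool) →
    Ct ((X.W q.1.1).t q.1.2.2)

noncomputable instance (X : Ctx) (r : ℕ) : Fintype (IP r × X.IT r) := instFintypeProd _ _

/-- The extended pattern. -/
def exP {r : ℕ} (p : IP r) : ℕ → List Bool → Bool := fun k x =>
  if h : k < r + 1 ∧ x.length < r + 1 then p ⟨k, h.1⟩ ⟨x.length, h.2⟩ (fun i => x.getD i false)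
  else false

/-- The extended certificates. -/
noncomputable def exT (X : Ctx) {r : ℕ} (c : X.IT r) : X.Crt := fun i k n a x =>
  if h : (i, k, n) ∈ X.act r ∧ a ∈ Prg.advs (n ^ k + k) then c ⟨(i, k, n), h.1⟩ ⟨a, h.2⟩ x
  else (false, fun _ _ => false)

/-! ### The canonical data -/

/-- The data `D'` extend the data `D` by the level `r`: certificates for all tests with base level `r`
on the oracle `J r`, patterns for the tables of level `r` which agree with the certificates of the
active tests on few words, and closing exceptional rows, if there are any. -/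
structure Ctx.Ok (X : Ctx) (r : ℕ) (D D' : X.Dat) (ω : Smp) (z : Rep) : Prop where
  hP : ∀ k x, rk k x.length ≠ r → D'.P k x = D.P k x
  hτ : ∀ i k n, rk k n ≠ r → D'.τ i k n = D.τ i k n
  hK : ∀ j, j ≠ r → D'.K j = D.K j
  cer : ∀ i k n, rk k n = r → ∀ a x, Holds ((X.W i).run a (List.ofFn x)) (X.J D.P D.K ω z r)
    (D'.τ i k n a x)
  cnt : ∀ i k n, rk k n = r → X.ν i k ≤ n → ∀ a ∈ Prg.advs (n ^ k + k),
    (Nat.card {x : Fin n → Bool // D'.P k (List.ofFn x) = (D'.τ i k n a x).1} : ℝ) ≤ avg k n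
  card : (D'.K r).card ≤ 4 ^ r
  cls : Lv X.Y D'.P ω z (X.w D'.τ r) r (X.b r) (X.con D.P D.K ω z r) (z r) →
    ∑ c ∈ univ \ D'.K r, X.w D'.τ r
      (full (step X.Y D'.P r (X.con D.P D.K ω z r) (ω r) (z r) (D'.K r)) (r + 1) (X.b r) ω z)
      (wstr X.Y D'.P (X.con D.P D.K ω z r) (z r) c) ≤ 1

open Classical in
/-- A canonical extension of the data by the level `r`. -/
noncomputable def Ctx.nxt (X : Ctx) (r : ℕ) (D : X.Dat) (ω : Smp) (z : Rep) : X.Dat :=
  if h : ∃ D', X.Ok r D D' ω z then h.choose else D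

/-- The canonical data for the levels less than `M₀ + j`. -/
noncomputable def Ctx.seq (X : Ctx) (ω : Smp) (z : Rep) : ℕ → X.Dat
  | 0 => ⟨fun _ _ => false, fun _ _ _ _ _ => (false, fun _ _ => false), fun _ => ∅⟩
  | j + 1 => X.nxt (X.M₀ + j) (Ctx.seq X ω z j) ω z

/-- The canonical data for the levels less than `r`. -/
noncomputable def Ctx.D (X : Ctx) (ω : Smp) (z : Rep) (r : ℕ) : X.Dat := X.seq ω z (r - X.M₀)

/-- The reference oracle for the level `r` and the canonical data. -/
noncomputable def Ctx.JD (X : Ctx) (ω : Smp) (z : Rep) (r : ℕ) : Orc :=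
  X.J (X.D ω z r).P (X.D ω z r).K ω z r

/-- The canonical data for all levels. -/
noncomputable def Ctx.DI (X : Ctx) (ω : Smp) (z : Rep) : X.Dat where
  P k x := (X.D ω z (rk k x.length + 1)).P k x
  τ i k n := (X.D ω z (rk k n + 1)).τ i k n
  K r := (X.D ω z (r + 1)).K r

/-- No bad event happens at the level `r`. -/
def Ctx.G (X : Ctx) (ω : Smp) (z : Rep) (r : ℕ) : Prop := X.M₀ ≤ r → ¬ X.E ω z r ∧
  ¬ Bad X.Y.g (X.JD ω z (X.m r)) r (1 / (2 * r))

/-- The properties of the final data. -/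
structure Ctx.Fix (X : Ctx) (P : ℕ → List Bool → Bool) (τ : X.Crt) (K : Exc) (ω : Smp) (z : Rep) :
    Prop where
  card : ∀ r, X.M₀ ≤ r → (K r).card ≤ 4 ^ r
  cls : ∀ r, X.M₀ ≤ r → ∑ c ∈ univ \ K r, X.w τ r (X.Jp P K ω z r)
    (wstr X.Y P (X.con P K ω z r) (z r) c) ≤ 1
  cer : ∀ i k n, X.M₀ ≤ rk k n → ∀ a x, Holds ((X.W i).run a (List.ofFn x))
    (X.J P K ω z (rk k n)) (τ i k n a x)
  cnt : ∀ i k n, X.ν i k ≤ n → ∀ a ∈ Prg.advs (n ^ k + k),
    (Nat.card {x : Fin n → Bool // P k (List.ofFn x) = (τ i k n a x).1} : ℝ) ≤ avg k n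
  bad : ∀ N, X.M₀ ≤ N → ¬ Bad X.Y.g (X.J P K ω z (X.m N)) N (1 / (2 * N))

end Pool.Agent.Lib.MP_ff3ed7_lc.Prg3
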