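import Pool.Agent.Lib.MP_ff3ed7_lc.Prg3.Spec

set_option autoImplicit false

namespace Pool.Agent.Lib.MP_ff3ed7_lc.Prg3

open Finset
open Pool.Agent.Lib.MP_ff3ed7_lc.Prg (frac qf path gr cut)
open Pool.Agent.Lib.MP_ff3ed7_lc.Prg2

namespace Fix

/-- The oracle of the filled levels depends only on the values below. -/
theorem con_congr (hDpP : S_DpP) (hDep : Prg2.S_Dep) (X : Ctx) (P P' : ℕ → List Bool → Bool)
    (K K' : Exc) (ω : Smp) (z : Rep) (r : ℕ) (hr : X.M₀ ≤ r)
    (hP : ∀ k x, rk k x.length < r → P k x = P' k x) (hK : ∀ j < r, K j = K' j) :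
    X.con P K ω z r = X.con P' K' ω z r := by
  unfold Ctx.con
  rw [(hDpP X.Y P P' X.M₀).1 ω z K (r - X.M₀) X.A₀ (fun k x _ h => hP k x (by omega))]
  exact (hDep X.Y P' ω ω z z K K' (fun _ _ => 0) 0 X.M₀ (r - X.M₀) X.A₀
    (fun i _ h => ⟨rfl, rfl, hK i (by omega)⟩)).1

/-- One more level. -/
theorem con_succ (hRun : Prg2.S_Run) (X : Ctx) (P : ℕ → List Bool → Bool) (K : Exc) (ω : Smp)
    (z : Rep) (r : ℕ) (hr : X.M₀ ≤ r) :
    X.con P K ω z (r + 1) = step X.Y P r (X.con P K ω z r) (ω r) (z r) (K r) := by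
  obtain ⟨j, rfl⟩ := Nat.exists_eq_add_of_le hr
  unfold Ctx.con
  have h1 : X.M₀ + j + 1 - X.M₀ = j + 1 := by omega
  have h2 : X.M₀ + j - X.M₀ = j := by omega
  rw [h1, h2, (hRun X.Y P ω z K).2.1 X.M₀ j 1 X.A₀]
  rfl

/-- The weight uses only the certificates with base level at most `r`. -/
theorem w_congr (X : Ctx) (τ τ' : X.Crt) (r : ℕ)
    (h : ∀ i k n, rk k n ≤ r → τ i k n = τ' i k n) : X.w τ r = X.w τ' r := by
  funext A u
  unfold Ctx.w
  split_ifs with h1
  · rfl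
  · refine Finset.sum_congr rfl fun q hq => ?_
    have hq' : rk q.2.1 q.2.2 ≤ r := by
      unfold Ctx.act at hq
      exact (Finset.mem_filter.1 hq).2.1
    rw [h q.1 q.2.1 q.2.2 hq']

end Fix

/-- The properties of the final data. -/
theorem tFix (hSeq : S_Seq) (hStb : S_Stb) (hDpP : S_DpP) (hDep : Prg2.S_Dep)
    (hRun : Prg2.S_Run) : S_Fix := by
  intro X ω z hG
  have hcD : ∀ r, X.M₀ ≤ r → X.con (X.D ω z r).P (X.D ω z r).K ω z r =
      X.con (X.DI ω z).P (X.DI ω z).K ω z r := fun r hr =>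
    Fix.con_congr hDpP hDep X _ _ _ _ ω z r hr (hStb X ω z r).1 (hStb X ω z r).2.2
  have hJ : ∀ r, X.M₀ ≤ r → X.J (X.D ω z r).P (X.D ω z r).K ω z r =
      X.J (X.DI ω z).P (X.DI ω z).K ω z r := by
    intro r hr
    unfold Ctx.J
    rw [hcD r hr]
  have hcard : ∀ r, X.M₀ ≤ r → ((X.DI ω z).K r).card ≤ 4 ^ r := fun r hr =>
    (hSeq X ω z r hr).card
  refine ⟨hcard, ?_, ?_, ?_, ?_⟩
  · intro r hr
    have hnE := (hG r hr).1
    have hOk := hSeq X ω z r hr
    have hc' : X.con (X.D ω z (r + 1)).P (X.D ω z r).K ω z r =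
        X.con (X.D ω z r).P (X.D ω z r).K ω z r :=
      Fix.con_congr hDpP hDep X _ _ _ _ ω z r hr
        (fun k x h => by
          rw [(hStb X ω z (r + 1)).1 k x (by omega), (hStb X ω z r).1 k x h])
        (fun _ _ => rfl)
    have hLv : Lv X.Y (X.D ω z (r + 1)).P ω z (X.w (X.D ω z (r + 1)).τ r) r (X.b r)
        (X.con (X.D ω z r).P (X.D ω z r).K ω z r) (z r) := by
      by_contra hn
      refine hnE ⟨(X.D ω z (r + 1)).P, (X.D ω z (r + 1)).τ, (X.D ω z r).K, ?_, ?_⟩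
      · intro j hj hjr
        rw [(hStb X ω z r).2.2 j hjr]
        exact hcard j hj
      · rw [hc']
        exact hn
    have hcls := hOk.cls hLv
    have hst := (hDpP X.Y (X.D ω z (r + 1)).P (X.DI ω z).P r).2
      (X.con (X.DI ω z).P (X.DI ω z).K ω z r) (ω r) (z r)
      (fun k x h => (hStb X ω z (r + 1)).1 k x (by omega))
    have hw : X.w (X.D ω z (r + 1)).τ r = X.w (X.DI ω z).τ r :=
      Fix.w_congr X _ _ r fun i k n h => (hStb X ω z (r + 1)).2.1 i k n (by omega)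
    have hK : (X.D ω z (r + 1)).K r = (X.DI ω z).K r := rfl
    rw [hcD r hr, hw, hK] at hcls
    rw [hst.1 ((X.DI ω z).K r)] at hcls
    unfold Ctx.Jp
    rw [Fix.con_succ hRun X _ _ ω z r hr]
    refine le_trans (le_of_eq ?_) hcls
    refine Finset.sum_congr rfl fun c _ => ?_
    rw [hst.2 c]
  · intro i k n hk a x
    have h := (hSeq X ω z (rk k n) hk).cer i k n rfl a x
    rw [hJ _ hk] at h
    exact h
  · intro i k n hν a ha
    have hM : X.M₀ ≤ rk k n := by
      have := (X.ν_M i k n hν).1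
      unfold rk
      omega
    have h := (hSeq X ω z (rk k n) hM).cnt i k n rfl hν a ha
    refine le_trans (le_of_eq ?_) h
    refine congrArg (Nat.cast) (Nat.card_congr (Equiv.subtypeEquivRight fun x => ?_))
    have h1 : (X.DI ω z).P k (List.ofFn x) =
        (X.D ω z (rk k n + 1)).P k (List.ofFn x) := by
      show (X.D ω z (rk k (List.ofFn x).length + 1)).P k (List.ofFn x) = _
      rw [List.length_ofFn]
    rw [h1]
    rfl
  · intro N hN
    have h := (hG N hN).2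
    unfold Ctx.JD at h
    rw [hJ _ (X.m_ge N)] at h
    exact h

end Pool.Agent.Lib.MP_ff3ed7_lc.Prg3
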