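import Pool.Agent.Lib.MP_ff3ed7_lc.Prg3.Spec

/-!
Hybrid step for machines (`S_Hm`).
-/

set_option autoImplicit false

namespace Pool.Agent.Lib.MP_ff3ed7_lc.Prg3

open Finset
open Pool.Agent.Lib.MP_ff3ed7_lc.Prg (frac qf path gr cut)
open Pool.Agent.Lib.MP_ff3ed7_lc.Prg2

namespace Hm

/-- Two oracles which differ only on `D` have close acceptance probabilities. -/
private theorem pr_sub (V : S2) (A J : Orc) (D : Finset (List Bool))
    (h : ∀ u, u ∉ D → A u = J u) (y : Fin V.p → Bool) (z : Fin V.q → Bool) :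
    |V.pr J y z - V.pr A y z| ≤ ∑ u ∈ D, qf A (V.T y z) u := by
  unfold S2.pr
  rw [Prg.prob_eq_frac, Prg.prob_eq_frac]
  exact Prg.abs_frac_sub_le A J (V.T y z) D h

/-- The total weight. -/
private theorem sum_w (b : ℕ) (D : Finset (List Bool))
    (f : Fin (1152 * (b + 1)) → List Bool → ℝ)
    (h : ∑ u ∈ D, 1 / 48 * ∑ i, f i u ≤ 1) :
    ∑ i, ∑ u ∈ D, f i u ≤ 48 := by
  rw [← Finset.mul_sum, Finset.sum_comm] at h
  linarith

end Hm

theorem tHm : S_Hm := by
  intro V b O O' c D e hO hw hH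
  constructor
  · intro hc z
    have h1 := hH.1 hc (mz V O' c)
    have h2 := (exists_mz V O' c).choose_spec z
    have h3 : ∑ i, ∑ u ∈ D, qf O' (V.T (cut (c.2 i) V.p) (mz V O' c)) u ≤ 48 := by
      refine Hm.sum_w b D _ (le_trans (le_of_eq ?_) hw)
      refine Finset.sum_congr rfl fun u _ => ?_
      unfold wV
      simp only [hc, if_true]
    have h4 : ∑ i, V.pr O (cut (c.2 i) V.p) (mz V O' c) ≤
        ∑ i, (V.pr O' (cut (c.2 i) V.p) (mz V O' c) +
          ∑ u ∈ D, qf O' (V.T (cut (c.2 i) V.p) (mz V O' c)) u) := by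
      refine Finset.sum_le_sum fun i _ => ?_
      have h6 := abs_le.1 (Hm.pr_sub V O' O D hO (cut (c.2 i) V.p) (mz V O' c))
      linarith [h6.2]
    rw [Finset.sum_add_distrib] at h4
    have h5 : ∑ i, V.pr O' (cut (c.2 i) V.p) (mz V O' c) ≤
        ∑ i, V.pr O' (cut (c.2 i) V.p) z := h2
    linarith
  · intro hc y
    have h1 := hH.2 hc (my V O' c)
    have h2 := (exists_my V O' c).choose_spec y
    have h3 : ∑ i, ∑ u ∈ D, qf O' (V.T (my V O' c) (cut (c.2 i) V.q)) u ≤ 48 := by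
      refine Hm.sum_w b D _ (le_trans (le_of_eq ?_) hw)
      refine Finset.sum_congr rfl fun u _ => ?_
      unfold wV
      simp only [hc, Bool.false_eq_true, if_false]
    have h4 : ∑ i, (V.pr O' (my V O' c) (cut (c.2 i) V.q) -
          ∑ u ∈ D, qf O' (V.T (my V O' c) (cut (c.2 i) V.q)) u) ≤
        ∑ i, V.pr O (my V O' c) (cut (c.2 i) V.q) := by
      refine Finset.sum_le_sum fun i _ => ?_
      have h6 := abs_le.1 (Hm.pr_sub V O' O D hO (my V O' c) (cut (c.2 i) V.q))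
      linarith [h6.1]
    rw [Finset.sum_sub_distrib] at h4
    have h5 : ∑ i, V.pr O' y (cut (c.2 i) V.q) ≤
        ∑ i, V.pr O' (my V O' c) (cut (c.2 i) V.q) := h2
    linarith

end Pool.Agent.Lib.MP_ff3ed7_lc.Prg3
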