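import Pool.Agent.Lib.MP_ff3ed7_lc.Prg3.Spec

/-!
Theorem AE (MP_ff3ed7_lc): the numbers (`S_Nm`).
-/

set_option autoImplicit false

namespace Pool.Agent.Lib.MP_ff3ed7_lc.Prg3

open Finset
open Pool.Agent.Lib.MP_ff3ed7_lc.Prg (frac qf path gr cut)
open Pool.Agent.Lib.MP_ff3ed7_lc.Prg2

/-- a power of two is larger than a linear function -/
private theorem Nm_lin (q : ℕ) (hq : 8 ≤ q) : 8 * q + 8 ≤ 2 ^ q := by
  induction q, hq using Nat.le_induction with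
  | base => norm_num
  | succ q _ ih =>
    rw [pow_succ]
    omega

theorem tNm : S_Nm := by
  intro r n t hr hn ht
  obtain ⟨q, hq⟩ : ∃ q, q = r / 8 := ⟨_, rfl⟩
  have hq8 : 8 ≤ q := by omega
  have hqr : 8 * q ≤ r := by omega
  have hrq : r < 8 * (q + 1) := by omega
  have h1 : t ^ 2 ≤ 2 ^ (q + 1) := by
    have h2 : (t ^ 2) ^ 8 < (2 ^ (q + 1)) ^ 8 := by
      calc (t ^ 2) ^ 8 = t ^ 16 := by ring
        _ ≤ 2 ^ n := ht
        _ < 2 ^ ((q + 1) * 8) := Nat.pow_lt_pow_right (by norm_num) (by omega)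
        _ = (2 ^ (q + 1)) ^ 8 := by rw [pow_mul]
    exact (lt_of_pow_lt_pow_left₀ 8 (Nat.zero_le _) h2).le
  have h2 : (t + 1) * t ≤ 2 * 2 ^ (q + 1) := by
    have h3 : (t + 1) * t ≤ 2 * t ^ 2 := by nlinarith [Nat.le_self_pow (two_ne_zero) t]
    exact h3.trans (Nat.mul_le_mul_left 2 h1)
  have h3 : (r + 1) ^ 3 ≤ 2 ^ (3 * q) := by
    have h4 : r + 1 ≤ 2 ^ q := le_trans (by omega) (Nm_lin q hq8)
    calc (r + 1) ^ 3 ≤ (2 ^ q) ^ 3 := Nat.pow_le_pow_left h4 3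
      _ = 2 ^ (3 * q) := by rw [← pow_mul, mul_comm]
  have h5 : 1 ≤ 2 ^ (q + 1) := Nat.one_le_two_pow
  have h6 : 24 * (t + 1) * t ≤ 2 ^ 6 * 2 ^ (q + 1) := by nlinarith
  have h7 : 1 + 1152 * (t + 1) * t ≤ 2 ^ 12 * 2 ^ (q + 1) := by nlinarith
  have h8 : (r + 1) ≤ 2 ^ q := le_trans (by omega) (Nm_lin q hq8)
  refine ⟨?_, ?_⟩
  · calc (r + 1) ^ 3 * (2 ^ (r + 1) * (24 * (t + 1) * t))
        ≤ 2 ^ (3 * q) * (2 ^ (r + 1) * (2 ^ 6 * 2 ^ (q + 1))) :=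
          Nat.mul_le_mul h3 (Nat.mul_le_mul_left _ h6)
      _ = 2 ^ (3 * q + (r + 1 + (6 + (q + 1)))) := by ring
      _ ≤ 2 ^ (2 * r - 3) := Nat.pow_le_pow_right (by norm_num) (by omega)
  · have h9 : (r + 1) ^ 3 * (2 ^ (r + 1) * (1 + 1152 * (t + 1) * t)) ≤ 2 ^ (2 * r - 1) := by
      calc (r + 1) ^ 3 * (2 ^ (r + 1) * (1 + 1152 * (t + 1) * t))
          ≤ 2 ^ (3 * q) * (2 ^ (r + 1) * (2 ^ 12 * 2 ^ (q + 1))) :=
            Nat.mul_le_mul h3 (Nat.mul_le_mul_left _ h7)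
        _ = 2 ^ (3 * q + (r + 1 + (12 + (q + 1)))) := by ring
        _ ≤ 2 ^ (2 * r - 1) := Nat.pow_le_pow_right (by norm_num) (by omega)
    have h10 : (r + 1) * 2 ^ (r + 1) ≤ 2 ^ (2 * r - 1) := by
      calc (r + 1) * 2 ^ (r + 1) ≤ 2 ^ q * 2 ^ (r + 1) := Nat.mul_le_mul_right _ h8
        _ = 2 ^ (q + (r + 1)) := (pow_add 2 q (r + 1)).symm
        _ ≤ 2 ^ (2 * r - 1) := Nat.pow_le_pow_right (by norm_num) (by omega)
    calc (r + 1) ^ 3 * (2 ^ (r + 1) * (1 + 1152 * (t + 1) * t)) + (r + 1) * 2 ^ (r + 1)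
        ≤ 2 ^ (2 * r - 1) + 2 ^ (2 * r - 1) := Nat.add_le_add h9 h10
      _ = 2 ^ (2 * r - 1 + 1) := by rw [pow_succ]; ring
      _ = 4 ^ r := by
        rw [show (4 : ℕ) = 2 ^ 2 by norm_num, ← pow_mul]
        congr 1
        omega

end Pool.Agent.Lib.MP_ff3ed7_lc.Prg3
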