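import Pool.Agent.Lib.MP_ff3ed7_lc.Prg2.Spec
import Pool.Agent.Lib.MP_ff3ed7_lc.Prg3.Base

/-!
SPEC for theorem AE (MP_ff3ed7_lc, note 4001).  Every `S_X` is a statement, to be proved as
`theorem tX … : S_X` in the file `Prg3/X.lean` (hypotheses `hY : S_Y` for the statements which are
used, in the order of the docstring).  The definitions are in `Prg2/Defs.lean`, `Prg2/Base.lean` and
`Prg3/Base.lean`; the general lemmas on `frac`, `path`, `qf` are in `Prg/Base.lean`.  Statements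
`Prg2.S_X` and `Prg.S_X` are already proved (files `Prg2/X.lean`, `Prg/X.lean`); they are used as
hypotheses as well (do not import their files).

THE IDEA.  `con r` = the oracle with filled levels less than `r`; `J r` = the same with both sides
full on the levels in `[r, b r)`; `Jp r` = filled levels less than `r + 1`, full on `[r + 1, b r)`.  `J r`
and `Jp r` differ only at the potential cells of level `r` on the wrong side in the rows outside of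
`K r`; `Jp r` and `J (r + 1)` agree on the levels less than `b r`, and the tests with base level at most
`r` see only these levels.  The set `K r` is closing: on `Jp r` these cells have weight at most `1`.
-/

set_option autoImplicit false

namespace Pool.Agent.Lib.MP_ff3ed7_lc.Prg3

open Finset
open Pool.Agent.Lib.MP_ff3ed7_lc.Prg (frac qf path gr cut)
open Pool.Agent.Lib.MP_ff3ed7_lc.Prg2

/-! ### A.  Dependence -/

/-- DEPENDENCE ON THE PATTERN (uses nothing).  PROOF.  `truth Y P A c.1.1` for a row `c` of level `r`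
uses `P` only at `k, x` with `rk k x.length = r` (`c.1.2`); so `step` and `wstr` are equal; the first part
by induction on `j` (generalizing `r`, `A`). -/
def S_DpP : Prop := ∀ (Y : World) (P P' : ℕ → List Bool → Bool) (r : ℕ),
  (∀ (ω : Smp) (z : Rep) (K : Exc) (j : ℕ) (A : Orc),
    (∀ k x, r ≤ rk k x.length → rk k x.length < r + j → P k x = P' k x) →
    run Y P ω z K r j A = run Y P' ω z K r j A) ∧
  ∀ (A : Orc) (ωr : Fin (16 * r ^ 6) → Fin r → Bool) (zr : Bool → Row r → Val r),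
    (∀ k x, rk k x.length = r → P k x = P' k x) →
    (∀ Kr, step Y P r A ωr zr Kr = step Y P' r A ωr zr Kr) ∧ ∀ c, wstr Y P A zr c = wstr Y P' A zr c

/-- `full` AT ONE STRING (uses `Prg2.S_Put`, the last part).  PROOF.  Both are
`put (lev u) _ (ω (lev u)) _ u`, with the same samples and contents and `lev u ≥ 1`. -/
def S_Ful : Prop := ∀ (A A' : Orc) (M M₁ M' M₁' : ℕ) (ω ω' : Smp) (z z' : Rep) (u : List Bool),
  1 ≤ lev u → M ≤ lev u → lev u < M₁ → M' ≤ lev u → lev u < M₁' → ω (lev u) = ω' (lev u) →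
  z (lev u) = z' (lev u) → full A M M₁ ω z u = full A' M' M₁' ω' z' u

/-- LOCALITY (uses `Prg2.S_Dep`, `S_Ful`).  PROOF.  Note `r < X.b r` (`X.b_iff`, `X.m_le`).  `con`: by
`Prg2.S_Dep` (levels in `[M₀, r)`).  `J`: `full` at levels in `[r, b r)` by `S_Ful`, elsewhere it is `con`.
`E`: for all `P, τ, K` the two properties `Lv` are equivalent, because `con`, `ω r`, `z r` and
`full _ (r + 1) (X.b r)` are equal.  `Ok`: the same. -/
def S_LcA : Prop := ∀ (X : Ctx) (ω ω' : Smp) (z z' : Rep) (N : ℕ),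
  (∀ j < N, ω j = ω' j ∧ z j = z' j) → ∀ r, X.M₀ ≤ r →
  (r ≤ N → ∀ P K, X.con P K ω z r = X.con P K ω' z' r) ∧
  (X.b r ≤ N → (∀ P K, X.J P K ω z r = X.J P K ω' z' r) ∧ (X.E ω z r ↔ X.E ω' z' r) ∧
    ∀ D D', X.Ok r D D' ω z ↔ X.Ok r D D' ω' z')

/-- THE CANONICAL DATA DEPEND ONLY ON THE WINDOW (uses `S_LcA`).  PROOF.  `D`: induction on
`r - M₀` for `seq`; in the step the predicates `fun D' => X.Ok s D D' ω z` and
`fun D' => X.Ok s D D' ω' z'` are equal (`funext`, `propext`, `S_LcA`), hence the chosen data are equal.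
`JD`: with the second part of `S_LcA` for `r`. -/
def S_Cau : Prop := ∀ (X : Ctx) (ω ω' : Smp) (z z' : Rep) (N : ℕ),
  (∀ j < N, ω j = ω' j ∧ z j = z' j) → ∀ r,
  ((∀ s, X.M₀ ≤ s → s < r → X.b s ≤ N) → X.D ω z r = X.D ω' z' r) ∧
  (X.M₀ ≤ r → (∀ s, X.M₀ ≤ s → s ≤ r → X.b s ≤ N) → X.JD ω z r = X.JD ω' z' r)

/-- THE CONDITIONS ARE LOCAL (uses `S_LcA`, `S_Cau`).  PROOF.  `N = X.b r`; for `r < M₀` nothing is to
be shown.  `b` is monotone (`X.b_iff`) and `X.m r ≤ r`, so `S_Cau` applies to `JD … (X.m r)`. -/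
def S_GLc : Prop := ∀ (X : Ctx) (r : ℕ), ∃ N, ∀ (ω ω' : Smp) (z z' : Rep),
  (∀ j < N, ω j = ω' j ∧ z j = z' j) → X.G ω z r → X.G ω' z' r

/-! ### B.  One level -/

/-- ONE LEVEL, EVERYTHING ELSE FIXED (uses `Prg.S_Clo`, `Prg2.S_Put`).  PROOF.  As `Prg2/LvA.lean` (with
`ε = 1` and `full … (r + 1) B ω z` instead of `fin … (r + 1) j`).  Let `tr c = truth Y P A c.1.1`.  The map
`zr ↦ (fix, var)`, `fix c = zr (tr c) c`, `var c = zr (!tr c) c` is a bijection, and it suffices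
(`Prg.frac_prod_le`) to bound the fraction of the `var` for every fixed `fix`.  For a finite set `S` of
pairs (row, reply) let `O S = full (put r A (ω r) B_S) (r + 1) B ω z` with
`B_S s c y = if s = tr c then decide (fix c = y) else decide ((c, y) ∈ S)`.  Apply `Prg.S_Clo` with
`ι = Row r`, `σ = Val r` (`|σ| = 2 ^ (4 r)`), `k = 4 ^ r`, the weights `w (O S) (cstr (!tr c) c y)` of the
pair `(c, y)`; their sum is at most `t`, because `(c, y) ↦ cstr (!tr c) c y` is injective.  If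
`S ⊆ gr var`, `S.card ≤ 4 ^ r` and `∑ over gr var \ S ≤ 1`, then `K = S.image Prod.fst` works. -/
def S_LvA : Prop := ∀ (Y : World) (P : ℕ → List Bool → Bool) (ω : Smp) (z : Rep)
  (w : Orc → List Bool → ℝ) (t : ℝ) (r B : ℕ) (A : Orc), (∀ O u, 0 ≤ w O u) →
  (∀ O (D : Finset (List Bool)), ∑ u ∈ D, w O u ≤ t) →
  frac (fun zr : Bool → Row r → Val r => ¬ Lv Y P ω z w r B A zr) ≤
    (t / 2 ^ (4 * r)) ^ (4 ^ r + 1)

/-- ONE LEVEL, UNION BOUND (uses `S_LvA`, `Prg2.S_Dep`, `Prg2.S_CtK`).  PROOF.  As `Prg2/LvB.lean`: for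
fixed `i`, `K` split off the coordinate `r` of `z`; `Lv` depends on the other coordinates through
`run … K M (r - M) A` (levels in `[M, r)`) and `full … (r + 1) B ω (exR z)` (levels above `r`), so for fixed
other coordinates the fraction is at most the bound of `S_LvA`.  Only the values of `K` in `[M, r)`
matter (`Prg2.S_Dep`), so it is a union over `ι` and over the type of `Prg2.S_CtK`. -/
def S_LvB : Prop := ∀ (ι : Type) [Fintype ι] (Y : World) (P : ι → ℕ → List Bool → Bool) (ω : Smp)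
  (w : ι → Orc → List Bool → ℝ) (t : ℝ) (M R r B : ℕ) (A : Orc), (∀ i O u, 0 ≤ w i O u) →
  (∀ i O (D : Finset (List Bool)), ∑ u ∈ D, w i O u ≤ t) → 6 ≤ M → M ≤ r → r < R →
  frac (fun z : (j : Fin R) → Bool → Row j → Val j => ∃ (i : ι) (K : Exc),
    (∀ j, M ≤ j → j < r → (K j).card ≤ 4 ^ j) ∧
    ¬ Lv Y (P i) ω (exR z) (w i) r B (run Y (P i) ω (exR z) K M (r - M) A) (exR z r)) ≤
    Fintype.card ι * 2 ^ (2 * r * (4 ^ r - 4 ^ M)) * (t / 2 ^ (4 * r)) ^ (4 ^ r + 1)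

/-- NUMBERS (uses nothing).  PROOF.  `t = 0` is trivial; for `t ≥ 1`: `24 (t+1) t ≤ 48 t^2`,
`1 + 1152 (t+1) t ≤ 2^12 t^2`, and `t^2 ≤ 2 ^ (n/8 + 1) ≤ 2 ^ (r/8 + 1)`, as
`(t^2)^8 = t^16 ≤ 2^n < (2 ^ (n/8+1))^8`.  `r + 1 ≤ 2 ^ (r/8)` for `r ≥ 64` (write `r = 8 q + s`, `q ≥ 8`:
`8 q + 8 ≤ 2 ^ q`), so `(r+1)^3 ≤ 2 ^ (3 (r/8))`.  With `q = r/8`, `8 q ≤ r`: the first exponent is
`3q + r + 1 + 6 + q + 1 ≤ 2r - 3`; the second sum is at most
`2 ^ (3q + r + 1 + 12 + q + 1) + 2 ^ (r + 1 + q) ≤ 2 ^ (2r - 1) + 2 ^ (2r - 1)`. -/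
def S_Nm : Prop := ∀ r n t : ℕ, 64 ≤ r → n ≤ r → t ^ 16 ≤ 2 ^ n →
  (r + 1) ^ 3 * (2 ^ (r + 1) * (24 * (t + 1) * t)) ≤ 2 ^ (2 * r - 3) ∧
  (r + 1) ^ 3 * (2 ^ (r + 1) * (1 + 1152 * (t + 1) * t)) + (r + 1) * 2 ^ (r + 1) ≤ 4 ^ r

/-- THE WEIGHTS ARE BOUNDED (uses `S_Nm`, `Prg.S_Adv`; see `Prg2/WgB.lean`).  PROOF.  First case of
`X.w`: the sum of `wC` is at most `2 N (N 2^g + N 2^g)`, times `N`, `X.m_g` and `m N ≤ r`.  Second case:
`wV` has sum at most `(1/48) * 1152 (t+1) * t = 24 (t+1) t` over `D` (`Prg.sum_qf_le`, `X.W i` is bounded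
by `t = t n`), there are fewer than `2 ^ (n^k+k+1)` advice strings and `2 ^ n` inputs, together at most
`2 ^ (rk k n + 1) ≤ 2 ^ (r + 1)`, and at most `(r+1)^3` active tests; `X.ν_t` gives `t^16 ≤ 2^n`, `n ≤ r`. -/
def S_Wb : Prop := ∀ (X : Ctx) (τ : X.Crt) (r : ℕ), X.M₀ ≤ r → (∀ A u, 0 ≤ X.w τ r A u) ∧
  ∀ A (D : Finset (List Bool)), ∑ u ∈ D, X.w τ r A u ≤ 2 ^ (2 * r - 3)

/-- NUMBER OF PATTERNS AND CERTIFICATES (uses `S_Nm`, `Prg.S_Adv`).  PROOF.  `Fintype.card_pi` etc.: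
`card (IP r) = 2 ^ (∑ k ≤ r, ∑ n ≤ r, 2 ^ n) ≤ 2 ^ ((r + 1) 2 ^ (r+1))`, and `card (X.IT r)` is the
product over the active tests of `(2 * (2 ^ t) ^ (1152 (t+1))) ^ (2 ^ n * |advs|)`, with
`2 ^ n * |advs| ≤ 2 ^ (r + 1)`: the exponent of `2` is at most the second expression in `S_Nm` for the
worst test (at most `(r+1)^3` tests). -/
def S_Ct : Prop := ∀ (X : Ctx) (r : ℕ), X.M₀ ≤ r →
  (Fintype.card (IP r × X.IT r) : ℝ) ≤ 2 ^ (4 ^ r)

/-- THE BAD EVENT OF ONE LEVEL IS RARE (uses `S_LvB`, `S_Wb`, `S_Ct`, `S_DpP`).  PROOF.  `S_LvB` with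
`ι = IP r × X.IT r`, `P i = exP i.1`, `w i = X.w (exT X i.2) r`, `t = 2 ^ (2 r - 3)`, `M = M₀`, `B = X.b r`.
If `E` holds with `P, τ, K`, take `i.1 k n x = P k (ofFn x)` and `i.2 q a x = τ … a x`: then
`exP i.1 k x = P k x` if `rk k x.length ≤ r`, `X.w (exT X i.2) r = X.w τ r` (only the certificates of
active tests and of advice strings in `advs` occur), so by `S_DpP` the property `Lv` is the same.  The
bound: `2^(4^r) * 2^(2r(4^r - 4^M₀)) * (2^(2r-3)/2^(4r))^(4^r+1)`, the exponent is at most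
`4^r + 2r 4^r - (2r+3)(4^r+1) ≤ - (2r+3)`. -/
def S_LvE : Prop := ∀ (X : Ctx) (ω : Smp) (r R : ℕ), X.M₀ ≤ r → r < R →
  frac (fun z : (j : Fin R) → Bool → Row j → Val j => X.E ω (exR z) r) ≤ (1 / 2) ^ (2 * r + 3)

/-! ### C.  The choice of samples and replies -/

/-- RANDOM SAMPLES ARE GOOD (uses `Prg.S_Tri`, `Prg2.S_CirN`, `Prg2.S_Str`, `Prg2.S_Put`, `S_Cau`,
`S_Ful`; see `Prg2/Loc.lean`).  PROOF.  `Prg.S_Tri` with `M = R`, `a = M₀`,
`𝒞 N = Circ N (g N) × (Fin (g N) → Bool)`, `h ω N C ρ = (evalQ (X.JD (exS ω) z (X.m N)) C.1 C.2 ρ = true)`.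
If `ω, ω'` agree below `N` (for `N < M₀` take `h` false, or note that `S_Tri` needs the dependence
for all `N`: use `h ω N C ρ = (M₀ ≤ N ∧ …)`): for `s < m N` one has `b s ≤ N` (otherwise `N < b s`, so
`m N ≤ s`), hence `D` at `m N` is the same (`S_Cau`), and the oracle `J` at `m N` is the same on the
levels less than `N` (`con` by `Prg2.S_Dep`, or: `S_Cau` with `r = m N` for the data and `S_LcA`; on
`[m N, N)` by `S_Ful`); the trees `ct.T N` ask only strings of length at most `N`, of level less than `N`.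
`gen (X.JD (exS ω) z (X.m N)) N i = ω N i`, because `m N ≤ N < b (m N)` (`full` and `put` at a sample).
`(1/2)^(M₀^3) / 8 ≤ 1/8`. -/
def S_Hof : Prop := ∀ (X : Ctx) (R : ℕ) (z : Rep),
  frac (fun ω : (N : Fin R) → Fin (16 * (N : ℕ) ^ 6) → Fin N → Bool =>
    ∃ N, X.M₀ ≤ N ∧ N < R ∧ Bad X.Y.g (X.JD (exS ω) z (X.m N)) N (1 / (2 * N))) ≤ 1 / 8

/-- FINITE HORIZON (uses `S_LvE`, `S_Hof`).  PROOF.  For every `ω` the fraction of the `z` with `E` at
some level in `[M₀, R)` is at most `∑ r ∈ [M₀, R), (1/2)^(2r+3) ≤ 1/4` (`Prg.frac_exists_le` over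
`Fin R`); for every `z` the fraction of the bad `ω` is at most `1/8`.  So some pair is good
(`Prg.frac_prod_le` in both orders, `Prg.frac_or_le`, `Prg.exists_not_of_frac_lt_one`, see
`Prg2/Pik.lean`); take `exS ω`, `exR z`. -/
def S_Hor : Prop := ∀ (X : Ctx) (R : ℕ), ∃ (ω : Smp) (z : Rep), ∀ r < R, X.G ω z r

/-- COMPACTNESS (uses nothing).  PROOF.  Give every `T j` the discrete topology; the product is
compact (`Pi.compactSpace`, `Finite.compactSpace`), the sets `{X | ∀ r < R, G r X}` are nonempty,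
decreasing and closed (even clopen: a set which depends only on the coordinates less than `B` is
open, and its complement also), so they have a common point
(`IsCompact.nonempty_iInter_of_sequence_nonempty_isCompact_isClosed`). -/
def S_Cpt : Prop := ∀ (T : ℕ → Type) [∀ j, Finite (T j)] [∀ j, Nonempty (T j)]
  (G : ℕ → ((j : ℕ) → T j) → Prop),
  (∀ r, ∃ B, ∀ X X' : (j : ℕ) → T j, (∀ j < B, X j = X' j) → G r X → G r X') →
  (∀ R, ∃ X, ∀ r < R, G r X) → ∃ X, ∀ r, G r X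

/-- GOOD SAMPLES AND REPLIES EXIST (uses `S_Hor`, `S_Cpt`, `S_GLc`).  PROOF.  `S_Cpt` with
`T j = (Fin (16 * j ^ 6) → Fin j → Bool) × (Bool → Row j → Val j)`. -/
def S_Gd : Prop := ∀ X : Ctx, ∃ (ω : Smp) (z : Rep), ∀ r, X.G ω z r

/-! ### D.  The data -/

/-- CHOICE OF THE PATTERN (uses `Prg.S_Hoe`; see `Prg2/FCh.lean`).  PROOF.  Let `l = 2 sqrt (s / 2^n)`, so
`l^2 2^n / 4 = s` and `l 2^n = 2 sqrt (s 2^n)`.  If `l > 1` every `f` works, because the number is at most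
`2^n`.  Otherwise for fixed `i` the map `f ↦ fun x => decide (f x = o i x)` is a bijection; `Prg.S_Hoe` with
`Ω = Bool`, `E = (· = true)` (`frac E = 1/2`), `K = 2 ^ n` (`Fin (2 ^ n) ≃ (Fin n → Bool)`): the fraction of
the `f` which agree with `o i` on more than `(1/2 + l) 2 ^ n` words is at most `2 exp (- s)`; union bound
over `i`. -/
def S_FCi : Prop := ∀ (n : ℕ) (s : ℝ) (ι : Type) [Fintype ι] (o : ι → (Fin n → Bool) → Bool),
  0 ≤ s → (Fintype.card ι : ℝ) * (2 * Real.exp (-s)) < 1 →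
  ∃ f : (Fin n → Bool) → Bool, ∀ i,
    (Nat.card {x // f x = o i x} : ℝ) ≤ 2 ^ n / 2 + 2 * Real.sqrt (s * 2 ^ n)

/-- NUMBERS (uses nothing).  PROOF.  `2 ^ (a + 2) < exp (a + 2)` (`Real.exp_one_gt_d9`, `exp 1 > 2`) and
`n + 1 ≤ exp n` (`Real.add_one_le_exp`). -/
def S_NmB : Prop := ∀ n a : ℕ, ((n : ℝ) + 1) * 2 ^ (a + 1) *
  (2 * Real.exp (-((a : ℝ) + n + 2))) < 1

/-- THE DATA CAN BE EXTENDED (uses `Prg2.S_Cer`, `S_FCi`, `S_NmB`, `Prg.S_Adv`).  PROOF.  `τ'` at the tests with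
`rk k n = r` from `Prg2.S_Cer` on `X.J D.P D.K ω z r` (`X.W i` is bounded, `List.length_ofFn`), otherwise
`D.τ`.  For `k, n` with `rk k n = r` let `ι = Fin (n+1) × ↥(advs (n^k+k))`, so
`|ι| ≤ (n+1) 2^(n^k+k+1)`; `S_FCi` with `s = rk k n + 2` and `S_NmB` with `a = n^k+k` give `f_{k,n}` for
`o (i, a) x = (τ' i k n a x).1`, and
`P' k x = f_{k,|x|} (fun i => x.getD i false)` for `rk k x.length = r`, otherwise `D.P k x` (`i ≤ n` by
`X.ν_M`).  `K' r` = a set as in `Lv` if there is one, otherwise `∅` (`Function.update`). -/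
def S_Upd : Prop := ∀ (X : Ctx) (r : ℕ) (D : X.Dat) (ω : Smp) (z : Rep), ∃ D', X.Ok r D D' ω z

/-- THE CANONICAL DATA (uses `S_Upd`).  PROOF.  Definition of `D`, `seq`, `nxt`;
`r + 1 - M₀ = (r - M₀) + 1`, `M₀ + (r - M₀) = r`. -/
def S_Seq : Prop := ∀ (X : Ctx) (ω : Smp) (z : Rep) (r : ℕ), X.M₀ ≤ r →
  X.Ok r (X.D ω z r) (X.D ω z (r + 1)) ω z

/-- THE CANONICAL DATA ARE STABLE (uses `S_Seq`).  PROOF.  Induction on `s`: for `s + 1 ≤ M₀` both `D`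
are `seq 0`; for `M₀ ≤ s` and a level `l ≤ s`: if `l = s` both sides are equal by definition, if `l < s`
use `hP, hτ, hK` of `S_Seq` and the induction hypothesis. -/
def S_Stb : Prop := ∀ (X : Ctx) (ω : Smp) (z : Rep) (s : ℕ),
  (∀ k x, rk k x.length < s → (X.D ω z s).P k x = (X.DI ω z).P k x) ∧
  (∀ i k n, rk k n < s → (X.D ω z s).τ i k n = (X.DI ω z).τ i k n) ∧
  ∀ r < s, (X.D ω z s).K r = (X.DI ω z).K r

/-- THE PROPERTIES OF THE FINAL DATA (uses `S_Seq`, `S_Stb`, `S_DpP`, `Prg2.S_Dep`, `Prg2.S_Run`).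
PROOF.  By `S_Stb`, `S_DpP` and `Prg2.S_Dep`, `con` (and so `J`) at `r` is the same for `D r` and `DI`.
`card`: `Ok.card` and `S_Stb`.  `cer`, `cnt`: `Ok.cer`, `Ok.cnt` at `r = rk k n` (`M₀ ≤ n ≤ rk k n` by
`X.ν_M`).  `bad`: second part of `G` at `N`.  `cls` at `r`: by the first part of `G`, `Lv` holds for
`P = (D (r+1)).P`, `τ = (D (r+1)).τ`, `K = (D r).K` (whose sets have at most `4 ^ j` elements), and `con` for
`(D (r+1)).P, (D r).K` is `con` for `D r`; `Ok.cls` gives the inequality; replace `D (r+1)` by `DI`: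
`X.w τ r` uses only certificates with base level at most `r`, and
`con … (r + 1) = step … r (con … r) …` (`Prg2.S_Run`, second part). -/
def S_Fix : Prop := ∀ (X : Ctx) (ω : Smp) (z : Rep), (∀ r, X.G ω z r) →
  X.Fix (X.DI ω z).P (X.DI ω z).τ (X.DI ω z).K ω z

/-! ### E.  Hybrids -/

/-- `J r` AND `Jp r` (uses `Prg2.S_Put`, `Prg2.S_Run`, `S_Ful`; see `Prg2/Dif.lean`).  PROOF.  If
`lev u < r` or `X.b r ≤ lev u` both are `con … r u` (for `lev u > r`: `con … (r+1) u = con … r u`).  If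
`r < lev u < X.b r`: `S_Ful`.  If `lev u = r` (so `r < X.b r`): `J r u = put r … (fun s c y => decide (z r s c = y)) u`
and `Jp r u = con … (r+1) u = step … u`; by the last part of `Prg2.S_Put`, `u = cstr s c y` with different
contents, so `y = z r s c`, `s` is not the truth and `c ∉ K r`. -/
def S_Dif : Prop := ∀ (X : Ctx) (P : ℕ → List Bool → Bool) (K : Exc) (ω : Smp) (z : Rep) (r : ℕ)
  (u : List Bool), X.M₀ ≤ r → X.J P K ω z r u ≠ X.Jp P K ω z r u →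
  ∃ c : Row r, c ∉ K r ∧ u = wstr X.Y P (X.con P K ω z r) (z r) c

/-- AGREEMENT OF THE ORACLES (uses `Prg2.S_Put`, `Prg2.S_Run`, `S_Ful`; see `Prg2/Gen.lean`).  PROOF.
(1) `lev u < r + 1`: both are `con … (r+1) u`; otherwise `S_Ful` (`X.b r ≤ X.b (r+1)`).  (2) Definition of
`full`.  (3) `Prg2.S_Run` (first and second part).  (4) `N < X.b r` by `X.b_iff`.  For `N < r`, or `N ≤ r`
in the case of `Jp`, it is `con` at a string of level `N ≥ M₀`, so `step` (`Prg2.S_Run`, third part) and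
`put` at a sample; otherwise `full`, and `put` at a sample. -/
def S_Agr : Prop := ∀ (X : Ctx) (P : ℕ → List Bool → Bool) (K : Exc) (ω : Smp) (z : Rep) (r : ℕ),
  X.M₀ ≤ r →
  (∀ u, lev u < X.b r → X.Jp P K ω z r u = X.J P K ω z (r + 1) u) ∧
  (∀ u, lev u < r → X.J P K ω z r u = X.con P K ω z r u) ∧
  (∀ r' u, r ≤ r' → lev u < r → X.con P K ω z r u = X.con P K ω z r' u) ∧
  ∀ N, X.M₀ ≤ N → X.m N ≤ r → ∀ i : Fin (16 * N ^ 6),
    gen (X.J P K ω z r) N i = ω N i ∧ gen (X.Jp P K ω z r) N i = ω N i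

/-- HYBRID STEP FOR CIRCUITS (uses nothing; see `Prg2/Tes.lean`).  PROOF.  `Prg.abs_frac_sub_le` for
the trees `ct.T N G C.1 C.2` on the samples and on all `ρ`: the advantages on `O` and `O'` differ by at
most `∑ u ∈ D, (qf + qf) ≤ 1 / (2 N^2)`. -/
def S_Hc : Prop := ∀ (ct : CT) (N G : ℕ) (C : Circ N G × (Fin G → Bool)) (O O' : Orc)
  (D : Finset (List Bool)) (l : ℝ), 1 ≤ N →
  (∀ i : Fin (16 * N ^ 6), gen O N i = gen O' N i) → (∀ u, u ∉ D → O' u = O u) →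
  ∑ u ∈ D, (N : ℝ) * wC ct O' N G C u ≤ 1 →
  l + 1 / (2 * (N : ℝ) ^ 2) < |frac (fun ρ : Fin N → Bool => evalQ O' C.1 C.2 ρ = true) -
    frac (fun i : Fin (16 * N ^ 6) => evalQ O' C.1 C.2 (gen O' N i) = true)| →
  l < |frac (fun ρ : Fin N → Bool => evalQ O C.1 C.2 ρ = true) -
    frac (fun i : Fin (16 * N ^ 6) => evalQ O C.1 C.2 (gen O N i) = true)|

/-- HYBRID STEP FOR MACHINES (uses nothing; see `Prg2/Out.lean`).  PROOF.  Side `true`: let
`z₀ = mz V O' c`, `y_i = cut (c.2 i) V.p`.  For all `z`: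
`∑ i, V.pr O' y_i z ≥ ∑ i, V.pr O' y_i z₀ ≥ ∑ i, V.pr O y_i z₀ - ∑ i, ∑ u ∈ D, qf O' (V.T y_i z₀) u`
(`Prg.abs_frac_sub_le`, `Prg.prob_eq_frac`), and the last double sum is `48 ∑ u ∈ D, wV V O' c u ≤ 48`.
Side `false`: dual with `my`. -/
def S_Hm : Prop := ∀ (V : S2) (b : ℕ) (O O' : Orc) (c : Ct b) (D : Finset (List Bool)) (e : ℝ),
  (∀ u, u ∉ D → O' u = O u) → ∑ u ∈ D, wV V O' c u ≤ 1 → HoldsE V O c e → HoldsE V O' c (e + 48)

/-- `HoldsE` IS LOCAL (uses `Prg2.S_Str`).  PROOF.  All queries have length at most `t ≤ B`, so level less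
than `B` (last part of `Prg2.S_Str`), so `V.pr` is the same (`Prg.path_allQ`, `Prg.eval_congr`). -/
def S_HL : Prop := ∀ (V : S2) (b t B : ℕ) (O O' : Orc) (c : Ct b) (e : ℝ), V.Bounded t → t ≤ B →
  1 ≤ B → Agr B O O' → HoldsE V O c e → HoldsE V O' c e

/-- THE INVARIANT (uses `S_Wb`, `S_Dif`, `S_Agr`, `S_Hc`, `S_Hm`, `S_HL`, `Prg2.S_BdL`).  PROOF.  Induction on
`r` from `M₀` (`Nat.le_induction`).  `r = M₀`: `m N = M₀` (`X.m_ge`), `thr M₀ N = 1 / (2 N)`, `F.bad`; tests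
with `rk k n ≤ M₀ ≤ n ≤ rk k n`: `F.cer` (`Holds` is `HoldsE` with error `0`).  Step: `D` = the image of
`univ \ K r` under `wstr`; `J r` and `Jp r` agree outside of `D` (`S_Dif`), `∑ u ∈ D, X.w τ r (Jp r) u ≤ 1`
(`F.cls`, weights nonnegative).  Suppose the first case of `X.w`: for the chosen `N, C` the advantage on
`Jp r` is larger than `thr (r+1) N = thr r N + 1 / (2 N^2)`, so by `S_Hc` (samples: `S_Agr` (4)) larger
than `thr r N` on `J r`: contradiction to the induction hypothesis.  So the second case holds and for all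
`N` with `m N ≤ r` there is no bad circuit on `Jp r`, hence none on `J (r+1)` (`Prg2.S_BdL`, `S_Agr` (1), (4),
`N < X.b r`).  For `m N = r + 1`: `F.bad`, `thr (r+1) N = 1 / (2 N)`.  Machines: every term of the triple sum
has sum at most `1` over `D` (nonnegative terms, `Finset.single_le_sum`), so `S_Hm` gives `HoldsE` on
`Jp r` with error `+ 48`, and `S_HL` with `B = X.b r` on `J (r+1)` (`t ≤ X.b (rk k n) ≤ X.b r` by `X.ν_t`).  For
`rk k n = r + 1`: `F.cer`. -/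
def S_Inv : Prop := ∀ (X : Ctx) (P : ℕ → List Bool → Bool) (τ : X.Crt) (K : Exc) (ω : Smp) (z : Rep),
  X.Fix P τ K ω z → ∀ r, X.M₀ ≤ r →
  (∀ N, X.M₀ ≤ N → X.m N ≤ r → ¬ Bad X.Y.g (X.J P K ω z r) N (X.thr r N)) ∧
  ∀ i k n, rk k n ≤ r → X.ν i k ≤ n → ∀ a ∈ Prg.advs (n ^ k + k), ∀ x : Fin n → Bool,
    HoldsE ((X.W i).run a (List.ofFn x)) (X.J P K ω z r) (τ i k n a x)
      (48 * ((r : ℝ) - rk k n))

/-! ### F.  The final oracle -/

/-- THE MACHINE IS WRONG (uses nothing; see `Prg2/Out.lean`).  PROOF.  `T = 1152 (b + 1)`.  Side `true`: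
if `V.Decides A false`, some `z` has `V.pr A y z ≤ 1/3` for all `y`, so
`528 (b+1) - e ≤ T / 3 = 384 (b+1)`.  Side `false`: some `y` has `V.pr A y z ≥ 2/3` for all `z`, so
`768 (b+1) ≤ 624 (b+1) + e`. -/
def S_Out : Prop := ∀ (V : S2) (b : ℕ) (A : Orc) (c : Ct b) (e : ℝ), HoldsE V A c e →
  e < 48 * ((b : ℝ) + 1) → ¬ V.Decides A (!c.1)

/-- THE LIMIT ORACLE (uses `S_Agr`).  PROOF.  `A u = X.con P K ω z (lev u + 1) u`; for `lev u < r` and
`M₀ ≤ r`: if `M₀ ≤ lev u + 1` use the third part of `S_Agr`; otherwise `con … (lev u + 1) = A₀ = con … M₀`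
(zero steps) and the third part of `S_Agr` from `M₀` to `r`. -/
def S_Lmt : Prop := ∀ (X : Ctx) (P : ℕ → List Bool → Bool) (K : Exc) (ω : Smp) (z : Rep),
  ∃ A : Orc, ∀ r, X.M₀ ≤ r → Agr r (X.con P K ω z r) A

/-- THE GENERATOR (uses `S_Inv`, `S_Agr`, `Prg2.S_BdL`, `Prg2.S_BdF`, `Prg2.S_LoP`).  PROOF.  `N < M₀`:
`X.hV`, `Prg2.S_LoP` (`con … M₀ = A₀`).  `N ≥ M₀`: `S_Inv` at `r = N` (`m N ≤ N`), and
`thr N N ≤ 1/(2N) + N/(2N^2) = 1/N`, so there is no circuit with advantage larger than `1/N` on `J N`;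
`J N` and `A` agree on the levels less than `N` (`S_Agr` (2)); the samples of size `N` of `A` are those of
`con … (N+1)`, so those of `Jp N` (definition of `full`), so `ω N i` (`S_Agr` (4)); `Prg2.S_BdL`,
`Prg2.S_BdF`. -/
def S_FnF : Prop := ∀ (X : Ctx) (P : ℕ → List Bool → Bool) (τ : X.Crt) (K : Exc) (ω : Smp) (z : Rep)
  (A : Orc), X.Fix P τ K ω z → (∀ r, X.M₀ ≤ r → Agr r (X.con P K ω z r) A) →
  ∀ N ≥ 6, FoolsAt X.Y.g A N

/-- THE TABLES (uses `Prg2.S_Vld`, `Prg2.S_LoP`).  PROOF.  `rk k x.length < M₀`: `X.hV` and `Prg2.S_LoP`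
(`con … M₀ = A₀`).  Otherwise `Prg2.S_Vld` with `M = M₀`, `M' = rk k x.length + 1` for
`con … (rk k x.length + 1)`, then `Prg2.S_LoP` (third and fourth part) to `A`. -/
def S_FnT : Prop := ∀ (X : Ctx) (P : ℕ → List Bool → Bool) (K : Exc) (ω : Smp) (z : Rep)
  (A : Orc), (∀ r, X.M₀ ≤ r → (K r).card ≤ 4 ^ r) →
  (∀ r, X.M₀ ≤ r → Agr r (X.con P K ω z r) A) →
  (∀ k x, Inst A true k x (X.Y.F k x A)) ∧ (∀ k x, ∃ b, Inst A false k x b) ∧
  ∀ k x, X.M₀ ≤ rk k x.length → Inst A false k x (P k x)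

/-- THE MACHINES (uses `S_Inv`, `S_Agr`, `S_HL`, `S_Out`).  PROOF.  `t = (X.W i).t n`, `r = rk k n + t`
(`M₀ ≤ n ≤ rk k n`): `S_Inv` gives `HoldsE` on `J r` with error `48 t`; `J r` agrees with `con … r`
(`S_Agr` (2)) and with `A` on the levels less than `r`, `t ≤ r`, `1 ≤ r`: `S_HL`, `S_Out`. -/
def S_FnM : Prop := ∀ (X : Ctx) (P : ℕ → List Bool → Bool) (τ : X.Crt) (K : Exc) (ω : Smp) (z : Rep)
  (A : Orc), X.Fix P τ K ω z → (∀ r, X.M₀ ≤ r → Agr r (X.con P K ω z r) A) →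
  ∀ i k n, X.ν i k ≤ n → ∀ a ∈ Prg.advs (n ^ k + k), ∀ x : Fin n → Bool,
    ¬ ((X.W i).run a (List.ofFn x)).Decides A (!(τ i k n a x).1)

/-- THE COUNT (uses `S_FnT`, `S_FnM`, `Prg2.S_InU`, `Prg.S_Adv`; see the end of `Prg2/Sta.lean`).  PROOF.
`h ∈ advs (n^k+k)`.  If `Inst A false k (ofFn x) b` and the machine decides `b`, then `b = P k (ofFn x)`
(`Prg2.S_InU`, `S_FnT`, `M₀ ≤ n ≤ rk k n`) and `b ≠ !(τ i k n h x).1`, so `P k (ofFn x) = (τ i k n h x).1`;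
`F.cnt`. -/
def S_Cnt : Prop := ∀ (X : Ctx) (P : ℕ → List Bool → Bool) (τ : X.Crt) (K : Exc) (ω : Smp) (z : Rep)
  (A : Orc), X.Fix P τ K ω z → (∀ r, X.M₀ ≤ r → Agr r (X.con P K ω z r) A) →
  ∀ i k n, X.ν i k ≤ n → ∀ h : List Bool, h.length ≤ n ^ k + k →
    (Nat.card {x : Fin n → Bool // ∃ b, Inst A false k (List.ofFn x) b ∧
      ((X.W i).run h (List.ofFn x)).Decides A b} : ℝ) ≤ avg k n

/-! ### G.  Parameters and the end -/

/-- BASE LEVELS AND WINDOWS (uses nothing).  PROOF.  `M₀ = max 64 N₀`,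
`m N = max M₀ (sup over N' ≤ N of (g N' + 2 * Nat.size N' + 3))` (`Finset.sup (range (N+1))`).  For
`N ≥ M₀`: `16 g N' ≤ N` and `2 * Nat.size N + 3 ≤ N / 2` (`2 ^ (size N - 1) ≤ N`), so `m N ≤ N`.
`4 N^3 2^g ≤ 2 ^ (2 + 3 size N + g) ≤ 2 ^ (2 m N - 3)`, as `N < 2 ^ size N`.  `b r` = the least `N` with
`m N > r` (`Nat.find`; `m (2 ^ r) > r`, because `Nat.size (2 ^ r) = r + 1`); `b_iff` by monotonicity.  Last
part: `t = 0` is trivial; otherwise show `m (t - 1) ≤ n ≤ r`: `M₀ ≤ n`, and for `N' ≤ t - 1`: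
`16 g N' ≤ n`, and `2 ^ (16 (size N' - 1)) ≤ (t-1)^16 < 2 ^ n` gives `size N' ≤ n / 16 + 1`; sum at most
`n/16 + 2 (n/16 + 1) + 3 ≤ n`. -/
def S_PrM : Prop := ∀ (g : ℕ → ℕ) (N₀ : ℕ), (∀ N ≥ N₀, ∀ N' ≤ N, 16 * g N' ≤ N) →
  ∃ (M₀ : ℕ) (m b : ℕ → ℕ), 64 ≤ M₀ ∧ (∀ N, M₀ ≤ m N) ∧ (∀ N N', N ≤ N' → m N ≤ m N') ∧
    (∀ N, M₀ ≤ N → m N ≤ N) ∧ (∀ N, 4 * N ^ 3 * 2 ^ g N ≤ 2 ^ (2 * m N - 3)) ∧
    (∀ r N, N < b r ↔ m N ≤ r) ∧
    ∀ n t r, M₀ ≤ n → n ≤ r → t ^ 16 ≤ 2 ^ n → (∀ N ≤ t, 16 * g N ≤ n) → t ≤ b r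

/-- THE WORLD (uses `S_PrM`, `Prg2.S_Fil`, `S_Gd`, `S_Fix`, `S_Lmt`, `S_FnF`, `S_FnT`, `S_Cnt` and a
`ct : CT`).  PROOF.  `N₀` from the hypothesis for `i = 0` (`N' ≤ N ≤ t + N`).  `M₀, m, b` from `S_PrM`.  `A₀`
from `Prg2.S_Fil` with `A = false`, `M = 1`, `M' = M₀` (`Valid Y _ 1` is trivial, `rk ≥ 1`).  `ν i k` = the
maximum of `i`, `M₀` and the bound of the hypothesis for `i` (`t ≤ b (rk k n)` by the last part of
`S_PrM`, `n ≤ rk k n`).  This is a `Ctx`; `S_Gd`, `S_Fix`, `S_Lmt`, … -/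
def S_Lim : Prop := ∀ (Y : World) (W : ℕ → Machine), (∀ i, ∃ n₀, ∀ n ≥ n₀,
    (W i).t n ^ 16 ≤ 2 ^ n ∧ ∀ N ≤ (W i).t n + n, 16 * Y.g N ≤ n) →
  ∃ A : Orc, (∀ N ≥ 6, FoolsAt Y.g A N) ∧ (∀ k x, Inst A true k x (Y.F k x A)) ∧
    (∀ k x, ∃ b, Inst A false k x b) ∧
    ∀ i k, ∃ n₀, ∀ n ≥ n₀, ∀ h : List Bool, h.length ≤ n ^ k + k →
      (Nat.card {x : Fin n → Bool // ∃ b, Inst A false k (List.ofFn x) b ∧
        ((W i).run h (List.ofFn x)).Decides A b} : ℝ) ≤ avg k n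

end Pool.Agent.Lib.MP_ff3ed7_lc.Prg3
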